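import Pool.Agent.H3.LP.Defs

/-! LP-ACC: difference of the accelerations of two states near the rotating triangle. -/

set_option autoImplicit false

open Complex Filter Topology Pool.Agent.H3.LG
open Pool.Agent.H99.TB hiding Ph acc phaseSpace IsSol
open Pool.Agent.H3.TB (Ph acc phaseSpace IsSol IsForwardSol IsRelPeriodic)

namespace Pool.Agent.H3.LP
namespace AccAux


/-- bounds for the coefficient `w` -/
theorem wbd {a b e : ℝ} (he0 : 0 ≤ e) (he : e ≤ 1 / 50) (ha : |a - 1| ≤ e) (hb : |b - 1| ≤ e) :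
    |(a ^ 2 + a * b + b ^ 2) / ((a + b) * a ^ 3 * b ^ 3) - 3 / 2| ≤ 12 * e := by
  rw [abs_le] at ha hb
  obtain ⟨ha1, ha2⟩ := ha
  obtain ⟨hb1, hb2⟩ := hb
  have ha0 : 0 < a := by linarith
  have hb0 : 0 < b := by linarith
  have hlo : 0 < 1 - e := by linarith
  have h1 : (a ^ 2 + a * b + b ^ 2) ≤ 3 / 2 * (1 + e) * (a + b) := by nlinarith
  have h2 : 3 / 2 * (1 - e) * (a + b) ≤ (a ^ 2 + a * b + b ^ 2) := by
    nlinarith [sq_nonneg (a - b)]
  have p1 : (1 - e) ^ 3 ≤ a ^ 3 := pow_le_pow_left₀ hlo.le (by linarith) 3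
  have p2 : (1 - e) ^ 3 ≤ b ^ 3 := pow_le_pow_left₀ hlo.le (by linarith) 3
  have p3 : a ^ 3 ≤ (1 + e) ^ 3 := pow_le_pow_left₀ ha0.le (by linarith) 3
  have p4 : b ^ 3 ≤ (1 + e) ^ 3 := pow_le_pow_left₀ hb0.le (by linarith) 3
  have q1 : (1 - e) ^ 6 ≤ a ^ 3 * b ^ 3 := by
    calc (1 - e) ^ 6 = (1 - e) ^ 3 * (1 - e) ^ 3 := by ring
      _ ≤ _ := by gcongr
  have q2 : a ^ 3 * b ^ 3 ≤ (1 + e) ^ 6 := by
    calc a ^ 3 * b ^ 3 ≤ (1 + e) ^ 3 * (1 + e) ^ 3 := by gcongr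
      _ = _ := by ring
  have hD : 0 < (a + b) * a ^ 3 * b ^ 3 := by positivity
  have hP : 0 < a ^ 3 * b ^ 3 := by positivity
  -- upper: (1+e) <= (1+8e)(1-e)^6 ; lower : (1-8e)(1+e)^6 <= 1-e
  have u1 : (1 + e) ≤ (1 + 8 * e) * (1 - e) ^ 6 := by
    have b6 : 1 - 6 * e ≤ (1 - e) ^ 6 := by
      have := one_add_mul_le_pow (a := -e) (by linarith) 6
      norm_num at this
      have e1 : 1 + -e = 1 - e := by ring
      rw [e1] at this
      linarith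
    nlinarith
  have u2 : (1 - 8 * e) * (1 + e) ^ 6 ≤ 1 - e := by
    have b6 : (1 + e) ^ 6 * (1 - e) ^ 6 ≤ 1 := by
      have e1 : (1 + e) ^ 6 * (1 - e) ^ 6 = (1 - e ^ 2) ^ 6 := by ring
      rw [e1]
      apply pow_le_one₀ <;> nlinarith
    have b7 : 1 - 6 * e ≤ (1 - e) ^ 6 := by
      have := one_add_mul_le_pow (a := -e) (by linarith) 6
      norm_num at this
      have e1 : 1 + -e = 1 - e := by ring
      rw [e1] at this
      linarith
    have hp : 0 < (1 + e) ^ 6 := by positivity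
    have b8 : (1 + e) ^ 6 * (1 - 6 * e) ≤ 1 := by
      refine le_trans ?_ b6
      gcongr
    -- (1-8e) ≤ (1-e)(1-6e)  since (1-e)(1-6e) = 1-7e+6e²
    nlinarith [mul_nonneg hp.le (by nlinarith : 0 ≤ (1 - e) * (1 - 6 * e) - (1 - 8 * e))]
  rw [abs_le]
  constructor
  · rw [le_sub_iff_add_le, le_div_iff₀ hD]
    have : (3 / 2 - 12 * e) * (a ^ 3 * b ^ 3) ≤ 3 / 2 * (1 - e) := by
      have h8 : 0 ≤ 1 - 8 * e := by linarith
      nlinarith [mul_le_mul_of_nonneg_left q2 h8]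
    calc (-(12 * e) + 3 / 2) * ((a + b) * a ^ 3 * b ^ 3) = (3 / 2 - 12 * e) * (a ^ 3 * b ^ 3) * (a + b) := by ring
      _ ≤ 3 / 2 * (1 - e) * (a + b) := by gcongr
      _ ≤ _ := h2
  · rw [sub_le_iff_le_add, div_le_iff₀ hD]
    have : 3 / 2 * (1 + e) ≤ (12 * e + 3 / 2) * (a ^ 3 * b ^ 3) := by
      nlinarith [mul_le_mul_of_nonneg_left q1 (by linarith : 0 ≤ 1 + 8 * e)]
    calc (a ^ 2 + a * b + b ^ 2) ≤ 3 / 2 * (1 + e) * (a + b) := h1
      _ ≤ (12 * e + 3 / 2) * (a ^ 3 * b ^ 3) * (a + b) := by gcongr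
      _ = _ := by ring

theorem abd {a e : ℝ} (he0 : 0 ≤ e) (he : e ≤ 1 / 50) (ha : |a - 1| ≤ e) : |1 / a ^ 3 - 1| ≤ 4 * e := by
  rw [abs_le] at ha
  obtain ⟨ha1, ha2⟩ := ha
  have ha0 : 0 < a := by linarith
  have hlo : 0 < 1 - e := by linarith
  have p1 : (1 - e) ^ 3 ≤ a ^ 3 := pow_le_pow_left₀ hlo.le (by linarith) 3
  have p3 : a ^ 3 ≤ (1 + e) ^ 3 := pow_le_pow_left₀ ha0.le (by linarith) 3
  have hP : 0 < a ^ 3 := by positivity
  rw [abs_le]
  constructor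
  · rw [le_sub_iff_add_le, le_div_iff₀ hP]
    have h4 : 0 ≤ 1 - 4 * e := by linarith
    nlinarith [mul_le_mul_of_nonneg_left p3 h4, mul_nonneg he0 he0, mul_nonneg (mul_nonneg he0 he0) he0]
  · rw [sub_le_iff_le_add, div_le_iff₀ hP]
    have h4 : 0 ≤ 1 + 4 * e := by linarith
    nlinarith [mul_le_mul_of_nonneg_left p1 h4, mul_nonneg he0 he0, mul_nonneg (mul_nonneg he0 he0) he0]

theorem kerr {s x y : ℂ} {e : ℝ} (hs : ‖s‖ = 1) (he : e ≤ 1 / 50) (hx : ‖x - s‖ ≤ e) (hy : ‖y - s‖ ≤ e) :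
    ‖kep x - kep y + (x - y) / 2 + 3 / 2 * s ^ 2 * (starRingEnd ℂ) (x - y)‖ ≤ 36 * e * ‖x - y‖ := by
  have he0 : 0 ≤ e := (norm_nonneg _).trans hx
  have ha : |‖x‖ - 1| ≤ e := by rw [← hs]; exact (abs_norm_sub_norm_le x s).trans hx
  have hb : |‖y‖ - 1| ≤ e := by rw [← hs]; exact (abs_norm_sub_norm_le y s).trans hy
  have hw := wbd he0 he ha hb
  have ha3 := abd he0 he ha
  have ha' := abs_le.1 ha
  have hb' := abs_le.1 hb
  set a := ‖x‖ with hadef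
  set b := ‖y‖ with hbdef
  have ha0 : 0 < a := by linarith
  have hb0 : 0 < b := by linarith
  set w := (a ^ 2 + a * b + b ^ 2) / ((a + b) * a ^ 3 * b ^ 3) with hwdef
  set d := x - y with hd
  have hdn := norm_nonneg d
  set q : ℝ := ((starRingEnd ℂ) s * d).re with hq
  set r : ℝ := a ^ 2 - b ^ 2 with hr
  have hrc : (r : ℂ) = ((starRingEnd ℂ) (x + y) * d + (x + y) * (starRingEnd ℂ) d) / 2 := by
    rw [hr]
    push_cast
    have e1 : ((a : ℂ)) ^ 2 = x * (starRingEnd ℂ) x := by rw [mul_conj, normSq_eq_norm_sq]; push_cast; rfl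
    have e2 : ((b : ℂ)) ^ 2 = y * (starRingEnd ℂ) y := by rw [mul_conj, normSq_eq_norm_sq]; push_cast; rfl
    rw [e1, e2, hd]
    simp only [map_add, map_sub]
    ring
  have hrre : r = ((starRingEnd ℂ) (x + y) * d).re := by
    have : ((r : ℂ)).re = ((((starRingEnd ℂ) (x + y) * d + (starRingEnd ℂ) ((starRingEnd ℂ) (x + y) * d)) / 2 : ℂ)).re := by
      rw [hrc]; congr 2; simp only [map_mul, conj_conj]
    rw [ofReal_re] at this
    rw [this, add_conj]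
    simp
  have hqc : (q : ℂ) = ((starRingEnd ℂ) s * d + s * (starRingEnd ℂ) d) / 2 := by
    have h1 := add_conj ((starRingEnd ℂ) s * d)
    rw [map_mul, conj_conj] at h1
    rw [h1, ← hq]; push_cast; ring
  have hss : s * (starRingEnd ℂ) s = 1 := by rw [mul_conj, normSq_eq_norm_sq, hs]; norm_num
  have hk : kep x - kep y = ((1 / a ^ 3 : ℝ) : ℂ) * d - ((r * w : ℝ) : ℂ) * y := by
    have e3 : (r * w : ℝ) = 1 / b ^ 3 - 1 / a ^ 3 := by
      rw [hr, hwdef]; field_simp; ring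
    rw [kep, kep, ← hadef, ← hbdef, e3, hd]
    push_cast
    ring
  have hE : kep x - kep y + d / 2 + 3 / 2 * s ^ 2 * (starRingEnd ℂ) d =
      ((1 / a ^ 3 - 1 : ℝ) : ℂ) * d - (y - s) * ((r * w : ℝ) : ℂ) -
        s * (((r - 2 * q) * w + 2 * q * (w - 3 / 2) : ℝ) : ℂ) := by
    rw [hk]
    have e4 : (((r - 2 * q) * w + 2 * q * (w - 3 / 2) : ℝ) : ℂ) = ((r * w : ℝ) : ℂ) - 3 * (q : ℂ) := by
      push_cast; ring
    rw [e4, hqc]
    push_cast
    linear_combination (-(3 / 2) * d) * hss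
  rw [hE]
  have n1 : ‖(((1 / a ^ 3 - 1 : ℝ) : ℂ)) * d‖ ≤ 4 * e * ‖d‖ := by
    rw [norm_mul, norm_real, Real.norm_eq_abs]
    gcongr
  have hrb : |r| ≤ 51 / 25 * ‖d‖ := by
    rw [hrre]
    refine (abs_re_le_norm _).trans ?_
    rw [norm_mul, RCLike.norm_conj]
    have : ‖x + y‖ ≤ 51 / 25 := (norm_add_le x y).trans (by linarith)
    gcongr
  have hqb : |q| ≤ ‖d‖ := by
    rw [hq]
    refine (abs_re_le_norm _).trans ?_
    rw [norm_mul, RCLike.norm_conj, hs, one_mul]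
  have hrq : |r - 2 * q| ≤ 2 * e * ‖d‖ := by
    have : r - 2 * q = ((starRingEnd ℂ) (x + y - 2 * s) * d).re := by
      rw [hrre, hq]
      simp only [map_sub, map_add, map_mul, sub_mul, sub_re, map_ofNat]
      congr 1
      rw [mul_assoc]
      simp
    rw [this]
    refine (abs_re_le_norm _).trans ?_
    rw [norm_mul, RCLike.norm_conj]
    have : ‖x + y - 2 * s‖ ≤ 2 * e := by
      have e5 : x + y - 2 * s = (x - s) + (y - s) := by ring
      rw [e5]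
      exact (norm_add_le _ _).trans (by linarith)
    gcongr
  have hw' := abs_le.1 hw
  have hwpos : 0 ≤ w := by linarith
  have hwle : w ≤ 87 / 50 := by linarith
  have n2 : ‖(y - s) * ((r * w : ℝ) : ℂ)‖ ≤ e * (51 / 25 * ‖d‖ * (87 / 50)) := by
    rw [norm_mul, norm_real, Real.norm_eq_abs, abs_mul, abs_of_nonneg hwpos]
    gcongr
  have n3 : ‖s * (((r - 2 * q) * w + 2 * q * (w - 3 / 2) : ℝ) : ℂ)‖ ≤
      2 * e * ‖d‖ * (87 / 50) + 2 * ‖d‖ * (12 * e) := by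
    rw [norm_mul, norm_real, Real.norm_eq_abs, hs, one_mul]
    refine (abs_add_le _ _).trans ?_
    rw [abs_mul, abs_mul, abs_mul, abs_of_nonneg hwpos, abs_two]
    gcongr
  refine (norm_sub_le _ _).trans ?_
  have n4 := norm_sub_le (((1 / a ^ 3 - 1 : ℝ) : ℂ) * d) ((y - s) * ((r * w : ℝ) : ℂ))
  have hed : 0 ≤ e * ‖d‖ := mul_nonneg he0 hdn
  nlinarith

theorem kep_neg (x : ℂ) : kep (-x) = -kep x := by
  rw [kep, kep, norm_neg, mul_neg]

theorem z_sq : zeta ^ 2 = (starRingEnd ℂ) zeta := by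
  apply Complex.ext
  · simp only [zeta, pow_two, mul_re, conj_re]
    have : Real.sqrt 3 * Real.sqrt 3 = 3 := Real.mul_self_sqrt (by norm_num)
    nlinarith
  · simp only [zeta, pow_two, mul_im, conj_im]
    ring

theorem z_norm : ‖zeta‖ = 1 := by
  have h : ‖zeta‖ ^ 2 = 1 := by
    rw [← normSq_eq_norm_sq, normSq_apply]
    simp only [zeta]
    have : Real.sqrt 3 * Real.sqrt 3 = 3 := Real.mul_self_sqrt (by norm_num)
    nlinarith
  have h0 := norm_nonneg zeta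
  nlinarith

theorem z_add : 1 + zeta + (starRingEnd ℂ) zeta = 0 := by
  rw [add_assoc, add_conj]
  simp only [zeta]
  push_cast
  norm_num

theorem z_mul : zeta * (starRingEnd ℂ) zeta = 1 := by
  rw [mul_conj, normSq_eq_norm_sq, z_norm]; norm_num

theorem zc_sq : (starRingEnd ℂ) zeta ^ 2 = zeta := by
  rw [← z_sq, ← pow_mul]
  have : zeta ^ 4 = zeta * (zeta * zeta ^ 2) := by ring
  norm_num
  rw [this, z_sq, z_mul, mul_one]

end AccAux

open AccAux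

theorem accdiff {m : Fin 3 → ℝ} {η ε : ℝ} (hm : Near3 m η) (hη : η ≤ 1 / 100) (hε : ε ≤ 1 / 100) {c : ℂ}
    (hc : ‖c‖ = 1) {x y : E} (hx : ‖x - (c, c * zeta)‖ ≤ ε) (hy : ‖y - (c, c * zeta)‖ ≤ ε) :
    ‖fY (rf kep (m 0) (m 1) (m 2) x - rf kep (m 0) (m 1) (m 2) y) - fY (x - y) / 2‖ ≤ 200 * (ε + η) * ‖x - y‖ ∧
    ‖fX (rf kep (m 0) (m 1) (m 2) x - rf kep (m 0) (m 1) (m 2) y) -
      (fX (x - y) / 2 + 3 / 2 * c ^ 2 * (starRingEnd ℂ) (fX (x - y)))‖ ≤ 200 * (ε + η) * ‖x - y‖ := by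
  obtain ⟨hsum, hmm⟩ := hm
  have hη0 : 0 ≤ η := (abs_nonneg _).trans (hmm 0)
  have hε0 : 0 ≤ ε := (norm_nonneg _).trans hx
  have hx1 : ‖x.1 - c‖ ≤ ε := (norm_fst_le (x - (c, c * zeta))).trans hx
  have hx2 : ‖x.2 - c * zeta‖ ≤ ε := (norm_snd_le (x - (c, c * zeta))).trans hx
  have hy1 : ‖y.1 - c‖ ≤ ε := (norm_fst_le (y - (c, c * zeta))).trans hy
  have hy2 : ‖y.2 - c * zeta‖ ≤ ε := (norm_snd_le (y - (c, c * zeta))).trans hy
  have hzz : c * (starRingEnd ℂ) zeta = -(c + c * zeta) := by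
    linear_combination c * z_add
  have hx3 : ‖-(x.1 + x.2) - c * (starRingEnd ℂ) zeta‖ ≤ 2 * ε := by
    rw [hzz]
    have e : -(x.1 + x.2) - -(c + c * zeta) = -((x.1 - c) + (x.2 - c * zeta)) := by ring
    rw [e, norm_neg]
    exact (norm_add_le _ _).trans (by linarith)
  have hy3 : ‖-(y.1 + y.2) - c * (starRingEnd ℂ) zeta‖ ≤ 2 * ε := by
    rw [hzz]
    have e : -(y.1 + y.2) - -(c + c * zeta) = -((y.1 - c) + (y.2 - c * zeta)) := by ring
    rw [e, norm_neg]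
    exact (norm_add_le _ _).trans (by linarith)
  have hc1 : ‖c * zeta‖ = 1 := by rw [norm_mul, hc, z_norm, one_mul]
  have hc2 : ‖c * (starRingEnd ℂ) zeta‖ = 1 := by rw [norm_mul, hc, RCLike.norm_conj, z_norm, one_mul]
  have k0 := kerr hc (by linarith) hx1 hy1
  have k1 := kerr hc1 (by linarith) hx2 hy2
  have k2 := kerr hc2 (by linarith) hx3 hy3
  -- differences
  have hd1 : ‖x.1 - y.1‖ ≤ ‖x - y‖ := norm_fst_le (x - y)
  have hd2 : ‖x.2 - y.2‖ ≤ ‖x - y‖ := norm_snd_le (x - y)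
  have hd3 : ‖-(x.1 + x.2) - -(y.1 + y.2)‖ ≤ 2 * ‖x - y‖ := by
    have e : -(x.1 + x.2) - -(y.1 + y.2) = -((x.1 - y.1) + (x.2 - y.2)) := by ring
    rw [e, norm_neg]
    exact (norm_add_le _ _).trans (by linarith)
  have hdn : 0 ≤ ‖x - y‖ := norm_nonneg _
  have hKn : kep (-(x.1 + x.2)) = -kep (x.1 + x.2) := kep_neg _
  have hKn' : kep (-(y.1 + y.2)) = -kep (y.1 + y.2) := kep_neg _
  set D := ‖x - y‖ with hD
  set K0 := kep x.1 - kep y.1 with hK0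
  set K1 := kep x.2 - kep y.2 with hK1
  set K2 := kep (-(x.1 + x.2)) - kep (-(y.1 + y.2)) with hK2
  set E0 := K0 + (x.1 - y.1) / 2 + 3 / 2 * c ^ 2 * (starRingEnd ℂ) (x.1 - y.1) with hE0
  set E1 := K1 + (x.2 - y.2) / 2 + 3 / 2 * (c * zeta) ^ 2 * (starRingEnd ℂ) (x.2 - y.2) with hE1
  set E2 := K2 + (-(x.1 + x.2) - -(y.1 + y.2)) / 2 + 3 / 2 * (c * (starRingEnd ℂ) zeta) ^ 2 *
    (starRingEnd ℂ) (-(x.1 + x.2) - -(y.1 + y.2)) with hE2
  have hm1 : ((m 1 : ℝ) : ℂ) = 1 - m 0 - m 2 := by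
    have : m 1 = 1 - m 0 - m 2 := by linarith
    rw [this]; push_cast; ring
  have hr1 : (rf kep (m 0) (m 1) (m 2) x - rf kep (m 0) (m 1) (m 2) y).1 = -K0 + m 2 * (K0 + K1 + K2) := by
    rw [hK2, hKn, hKn', hK0, hK1]
    simp only [rf, Prod.fst_sub]
    push_cast
    rw [hm1]
    ring
  have hr2 : (rf kep (m 0) (m 1) (m 2) x - rf kep (m 0) (m 1) (m 2) y).2 = -K1 + m 0 * (K0 + K1 + K2) := by
    rw [hK2, hKn, hKn', hK0, hK1]
    simp only [rf, Prod.snd_sub]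
    push_cast
    rw [hm1]
    ring
  have b0 : ‖K0‖ ≤ 3 * D := by
    have e : K0 = E0 - ((x.1 - y.1) / 2 + 3 / 2 * c ^ 2 * (starRingEnd ℂ) (x.1 - y.1)) := by rw [hE0]; ring
    have h2 : ‖(x.1 - y.1) / 2 + 3 / 2 * c ^ 2 * (starRingEnd ℂ) (x.1 - y.1)‖ ≤ 2 * ‖x.1 - y.1‖ := by
      refine (norm_add_le _ _).trans ?_
      rw [norm_mul, norm_mul, norm_pow, hc, norm_div, RCLike.norm_conj]
      norm_num
      linarith
    rw [e]
    refine (norm_sub_le _ _).trans ?_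
    nlinarith [norm_nonneg (x.1 - y.1)]
  have b1 : ‖K1‖ ≤ 3 * D := by
    have e : K1 = E1 - ((x.2 - y.2) / 2 + 3 / 2 * (c * zeta) ^ 2 * (starRingEnd ℂ) (x.2 - y.2)) := by rw [hE1]; ring
    have h2 : ‖(x.2 - y.2) / 2 + 3 / 2 * (c * zeta) ^ 2 * (starRingEnd ℂ) (x.2 - y.2)‖ ≤ 2 * ‖x.2 - y.2‖ := by
      refine (norm_add_le _ _).trans ?_
      rw [norm_mul, norm_mul, norm_pow, hc1, norm_div, RCLike.norm_conj]
      norm_num
      linarith
    rw [e]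
    refine (norm_sub_le _ _).trans ?_
    nlinarith [norm_nonneg (x.2 - y.2)]
  have b2 : ‖K2‖ ≤ 6 * D := by
    have e : K2 = E2 - ((-(x.1 + x.2) - -(y.1 + y.2)) / 2 + 3 / 2 * (c * (starRingEnd ℂ) zeta) ^ 2 *
      (starRingEnd ℂ) (-(x.1 + x.2) - -(y.1 + y.2))) := by rw [hE2]; ring
    have h2 : ‖(-(x.1 + x.2) - -(y.1 + y.2)) / 2 + 3 / 2 * (c * (starRingEnd ℂ) zeta) ^ 2 *
      (starRingEnd ℂ) (-(x.1 + x.2) - -(y.1 + y.2))‖ ≤ 2 * ‖-(x.1 + x.2) - -(y.1 + y.2)‖ := by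
      refine (norm_add_le _ _).trans ?_
      rw [norm_mul, norm_mul, norm_pow, hc2, norm_div, RCLike.norm_conj]
      norm_num
      linarith
    rw [e]
    refine (norm_sub_le _ _).trans ?_
    nlinarith [norm_nonneg (-(x.1 + x.2) - -(y.1 + y.2))]
  have bS : ‖K0 + K1 + K2‖ ≤ 12 * D := by
    refine (norm_add_le _ _).trans ?_
    have := norm_add_le K0 K1
    linarith
  have mass : ∀ u v : ℂ, ‖u‖ = 1 → ‖v‖ = 1 → 1 + u + v = 0 →
      ‖((m 2 : ℂ) + u * m 0 + v * m 1)‖ ≤ 3 * η := by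
    intro u v hu hv huv
    have e : ((m 2 : ℂ) + u * m 0 + v * m 1) = ((m 2 - 1 / 3 : ℝ) : ℂ) + u * ((m 0 - 1 / 3 : ℝ) : ℂ) +
        v * ((m 1 - 1 / 3 : ℝ) : ℂ) := by
      push_cast
      linear_combination (1 / 3 : ℂ) * huv
    rw [e]
    refine (norm_add_le _ _).trans ?_
    have h1 := norm_add_le (((m 2 - 1 / 3 : ℝ) : ℂ)) (u * ((m 0 - 1 / 3 : ℝ) : ℂ))
    rw [norm_mul, hu, one_mul] at h1
    rw [norm_mul, hv, one_mul]
    rw [norm_real, norm_real, Real.norm_eq_abs, Real.norm_eq_abs] at h1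
    rw [norm_real, Real.norm_eq_abs]
    have h3 := hmm 0
    have h4 := hmm 1
    have h5 := hmm 2
    linarith
  have hzc : ‖(starRingEnd ℂ) zeta‖ = 1 := by rw [RCLike.norm_conj, z_norm]
  have mY := mass zeta ((starRingEnd ℂ) zeta) z_norm hzc z_add
  have mX := mass ((starRingEnd ℂ) zeta) zeta hzc z_norm (by linear_combination z_add)
  have hz2 := z_sq
  have hzc2 := zc_sq
  have hzm := z_mul
  have hza := z_add
  set zb := (starRingEnd ℂ) zeta with hzb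
  have hczb : (starRingEnd ℂ) zb = zeta := by rw [hzb, conj_conj]
  constructor
  · have key : fY (rf kep (m 0) (m 1) (m 2) x - rf kep (m 0) (m 1) (m 2) y) - fY (x - y) / 2 =
        -(E0 + zeta * E1 + zb * E2) / 3 + (((m 2 : ℂ) + zeta * m 0 + zb * m 1)) * (K0 + K1 + K2) / 3 := by
      rw [fY, fY, hr1, hr2, hE0, hE1, hE2]
      simp only [Prod.fst_sub, Prod.snd_sub, map_sub, map_add, map_neg]
      rw [← hzb]
      have e1 : (c * zeta) ^ 2 = c ^ 2 * zb := by rw [mul_pow, hz2]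
      have e2 : (c * zb) ^ 2 = c ^ 2 * zeta := by rw [mul_pow, hzc2]
      rw [e1, e2, hm1]
      generalize (starRingEnd ℂ) x.1 = p
      generalize (starRingEnd ℂ) x.2 = q
      generalize (starRingEnd ℂ) y.1 = p'
      generalize (starRingEnd ℂ) y.2 = q'
      linear_combination (-(1 / 2) * c ^ 2 * (p - p')) * hzm
    rw [key]
    have h1 : ‖-(E0 + zeta * E1 + zb * E2) / 3‖ ≤ 72 * ε * D := by
      rw [norm_div, norm_neg]
      have h2 := norm_add_le (E0 + zeta * E1) (zb * E2)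
      have h3 := norm_add_le E0 (zeta * E1)
      rw [norm_mul, hzc, one_mul] at h2
      rw [norm_mul, z_norm, one_mul] at h3
      have e3 : ‖(3 : ℂ)‖ = 3 := by norm_num
      rw [e3, div_le_iff₀ (by norm_num)]
      have k0' : ‖E0‖ ≤ 36 * ε * D := k0.trans (by gcongr)
      have k1' : ‖E1‖ ≤ 36 * ε * D := k1.trans (by gcongr)
      have k2' : ‖E2‖ ≤ 36 * (2 * ε) * (2 * D) := k2.trans (by gcongr)
      linarith
    have h4 : ‖((m 2 : ℂ) + zeta * m 0 + zb * m 1) * (K0 + K1 + K2) / 3‖ ≤ 12 * η * D := by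
      rw [norm_div, norm_mul]
      have e3 : ‖(3 : ℂ)‖ = 3 := by norm_num
      rw [e3, div_le_iff₀ (by norm_num)]
      calc ‖((m 2 : ℂ) + zeta * m 0 + zb * m 1)‖ * ‖K0 + K1 + K2‖ ≤ (3 * η) * (12 * D) := by gcongr
        _ = _ := by ring
    refine (norm_add_le _ _).trans ?_
    have hed : 0 ≤ ε * D := mul_nonneg hε0 hdn
    have hed' : 0 ≤ η * D := mul_nonneg hη0 hdn
    calc _ ≤ 72 * ε * D + 12 * η * D := add_le_add h1 h4
      _ ≤ _ := by linarith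
  · have key : fX (rf kep (m 0) (m 1) (m 2) x - rf kep (m 0) (m 1) (m 2) y) -
        (fX (x - y) / 2 + 3 / 2 * c ^ 2 * (starRingEnd ℂ) (fX (x - y))) =
        -(E0 + zb * E1 + zeta * E2) / 3 + (((m 2 : ℂ) + zb * m 0 + zeta * m 1)) * (K0 + K1 + K2) / 3 := by
      rw [fX, fX, hr1, hr2, hE0, hE1, hE2]
      simp only [Prod.fst_sub, Prod.snd_sub, map_sub, map_add, map_neg, map_div₀, map_mul, map_ofNat]
      rw [← hzb, hczb]
      have e1 : (c * zeta) ^ 2 = c ^ 2 * zb := by rw [mul_pow, hz2]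
      have e2 : (c * zb) ^ 2 = c ^ 2 * zeta := by rw [mul_pow, hzc2]
      rw [e1, e2, hm1]
      generalize (starRingEnd ℂ) x.1 = p
      generalize (starRingEnd ℂ) x.2 = q
      generalize (starRingEnd ℂ) y.1 = p'
      generalize (starRingEnd ℂ) y.2 = q'
      linear_combination (1 / 2 * c ^ 2 * (q - q')) * hzc2 + (1 / 2 * c ^ 2 * (-(p + q) + (p' + q'))) * hz2
    rw [key]
    have h1 : ‖-(E0 + zb * E1 + zeta * E2) / 3‖ ≤ 72 * ε * D := by
      rw [norm_div, norm_neg]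
      have h2 := norm_add_le (E0 + zb * E1) (zeta * E2)
      have h3 := norm_add_le E0 (zb * E1)
      rw [norm_mul, z_norm, one_mul] at h2
      rw [norm_mul, hzc, one_mul] at h3
      have e3 : ‖(3 : ℂ)‖ = 3 := by norm_num
      rw [e3, div_le_iff₀ (by norm_num)]
      have k0' : ‖E0‖ ≤ 36 * ε * D := k0.trans (by gcongr)
      have k1' : ‖E1‖ ≤ 36 * ε * D := k1.trans (by gcongr)
      have k2' : ‖E2‖ ≤ 36 * (2 * ε) * (2 * D) := k2.trans (by gcongr)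
      linarith
    have h4 : ‖((m 2 : ℂ) + zb * m 0 + zeta * m 1) * (K0 + K1 + K2) / 3‖ ≤ 12 * η * D := by
      rw [norm_div, norm_mul]
      have e3 : ‖(3 : ℂ)‖ = 3 := by norm_num
      rw [e3, div_le_iff₀ (by norm_num)]
      calc ‖((m 2 : ℂ) + zb * m 0 + zeta * m 1)‖ * ‖K0 + K1 + K2‖ ≤ (3 * η) * (12 * D) := by gcongr
        _ = _ := by ring
    refine (norm_add_le _ _).trans ?_
    have hed : 0 ≤ ε * D := mul_nonneg hε0 hdn
    have hed' : 0 ≤ η * D := mul_nonneg hη0 hdn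
    calc _ ≤ 72 * ε * D + 12 * η * D := add_le_add h1 h4
      _ ≤ _ := by linarith

end Pool.Agent.H3.LP
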