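import Pool.Agent.H3.LP.Eqv
import Pool.Agent.H3.LP.Acc

/-! LP-INEQ: differential inequalities for the difference of a solution and an approximate solution. -/

set_option autoImplicit false

open Complex Pool.Agent.H3.LG
open Pool.Agent.H99.TB hiding Ph acc phaseSpace IsSol

namespace Pool.Agent.H3.LP

open Eqv

/-- statement of LP-ACC -/
def S_ACC : Prop := ∀ {m : Fin 3 → ℝ} {η ε : ℝ} (_ : Near3 m η) (_ : η ≤ 1 / 100) (_ : ε ≤ 1 / 100) {c : ℂ}
    (_ : ‖c‖ = 1) {x y : E} (_ : ‖x - (c, c * zeta)‖ ≤ ε) (_ : ‖y - (c, c * zeta)‖ ≤ ε),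
    ‖fY (rf kep (m 0) (m 1) (m 2) x - rf kep (m 0) (m 1) (m 2) y) - fY (x - y) / 2‖ ≤ 200 * (ε + η) * ‖x - y‖ ∧
    ‖fX (rf kep (m 0) (m 1) (m 2) x - rf kep (m 0) (m 1) (m 2) y) -
      (fX (x - y) / 2 + 3 / 2 * c ^ 2 * (starRingEnd ℂ) (fX (x - y)))‖ ≤ 200 * (ε + η) * ‖x - y‖

namespace Ineq

theorem cs4 {a1 a2 a3 a4 b1 b2 b3 b4 S T : ℝ} (hT : 0 ≤ T) (ha : a1 ^ 2 + a2 ^ 2 + a3 ^ 2 + a4 ^ 2 ≤ S)
    (hb : b1 ^ 2 + b2 ^ 2 + b3 ^ 2 + b4 ^ 2 ≤ T ^ 2) : a1 * b1 + a2 * b2 + a3 * b3 + a4 * b4 ≤ Real.sqrt S * T := by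
  have hS : 0 ≤ S := le_trans (by positivity) ha
  have h1 : (a1 * b1 + a2 * b2 + a3 * b3 + a4 * b4) ^ 2 ≤ (Real.sqrt S * T) ^ 2 := by
    rw [mul_pow, Real.sq_sqrt hS]
    calc (a1 * b1 + a2 * b2 + a3 * b3 + a4 * b4) ^ 2
        ≤ (a1 ^ 2 + a2 ^ 2 + a3 ^ 2 + a4 ^ 2) * (b1 ^ 2 + b2 ^ 2 + b3 ^ 2 + b4 ^ 2) := by
          nlinarith [sq_nonneg (a1 * b2 - a2 * b1), sq_nonneg (a1 * b3 - a3 * b1), sq_nonneg (a1 * b4 - a4 * b1),
            sq_nonneg (a2 * b3 - a3 * b2), sq_nonneg (a2 * b4 - a4 * b2), sq_nonneg (a3 * b4 - a4 * b3)]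
      _ ≤ S * T ^ 2 := by gcongr
  exact le_of_sq_le_sq_nonneg h1 (by positivity)
where
  le_of_sq_le_sq_nonneg {x y : ℝ} (h : x ^ 2 ≤ y ^ 2) (hy : 0 ≤ y) : x ≤ y := by
    by_contra hc
    rw [not_le] at hc
    nlinarith

theorem fY_deriv {D : ℝ → E} {D' : E} {t : ℝ} (h : HasDerivAt D D' t) :
    HasDerivAt (fun s => fY (D s)) (fY D') t := by
  have h1 : HasDerivAt (fun s => (D s).1) D'.1 t := h.fst
  have h2 : HasDerivAt (fun s => (D s).2) D'.2 t := h.snd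
  exact ((h1.add (h2.const_mul zeta)).sub ((h1.add h2).const_mul ((starRingEnd ℂ) zeta))).div_const 3

theorem fX_deriv {D : ℝ → E} {D' : E} {t : ℝ} (h : HasDerivAt D D' t) :
    HasDerivAt (fun s => fX (D s)) (fX D') t := by
  have h1 : HasDerivAt (fun s => (D s).1) D'.1 t := h.fst
  have h2 : HasDerivAt (fun s => (D s).2) D'.2 t := h.snd
  exact ((h1.add (h2.const_mul ((starRingEnd ℂ) zeta))).sub ((h1.add h2).const_mul zeta)).div_const 3

theorem conj_deriv {f : ℝ → ℂ} {f' : ℂ} {t : ℝ} (h : HasDerivAt f f' t) :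
    HasDerivAt (fun s => (starRingEnd ℂ) (f s)) ((starRingEnd ℂ) f') t := by
  have := Complex.conjCLE.hasFDerivAt.comp_hasDerivAt t h
  exact this

theorem re_deriv {f : ℝ → ℂ} {f' : ℂ} {t : ℝ} (h : HasDerivAt f f' t) :
    HasDerivAt (fun s => (f s).re) f'.re t := by
  have := Complex.reCLM.hasFDerivAt.comp_hasDerivAt t h
  exact this

theorem im_deriv {f : ℝ → ℂ} {f' : ℂ} {t : ℝ} (h : HasDerivAt f f' t) :
    HasDerivAt (fun s => (f s).im) f'.im t := by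
  have := Complex.imCLM.hasFDerivAt.comp_hasDerivAt t h
  exact this

theorem normsq_deriv {f : ℝ → ℂ} {f' : ℂ} {t : ℝ} (h : HasDerivAt f f' t) :
    HasDerivAt (fun s => ‖f s‖ ^ 2) (2 * ((f t).re * f'.re + (f t).im * f'.im)) t := by
  have e : (fun s => ‖f s‖ ^ 2) = fun s => (f s).re ^ 2 + (f s).im ^ 2 := by
    funext s
    rw [← Complex.normSq_eq_norm_sq, Complex.normSq_apply]
    ring
  rw [e]
  have h1 := (re_deriv h).pow 2
  have h2 := (im_deriv h).pow 2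
  refine (h1.add h2).congr_deriv ?_
  simp
  ring

theorem inner_le (x y : ℂ) : |x.re * y.re + x.im * y.im| ≤ ‖x‖ * ‖y‖ := by
  have h : x.re * y.re + x.im * y.im = ((starRingEnd ℂ) x * y).re := by
    simp [Complex.mul_re]
  rw [h]
  refine (Complex.abs_re_le_norm _).trans ?_
  rw [norm_mul, RCLike.norm_conj]

end Ineq

open Ineq

theorem ineq_of (hacc : S_ACC) : ∀ (m : Fin 3 → ℝ) (η ε δ : ℝ), Near3 m η → 0 ≤ η → η ≤ 1 / 100 → 0 ≤ ε → ε ≤ 1 / 100 →
    0 ≤ δ → ∀ (y φ : ℝ → E × E) (c : ℝ → ℂ) (t θ : ℝ) (a : E), ‖c t‖ = 1 → HasDerivAt c (I * θ * c t) t →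
      |θ - 1| ≤ ε → HasDerivAt y ((y t).2, rf kep (m 0) (m 1) (m 2) (y t).1) t → HasDerivAt φ ((φ t).2, a) t →
      ‖a - rf kep (m 0) (m 1) (m 2) (φ t).1‖ ≤ δ → ‖y t - rot (c t) (start 0)‖ ≤ ε →
      ‖φ t - rot (c t) (start 0)‖ ≤ ε →
      (∃ u' : ℝ, HasDerivAt (fun s => UU (y s - φ s) ^ 2) u' t ∧
        Real.sqrt 2 * UU (y t - φ t) ^ 2 - (10 ^ 6 * (ε + η) * (UU (y t - φ t) + Real.sqrt (W2 (c t) (y t - φ t))) +
          10 * δ) * UU (y t - φ t) ≤ u' ∧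
        u' ≤ Real.sqrt 2 * UU (y t - φ t) ^ 2 + (10 ^ 6 * (ε + η) * (UU (y t - φ t) +
          Real.sqrt (W2 (c t) (y t - φ t))) + 10 * δ) * UU (y t - φ t)) ∧
      ∃ w' : ℝ, HasDerivAt (fun s => W2 (c s) (y s - φ s)) w' t ∧
        w' ≤ 2 / 5 * W2 (c t) (y t - φ t) + (10 ^ 6 * (ε + η) * (UU (y t - φ t) +
          Real.sqrt (W2 (c t) (y t - φ t))) + 10 * δ) * Real.sqrt (W2 (c t) (y t - φ t)) := by
  intro m η ε δ hm hη0 hη hε0 hε hδ0 y φ c t θ a hc hcd hθ hy hφ ha hyc hφc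
  set D : ℝ → E × E := fun s => y s - φ s with hD
  have hDt : D t = y t - φ t := rfl
  set U := UU (D t) with hU
  set W := Real.sqrt (W2 (c t) (D t)) with hW
  have hU0 : 0 ≤ U := norm_nonneg _
  have hW0 : 0 ≤ W := Real.sqrt_nonneg _
  have hWW : W ^ 2 = W2 (c t) (D t) := Real.sq_sqrt (W2_nonneg _ _)
  set F : E := rf kep (m 0) (m 1) (m 2) (y t).1 - a with hF
  have hDd : HasDerivAt D ((D t).2, F) t := hy.sub hφ
  have hD1 : HasDerivAt (fun s => (D s).1) (D t).2 t := hDd.fst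
  have hD2 : HasDerivAt (fun s => (D s).2) F t := hDd.snd
  -- the remainder terms
  have hpos1 : ‖(y t).1 - (c t, c t * zeta)‖ ≤ ε := by
    have e : (rot (c t) (start 0)).1 = (c t, c t * zeta) := by
      simp [rot, start, hh]
    rw [← e]
    exact (norm_fst_le (y t - rot (c t) (start 0))).trans hyc
  have hpos2 : ‖(φ t).1 - (c t, c t * zeta)‖ ≤ ε := by
    have e : (rot (c t) (start 0)).1 = (c t, c t * zeta) := by
      simp [rot, start, hh]
    rw [← e]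
    exact (norm_fst_le (φ t - rot (c t) (start 0))).trans hφc
  obtain ⟨q1, q2⟩ := hacc hm hη hε hc hpos1 hpos2
  have hD1n : ‖(y t).1 - (φ t).1‖ ≤ 20 * (U + W) := by
    have h1 := le_UW hc (D t)
    exact (norm_fst_le (D t)).trans h1
  set R : ℝ := 4000 * (ε + η) * (U + W) + 4 / 3 * δ with hR
  have hR0 : 0 ≤ R := by positivity
  have hb : 200 * (ε + η) * ‖(y t).1 - (φ t).1‖ ≤ 4000 * (ε + η) * (U + W) := by
    have : 200 * (ε + η) * ‖(y t).1 - (φ t).1‖ ≤ 200 * (ε + η) * (20 * (U + W)) := by gcongr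
    linarith
  set d : E := (y t).1 - (φ t).1 with hd
  have hd' : (D t).1 = d := rfl
  set rY : ℂ := fY F - fY d / 2 with hrY
  set rX : ℂ := fX F - (fX d / 2 + 3 / 2 * c t ^ 2 * (starRingEnd ℂ) (fX d)) with hrX
  have hFe : F = (rf kep (m 0) (m 1) (m 2) (y t).1 - rf kep (m 0) (m 1) (m 2) (φ t).1) -
      (a - rf kep (m 0) (m 1) (m 2) (φ t).1) := by rw [hF]; abel
  have hrYb : ‖rY‖ ≤ R := by
    have e : rY = (fY (rf kep (m 0) (m 1) (m 2) (y t).1 - rf kep (m 0) (m 1) (m 2) (φ t).1) - fY d / 2) -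
        fY (a - rf kep (m 0) (m 1) (m 2) (φ t).1) := by
      rw [hrY, hFe, fY_sub]; ring
    rw [e]
    refine (norm_sub_le _ _).trans ?_
    have := fY_le (a - rf kep (m 0) (m 1) (m 2) (φ t).1)
    rw [hR]
    linarith
  have hrXb : ‖rX‖ ≤ R := by
    have e : rX = (fX (rf kep (m 0) (m 1) (m 2) (y t).1 - rf kep (m 0) (m 1) (m 2) (φ t).1) -
        (fX d / 2 + 3 / 2 * c t ^ 2 * (starRingEnd ℂ) (fX d))) - fX (a - rf kep (m 0) (m 1) (m 2) (φ t).1) := by
      rw [hrX, hFe, fX_sub]; ring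
    rw [e]
    refine (norm_sub_le _ _).trans ?_
    have := fX_le (a - rf kep (m 0) (m 1) (m 2) (φ t).1)
    rw [hR]
    linarith
  have hs2 : ((Real.sqrt 2 : ℝ) : ℂ) ≠ 0 := by
    rw [Ne, Complex.ofReal_eq_zero]; exact sq2_pos.ne'
  have hs2' : ((Real.sqrt 2 : ℝ) : ℂ) * ((Real.sqrt 2 : ℝ) : ℂ) = 2 := by
    rw [← Complex.ofReal_mul, s2]; norm_num
  -- derivative of Yp, Ym
  have hYpd : HasDerivAt (fun s => Yp (D s)) (((1 / Real.sqrt 2 : ℝ) : ℂ) * Yp (D t) + rY) t := by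
    have h1 := (fY_deriv hD2).add ((fY_deriv hD1).div_const ((Real.sqrt 2 : ℝ) : ℂ))
    refine h1.congr_deriv ?_
    rw [Yp, hrY, hd']
    push_cast
    field_simp
    linear_combination (fY d) * hs2'
  have hYmd : HasDerivAt (fun s => Ym (D s)) (-((1 / Real.sqrt 2 : ℝ) : ℂ) * Ym (D t) + rY) t := by
    have h1 := (fY_deriv hD2).sub ((fY_deriv hD1).div_const ((Real.sqrt 2 : ℝ) : ℂ))
    refine h1.congr_deriv ?_
    rw [Ym, hrY, hd']
    push_cast
    field_simp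
    linear_combination (fY d) * hs2'
  have hsq : 2 * (1 / Real.sqrt 2) = Real.sqrt 2 := by
    rw [mul_one_div, div_eq_iff sq2_pos.ne']
    exact s2.symm
  constructor
  · refine ⟨_, normsq_deriv hYpd, ?_, ?_⟩
    all_goals
      have hin := abs_le.1 (inner_le (Yp (D t)) rY)
      have hUU : ‖Yp (D t)‖ = U := rfl
      rw [hUU] at hin
      have hUr : U * ‖rY‖ ≤ U * R := by gcongr
      have e : 2 * ((Yp (D t)).re * (((1 / Real.sqrt 2 : ℝ) : ℂ) * Yp (D t) + rY).re +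
          (Yp (D t)).im * (((1 / Real.sqrt 2 : ℝ) : ℂ) * Yp (D t) + rY).im) =
          Real.sqrt 2 * U ^ 2 + 2 * ((Yp (D t)).re * rY.re + (Yp (D t)).im * rY.im) := by
        have h1 : U ^ 2 = (Yp (D t)).re ^ 2 + (Yp (D t)).im ^ 2 := by
          rw [← hUU, ← Complex.normSq_eq_norm_sq, Complex.normSq_apply]; ring
        rw [Complex.add_re, Complex.add_im, Complex.re_ofReal_mul, Complex.im_ofReal_mul, h1]
        linear_combination ((Yp (D t)).re ^ 2 + (Yp (D t)).im ^ 2) * hsq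
      have hR2 : 2 * (U * R) ≤ (10 ^ 6 * (ε + η) * (U + W) + 10 * δ) * U := by
        have h3 : 2 * R ≤ 10 ^ 6 * (ε + η) * (U + W) + 10 * δ := by
          rw [hR]
          have : 0 ≤ (ε + η) * (U + W) := by positivity
          linarith
        calc 2 * (U * R) = (2 * R) * U := by ring
          _ ≤ _ := mul_le_mul_of_nonneg_right h3 hU0
    · show Real.sqrt 2 * U ^ 2 - (10 ^ 6 * (ε + η) * (U + W) + 10 * δ) * U ≤ _
      rw [e]
      linarith [hin.1]
    · show _ ≤ Real.sqrt 2 * U ^ 2 + (10 ^ 6 * (ε + η) * (U + W) + 10 * δ) * U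
      rw [e]
      linarith [hin.2]
  · -- Kepler part
    set x : ℂ := xx (c t) (D t) with hx
    set ξ : ℂ := xi (c t) (D t) with hξ
    set κ : ℝ := 1 - θ with hκ
    have hκb : |κ| ≤ ε := by rw [hκ, abs_sub_comm]; exact hθ
    set ρ : ℂ := (starRingEnd ℂ) (c t) * rX with hρ
    have hρb : ‖ρ‖ ≤ R := by rw [hρ, norm_mul, RCLike.norm_conj, hc, one_mul]; exact hrXb
    have hcc : (starRingEnd ℂ) (c t) * c t = 1 := by
      rw [mul_comm, Complex.mul_conj, Complex.normSq_eq_norm_sq, hc]; norm_num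
    have hcbar := conj_deriv hcd
    have hxd : HasDerivAt (fun s => xx (c s) (D s)) (ξ + I * κ * x) t := by
      have h1 := hcbar.mul (fX_deriv hD1)
      refine h1.congr_deriv ?_
      rw [hξ, hx, xi, xx, hκ]
      simp only [map_mul, Complex.conj_I, Complex.conj_ofReal]
      push_cast
      ring
    have hξd : HasDerivAt (fun s => xi (c s) (D s)) (3 * x.re - 2 * I * ξ + I * κ * ξ + ρ) t := by
      have h1 := (hcbar.mul (fX_deriv hD2)).sub (hxd.const_mul I)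
      refine h1.congr_deriv ?_
      have h2 : fX F = rX + (fX d / 2 + 3 / 2 * c t ^ 2 * (starRingEnd ℂ) (fX d)) := by rw [hrX]; ring
      have h3 : (x.re : ℂ) = (x + (starRingEnd ℂ) x) / 2 := by
        rw [Complex.add_conj]; push_cast; ring
      have h4 : (starRingEnd ℂ) x = c t * (starRingEnd ℂ) (fX d) := by
        rw [hx, xx, map_mul, Complex.conj_conj, hd']
      have h5 : (starRingEnd ℂ) (c t) * (c t) ^ 2 = c t := by
        calc (starRingEnd ℂ) (c t) * (c t) ^ 2 = ((starRingEnd ℂ) (c t) * c t) * c t := by ring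
          _ = c t := by rw [hcc, one_mul]
      rw [h3, h4, h2, hξ, hx, xi, xx, hρ, hκ, hd']
      simp only [map_mul, Complex.conj_I, Complex.conj_ofReal]
      push_cast
      have hI := Complex.I_sq
      linear_combination (3 / 2 * (starRingEnd ℂ) (fX d)) * h5 +
        ((starRingEnd ℂ) (c t) * fX d * (-1)) * hI
    set A : ℝ := x.re - 2 * c1 (c t) (D t) with hA
    set k1 : ℝ := c1 (c t) (D t) with hk1
    have hk1e : k1 = ξ.im + 2 * x.re := rfl
    obtain ⟨w1, w2, w3, w4, w5⟩ := W_parts (c t) (D t)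
    rw [← hW] at w1 w2 w3 w4 w5
    rw [← hx, ← hk1] at w2
    rw [← hk1] at w4
    rw [← hx] at w5
    rw [← hξ] at w3
    -- derivatives of the real functions
    have da := re_deriv hxd
    have db := im_deriv hxd
    have dα := re_deriv hξd
    have dβ := im_deriv hξd
    have dc : HasDerivAt (fun s => c1 (c s) (D s)) (κ * ξ.re - 2 * κ * x.im + ρ.im) t := by
      have h1 := dβ.add (da.const_mul 2)
      refine h1.congr_deriv ?_
      simp
      ring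
    have dA : HasDerivAt (fun s => (xx (c s) (D s)).re - 2 * c1 (c s) (D s))
        (ξ.re - 2 * κ * ξ.re + 3 * κ * x.im - 2 * ρ.im) t := by
      have h1 := da.sub (dc.const_mul 2)
      refine h1.congr_deriv ?_
      simp
      ring
    have dα' : HasDerivAt (fun s => (xi (c s) (D s)).re) (-A - κ * ξ.im + ρ.re) t := by
      refine dα.congr_deriv ?_
      rw [hA, hk1e]
      simp
      ring
    have db' : HasDerivAt (fun s => (xx (c s) (D s)).im) (-3 * k1 - 2 * A + κ * x.re) t := by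
      refine db.congr_deriv ?_
      rw [hA, hk1e]
      simp
      ring
    have hYm2 := normsq_deriv hYmd
    have hWd : HasDerivAt (fun s => W2 (c s) (D s))
        (2 * ((Ym (D t)).re * (-((1 / Real.sqrt 2 : ℝ) : ℂ) * Ym (D t) + rY).re +
          (Ym (D t)).im * (-((1 / Real.sqrt 2 : ℝ) : ℂ) * Ym (D t) + rY).im) +
          2 * A * (ξ.re - 2 * κ * ξ.re + 3 * κ * x.im - 2 * ρ.im) + 2 * ξ.re * (-A - κ * ξ.im + ρ.re) +
          8 * k1 * (κ * ξ.re - 2 * κ * x.im + ρ.im) + x.im * (-3 * k1 - 2 * A + κ * x.re) / 50) t := by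
      have h1 := (((hYm2.add (dA.pow 2)).add (dα'.pow 2)).add ((dc.pow 2).const_mul 4)).add ((db'.pow 2).div_const 100)
      refine h1.congr_deriv ?_
      simp only [Nat.cast_ofNat, Nat.add_one_sub_one, pow_one]
      rw [hA, hk1]
      ring
    refine ⟨_, hWd, ?_⟩
    show _ ≤ 2 / 5 * W2 (c t) (D t) + (10 ^ 6 * (ε + η) * (U + W) + 10 * δ) * W
    -- bounds
    set ym : ℝ := ‖Ym (D t)‖ with hym
    have hYin := inner_le (Ym (D t)) rY
    have hymsq : ym ^ 2 = (Ym (D t)).re ^ 2 + (Ym (D t)).im ^ 2 := by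
      rw [hym, ← Complex.normSq_eq_norm_sq, Complex.normSq_apply]; ring
    have hWexp : W ^ 2 = ym ^ 2 + A ^ 2 + ξ.re ^ 2 + 4 * k1 ^ 2 + x.im ^ 2 / 100 := by
      rw [hWW, W2]
    have hρsq : ρ.re ^ 2 + ρ.im ^ 2 ≤ R ^ 2 := by
      have : ‖ρ‖ ^ 2 = ρ.re ^ 2 + ρ.im ^ 2 := by
        rw [← Complex.normSq_eq_norm_sq, Complex.normSq_apply]; ring
      rw [← this]
      gcongr
    -- the perturbation
    have hP : ym * R + A * (-2 * ρ.im) + ξ.re * ρ.re + (2 * k1) * (2 * ρ.im) ≤ W * (3 * R) := by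
      have h1 := cs4 (a1 := ym) (a2 := A) (a3 := ξ.re) (a4 := 2 * k1) (b1 := R) (b2 := -2 * ρ.im) (b3 := ρ.re)
        (b4 := 2 * ρ.im) (S := W ^ 2) (T := 3 * R) (by positivity) (by rw [hWexp]; linarith [sq_nonneg x.im])
        (by linarith [sq_nonneg ρ.re, hρsq])
      rwa [Real.sqrt_sq hW0] at h1
    have hYr : (Ym (D t)).re * rY.re + (Ym (D t)).im * rY.im ≤ ym * R := by
      refine (le_abs_self _).trans (hYin.trans ?_)
      gcongr
    -- bounds of products with κ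
    have hβ : ξ.im = -3 * k1 - 2 * A := by rw [hA, hk1e]; ring
    have hxa : x.re = A + 2 * k1 := by rw [hA]; ring
    have prod : ∀ (p q P Q : ℝ), |p| ≤ P → |q| ≤ Q → κ * (p * q) ≤ ε * (P * Q) := by
      intro p q P Q hp hq
      have h1 : |κ * (p * q)| ≤ ε * (P * Q) := by
        rw [abs_mul, abs_mul]
        have hP0 : 0 ≤ P := (abs_nonneg _).trans hp
        gcongr
      exact (le_abs_self _).trans h1
    have hAW : |A| ≤ W := w2
    have hk : |k1| ≤ W := by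
      rw [abs_mul, abs_of_pos (by norm_num : (0:ℝ) < 2)] at w4
      linarith [abs_nonneg k1]
    have hnA : |-A| ≤ W := by rwa [abs_neg]
    have hnα : |-ξ.re| ≤ W := by rwa [abs_neg]
    have hnk : |-k1| ≤ W := by rwa [abs_neg]
    have hβb : |ξ.im| ≤ 5 * W := by
      rw [hβ, abs_le]
      obtain ⟨g1, g2⟩ := abs_le.1 hAW
      obtain ⟨g3, g4⟩ := abs_le.1 hk
      constructor <;> linarith
    have hab : |x.re| ≤ 3 * W := by
      rw [hxa, abs_le]
      obtain ⟨g1, g2⟩ := abs_le.1 hAW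
      obtain ⟨g3, g4⟩ := abs_le.1 hk
      constructor <;> linarith
    have t1 := prod (-A) ξ.re W W hnA w3
    have t2 := prod A x.im W (10 * W) hAW w5
    have t3 := prod (-ξ.re) ξ.im W (5 * W) hnα hβb
    have t4 := prod k1 ξ.re W W hk w3
    have t5 := prod (-k1) x.im W (10 * W) hnk w5
    have t6 := prod x.im x.re (10 * W) (3 * W) w5 hab
    -- the main term
    have main : x.im * (-3 * k1 - 2 * A) / 50 ≤ 7 / 20 * W ^ 2 := by
      rw [hWexp]
      have g1 := sq_nonneg (x.im / 10 + 2 * k1)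
      have g2 := sq_nonneg (x.im / 10 + A)
      have g3 := sq_nonneg ym
      have g4 := sq_nonneg ξ.re
      have g5 := sq_nonneg A
      have g6 := sq_nonneg k1
      linarith only [g1, g2, g3, g4, g5, g6]
    have hsneg : 0 ≤ Real.sqrt 2 * ym ^ 2 := by positivity
    have hYe : 2 * ((Ym (D t)).re * (-((1 / Real.sqrt 2 : ℝ) : ℂ) * Ym (D t) + rY).re +
          (Ym (D t)).im * (-((1 / Real.sqrt 2 : ℝ) : ℂ) * Ym (D t) + rY).im) =
          -(Real.sqrt 2 * ym ^ 2) + 2 * ((Ym (D t)).re * rY.re + (Ym (D t)).im * rY.im) := by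
      have e1 : (-((1 / Real.sqrt 2 : ℝ) : ℂ) * Ym (D t) + rY).re = -(1 / Real.sqrt 2) * (Ym (D t)).re + rY.re := by
        rw [Complex.add_re, neg_mul, Complex.neg_re, Complex.re_ofReal_mul, neg_mul]
      have e2 : (-((1 / Real.sqrt 2 : ℝ) : ℂ) * Ym (D t) + rY).im = -(1 / Real.sqrt 2) * (Ym (D t)).im + rY.im := by
        rw [Complex.add_im, neg_mul, Complex.neg_im, Complex.im_ofReal_mul, neg_mul]
      rw [e1, e2, hymsq]
      linear_combination (-((Ym (D t)).re ^ 2 + (Ym (D t)).im ^ 2)) * hsq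
    rw [hYe, ← hWW]
    have fin : W * (3 * R) * 2 + 500 * ε * W ^ 2 + 7 / 20 * W ^ 2 ≤
        2 / 5 * W ^ 2 + (10 ^ 6 * (ε + η) * (U + W) + 10 * δ) * W := by
      have h3 : 6 * R + 500 * ε * W ≤ 10 ^ 6 * (ε + η) * (U + W) + 10 * δ := by
        rw [hR]
        have g1 : 0 ≤ (ε + η) * (U + W) := by positivity
        have g2 : ε * W ≤ (ε + η) * (U + W) := by gcongr <;> linarith
        linarith only [g1, g2, hδ0]
      have h4 : (6 * R + 500 * ε * W) * W ≤ (10 ^ 6 * (ε + η) * (U + W) + 10 * δ) * W :=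
        mul_le_mul_of_nonneg_right h3 hW0
      have h5 := sq_nonneg W
      linarith only [h4, h5]
    refine le_trans ?_ fin
    have h6 : 0 ≤ ε * W ^ 2 := by positivity
    linarith only [t1, t2, t3, t4, t5, t6, main, hP, hYr, hsneg, h6]

theorem ineq : ∀ (m : Fin 3 → ℝ) (η ε δ : ℝ), Near3 m η → 0 ≤ η → η ≤ 1 / 100 → 0 ≤ ε → ε ≤ 1 / 100 →
    0 ≤ δ → ∀ (y φ : ℝ → E × E) (c : ℝ → ℂ) (t θ : ℝ) (a : E), ‖c t‖ = 1 → HasDerivAt c (I * θ * c t) t →
      |θ - 1| ≤ ε → HasDerivAt y ((y t).2, rf kep (m 0) (m 1) (m 2) (y t).1) t → HasDerivAt φ ((φ t).2, a) t →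
      ‖a - rf kep (m 0) (m 1) (m 2) (φ t).1‖ ≤ δ → ‖y t - rot (c t) (start 0)‖ ≤ ε →
      ‖φ t - rot (c t) (start 0)‖ ≤ ε →
      (∃ u' : ℝ, HasDerivAt (fun s => UU (y s - φ s) ^ 2) u' t ∧
        Real.sqrt 2 * UU (y t - φ t) ^ 2 - (10 ^ 6 * (ε + η) * (UU (y t - φ t) + Real.sqrt (W2 (c t) (y t - φ t))) +
          10 * δ) * UU (y t - φ t) ≤ u' ∧
        u' ≤ Real.sqrt 2 * UU (y t - φ t) ^ 2 + (10 ^ 6 * (ε + η) * (UU (y t - φ t) +
          Real.sqrt (W2 (c t) (y t - φ t))) + 10 * δ) * UU (y t - φ t)) ∧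
      ∃ w' : ℝ, HasDerivAt (fun s => W2 (c s) (y s - φ s)) w' t ∧
        w' ≤ 2 / 5 * W2 (c t) (y t - φ t) + (10 ^ 6 * (ε + η) * (UU (y t - φ t) +
          Real.sqrt (W2 (c t) (y t - φ t))) + 10 * δ) * Real.sqrt (W2 (c t) (y t - φ t)) :=
  ineq_of accdiff

end Pool.Agent.H3.LP
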