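import Pool.Agent.H3.LP.ExitD
import Pool.Agent.H3.LP.Ineq

/-! LP-EXIT (project 3LP, MP_6e7c44_mp). -/

set_option autoImplicit false

open Complex Filter Topology Pool.Agent.H3.LG
open Pool.Agent.H99.TB hiding Ph acc phaseSpace IsSol
open Pool.Agent.H3.TB (Ph acc phaseSpace IsSol IsForwardSol IsRelPeriodic)

namespace Pool.Agent.H3.LP

theorem exit : ∃ C ρ₀ : ℝ, 0 < C ∧ 0 < ρ₀ ∧ ∀ ρ : ℝ, 0 < ρ → ρ ≤ ρ₀ → ∃ ε : ℝ, 0 < ε ∧ ∀ m : Fin 3 → ℝ, Near3 m ε →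
    ∀ φ : ℝ → E × E, Sol m φ → (∀ t, 0 ≤ t → ∃ c : ℂ, ‖c‖ = 1 ∧ ‖φ t - rot c (start 0)‖ ≤ ε) →
    ∀ g : ℂ, ‖g‖ = ρ → ∀ δ : ℝ, 0 < δ → ∃ y₀ : E × E, ‖y₀ - φ 0‖ ≤ δ ∧ ∀ y : ℝ → E × E, Sol m y → y 0 = y₀ →
      ∃ T : ℝ, 0 ≤ T ∧ (∀ t ∈ Set.Icc 0 T, ∃ c : ℂ, ‖c‖ = 1 ∧ ‖y t - rot c (start 0)‖ ≤ 1 / 100) ∧
        ∃ c : ℂ, ‖c‖ = 1 ∧ ‖y T - rot c (start g)‖ ≤ C * ρ ^ 2 :=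
  Ex.exit_of (fun m η ε δ hm h1 h2 h3 h4 h5 y φ c t θ a h6 h7 h8 h9 h10 h11 h12 h13 =>
    ineq m η ε δ hm h1 h2 h3 h4 h5 y φ c t θ a h6 h7 h8 h9 h10 h11 h12 h13)

end Pool.Agent.H3.LP
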