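import Pool.Agent.H3.LP.Defs

/-! LP-EQV: Fourier components, equivalence of norms. -/

set_option autoImplicit false

open Complex Pool.Agent.H3.LG
open Pool.Agent.H99.TB hiding Ph acc phaseSpace IsSol

namespace Pool.Agent.H3.LP

namespace Eqv

theorem s3 : Real.sqrt 3 * Real.sqrt 3 = 3 := Real.mul_self_sqrt (by norm_num)

theorem s2 : Real.sqrt 2 * Real.sqrt 2 = 2 := Real.mul_self_sqrt (by norm_num)

theorem z_add : zeta + (starRingEnd ℂ) zeta = -1 := by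
  apply Complex.ext <;> simp [zeta]
  norm_num

theorem z_mul : zeta * (starRingEnd ℂ) zeta = 1 := by
  apply Complex.ext <;> simp [zeta]
  · have := s3; nlinarith
  · ring

theorem z_norm : ‖zeta‖ = 1 := by
  have h : ‖zeta‖ ^ 2 = 1 := by
    rw [← Complex.normSq_eq_norm_sq, Complex.normSq_apply]
    simp only [zeta]
    have := s3; nlinarith
  nlinarith [norm_nonneg zeta]

theorem z_sq : zeta ^ 2 = (starRingEnd ℂ) zeta := by
  have h1 := z_add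
  have h2 := z_mul
  linear_combination zeta * h1 - h2 - h1

theorem z_norm' : ‖(starRingEnd ℂ) zeta‖ = 1 := by rw [RCLike.norm_conj, z_norm]

theorem inv1 (x : E) : x.1 = fX x + fY x := by
  rw [fX, fY]
  linear_combination (-(1 / 3) * x.2 + 1 / 3 * (x.1 + x.2)) * z_add

theorem inv2 (x : E) : x.2 = zeta * fX x + (starRingEnd ℂ) zeta * fY x := by
  have h1 := z_add
  have h2 := z_mul
  have h3 := z_sq
  have h4 : (starRingEnd ℂ) zeta ^ 2 = zeta := by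
    have := congrArg (starRingEnd ℂ) h3
    rw [map_pow, Complex.conj_conj] at this
    exact this
  rw [fX, fY]
  linear_combination (-(1 / 3) * x.1 + 1 / 3 * (x.1 + x.2)) * h1 + (-(2 / 3) * x.2) * h2 +
    (1 / 3 * (x.1 + x.2)) * h3 + (1 / 3 * (x.1 + x.2)) * h4

theorem fX_sub (x y : E) : fX (x - y) = fX x - fX y := by
  simp only [fX, Prod.fst_sub, Prod.snd_sub]; ring

theorem fY_sub (x y : E) : fY (x - y) = fY x - fY y := by
  simp only [fY, Prod.fst_sub, Prod.snd_sub]; ring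

theorem norm3 (a b c : ℂ) : ‖(a + b - c) / 3‖ ≤ (‖a‖ + ‖b‖ + ‖c‖) / 3 := by
  rw [norm_div]
  have h : ‖(3 : ℂ)‖ = 3 := by norm_num
  rw [h]
  have h1 := norm_sub_le (a + b) c
  have h2 := norm_add_le a b
  linarith

theorem fX_le (x : E) : ‖fX x‖ ≤ 4 / 3 * ‖x‖ := by
  have h1 : ‖x.1‖ ≤ ‖x‖ := norm_fst_le x
  have h2 : ‖x.2‖ ≤ ‖x‖ := norm_snd_le x
  have h3 : ‖x.1 + x.2‖ ≤ 2 * ‖x‖ := (norm_add_le _ _).trans (by linarith)
  rw [fX]
  refine (norm3 _ _ _).trans ?_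
  rw [norm_mul, norm_mul, z_norm', z_norm]
  linarith

theorem fY_le (x : E) : ‖fY x‖ ≤ 4 / 3 * ‖x‖ := by
  have h1 : ‖x.1‖ ≤ ‖x‖ := norm_fst_le x
  have h2 : ‖x.2‖ ≤ ‖x‖ := norm_snd_le x
  have h3 : ‖x.1 + x.2‖ ≤ 2 * ‖x‖ := (norm_add_le _ _).trans (by linarith)
  rw [fY]
  refine (norm3 _ _ _).trans ?_
  rw [norm_mul, norm_mul, z_norm', z_norm]
  linarith

theorem le_XY (x : E) : ‖x‖ ≤ ‖fX x‖ + ‖fY x‖ := by
  rw [Prod.norm_def]
  refine max_le ?_ ?_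
  · conv_lhs => rw [inv1 x]
    exact norm_add_le _ _
  · conv_lhs => rw [inv2 x]
    refine (norm_add_le _ _).trans ?_
    rw [norm_mul, norm_mul, z_norm', z_norm, one_mul, one_mul]

theorem sq2_pos : 0 < Real.sqrt 2 := Real.sqrt_pos.2 (by norm_num)

theorem sq2_ge : 7 / 5 ≤ Real.sqrt 2 := Real.le_sqrt_of_sq_le (by norm_num)

theorem sq2_le : Real.sqrt 2 ≤ 3 / 2 := Real.sqrt_le_iff.2 ⟨by norm_num, by norm_num⟩

theorem norm_sq2 : ‖((Real.sqrt 2 : ℝ) : ℂ)‖ = Real.sqrt 2 := by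
  rw [Complex.norm_real, Real.norm_of_nonneg sq2_pos.le]

theorem W2_nonneg (c : ℂ) (z : E × E) : 0 ≤ W2 c z := by
  rw [W2]; positivity

/-- the pieces of `W` -/
theorem W_parts (c : ℂ) (z : E × E) : ‖Ym z‖ ≤ Real.sqrt (W2 c z) ∧
    |(xx c z).re - 2 * c1 c z| ≤ Real.sqrt (W2 c z) ∧ |(xi c z).re| ≤ Real.sqrt (W2 c z) ∧
    |2 * c1 c z| ≤ Real.sqrt (W2 c z) ∧ |(xx c z).im| ≤ 10 * Real.sqrt (W2 c z) := by
  have h : ∀ a : ℝ, a ^ 2 ≤ W2 c z → |a| ≤ Real.sqrt (W2 c z) := fun a ha => Real.abs_le_sqrt ha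
  have p1 := sq_nonneg ‖Ym z‖
  have p2 := sq_nonneg ((xx c z).re - 2 * c1 c z)
  have p3 := sq_nonneg (xi c z).re
  have p4 := sq_nonneg (c1 c z)
  have p5 := sq_nonneg (xx c z).im
  refine ⟨?_, ?_, ?_, ?_, ?_⟩
  · rw [← abs_of_nonneg (norm_nonneg (Ym z))]
    apply h; rw [W2]; linarith
  · apply h; rw [W2]; linarith
  · apply h; rw [W2]; linarith
  · apply h; rw [W2]; nlinarith
  · have h1 : |(xx c z).im / 10| ≤ Real.sqrt (W2 c z) := by
      apply h; rw [W2]; nlinarith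
    rw [abs_div, abs_of_pos (by norm_num : (0:ℝ) < 10), div_le_iff₀ (by norm_num)] at h1
    linarith

theorem xx_le (c : ℂ) (z : E × E) : ‖xx c z‖ ≤ 12 * Real.sqrt (W2 c z) := by
  obtain ⟨-, h2, -, h4, h5⟩ := W_parts c z
  refine (Complex.norm_le_abs_re_add_abs_im _).trans ?_
  have : |(xx c z).re| ≤ |(xx c z).re - 2 * c1 c z| + |2 * c1 c z| := by
    have := abs_add_le ((xx c z).re - 2 * c1 c z) (2 * c1 c z)
    rwa [sub_add_cancel] at this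
  linarith

theorem xi_le (c : ℂ) (z : E × E) : ‖xi c z‖ ≤ 6 * Real.sqrt (W2 c z) := by
  obtain ⟨-, h2, h3, h4, -⟩ := W_parts c z
  refine (Complex.norm_le_abs_re_add_abs_im _).trans ?_
  have e : (xi c z).im = c1 c z - 2 * (xx c z).re := by rw [c1]; ring
  rw [abs_le] at h2 h4
  have : |(xi c z).im| ≤ 5 * Real.sqrt (W2 c z) := by
    rw [e, abs_le]; constructor <;> linarith
  linarith

end Eqv

open Eqv

theorem le_UW {c : ℂ} (hc : ‖c‖ = 1) (z : E × E) : ‖z‖ ≤ 20 * (UU z + Real.sqrt (W2 c z)) := by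
  set W := Real.sqrt (W2 c z) with hW
  have hW0 : 0 ≤ W := Real.sqrt_nonneg _
  have hU0 : 0 ≤ UU z := norm_nonneg _
  obtain ⟨h1, h2, h3, h4, h5⟩ := W_parts c z
  have hx := xx_le c z
  have hξ := xi_le c z
  rw [← hW] at h1 h2 h3 h4 h5 hx hξ
  have hcc : ‖(starRingEnd ℂ) c‖ = 1 := by rw [RCLike.norm_conj, hc]
  have hX : ‖fX z.1‖ ≤ 12 * W := by
    have : ‖xx c z‖ = ‖fX z.1‖ := by rw [xx, norm_mul, hcc, one_mul]
    rw [← this]; exact hx
  have hX' : ‖fX z.2‖ ≤ 18 * W := by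
    have e : (starRingEnd ℂ) c * fX z.2 = xi c z + I * xx c z := by rw [xi, xx]; ring
    have : ‖fX z.2‖ = ‖xi c z + I * xx c z‖ := by rw [← e, norm_mul, hcc, one_mul]
    rw [this]
    refine (norm_add_le _ _).trans ?_
    rw [norm_mul, Complex.norm_I, one_mul]
    linarith
  have hs := norm_sq2
  have hY : ‖fY z.1‖ ≤ UU z + W := by
    have e : fY z.1 = (Yp z - Ym z) * ((Real.sqrt 2 : ℝ) : ℂ) / 2 := by
      have hne : ((Real.sqrt 2 : ℝ) : ℂ) ≠ 0 := by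
        rw [Ne, Complex.ofReal_eq_zero]; exact sq2_pos.ne'
      rw [Yp, Ym]
      field_simp
      ring
    rw [e, norm_div, norm_mul, hs]
    have h6 := norm_sub_le (Yp z) (Ym z)
    have h7 : ‖(2 : ℂ)‖ = 2 := by norm_num
    rw [h7]
    have h8 : ‖Yp z - Ym z‖ ≤ UU z + W := h6.trans (by rw [UU]; linarith)
    have h9 := sq2_le
    have h10 : ‖Yp z - Ym z‖ * Real.sqrt 2 ≤ (UU z + W) * (3 / 2) := by gcongr
    linarith
  have hY' : ‖fY z.2‖ ≤ UU z + W := by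
    have e : fY z.2 = (Yp z + Ym z) / 2 := by rw [Yp, Ym]; ring
    rw [e, norm_div]
    have h6 := norm_add_le (Yp z) (Ym z)
    have h7 : ‖(2 : ℂ)‖ = 2 := by norm_num
    rw [h7]
    have h8 : ‖Yp z + Ym z‖ ≤ UU z + W := h6.trans (by rw [UU]; linarith)
    linarith
  rw [Prod.norm_def]
  refine max_le ?_ ?_
  · have := le_XY z.1
    linarith
  · have := le_XY z.2
    linarith

theorem UU_le (z : E × E) : UU z ≤ 3 * ‖z‖ := by
  have h1 : ‖z.1‖ ≤ ‖z‖ := norm_fst_le z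
  have h2 : ‖z.2‖ ≤ ‖z‖ := norm_snd_le z
  have h3 := fY_le z.1
  have h4 := fY_le z.2
  rw [UU, Yp]
  refine (norm_add_le _ _).trans ?_
  rw [norm_div, norm_sq2]
  have h5 : ‖fY z.1‖ / Real.sqrt 2 ≤ ‖fY z.1‖ := div_le_self (norm_nonneg _) (by linarith [sq2_ge])
  linarith [norm_nonneg z]

theorem W_le {c : ℂ} (hc : ‖c‖ = 1) (z : E × E) : Real.sqrt (W2 c z) ≤ 20 * ‖z‖ := by
  have h1 : ‖z.1‖ ≤ ‖z‖ := norm_fst_le z
  have h2 : ‖z.2‖ ≤ ‖z‖ := norm_snd_le z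
  have h3 := fY_le z.1
  have h4 := fY_le z.2
  have h5 := fX_le z.1
  have h6 := fX_le z.2
  have hcc : ‖(starRingEnd ℂ) c‖ = 1 := by rw [RCLike.norm_conj, hc]
  set N := ‖z‖ with hN
  have hN0 : 0 ≤ N := norm_nonneg _
  have hx : ‖xx c z‖ ≤ 4 / 3 * N := by
    rw [xx, norm_mul, hcc, one_mul]; linarith
  have hξ : ‖xi c z‖ ≤ 8 / 3 * N := by
    rw [xi]
    refine (norm_sub_le _ _).trans ?_
    rw [norm_mul, norm_mul, norm_mul, hcc, Complex.norm_I, one_mul, one_mul, one_mul]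
    linarith
  have hYm : ‖Ym z‖ ≤ 8 / 3 * N := by
    rw [Ym]
    refine (norm_sub_le _ _).trans ?_
    rw [norm_div, norm_sq2]
    have h5 : ‖fY z.1‖ / Real.sqrt 2 ≤ ‖fY z.1‖ := div_le_self (norm_nonneg _) (by linarith [sq2_ge])
    linarith
  have x1 := abs_le.1 ((Complex.abs_re_le_norm (xx c z)).trans hx)
  have x2 := abs_le.1 ((Complex.abs_im_le_norm (xx c z)).trans hx)
  have x3 := abs_le.1 ((Complex.abs_re_le_norm (xi c z)).trans hξ)
  have x4 := abs_le.1 ((Complex.abs_im_le_norm (xi c z)).trans hξ)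
  have hc1 : |c1 c z| ≤ 16 / 3 * N := by
    rw [c1, abs_le]; constructor <;> linarith [x1.1, x1.2, x4.1, x4.2]
  have hA : |(xx c z).re - 2 * c1 c z| ≤ 12 * N := by
    have := abs_le.1 hc1
    rw [abs_le]; constructor <;> linarith [x1.1, x1.2]
  refine Real.sqrt_le_iff.2 ⟨by positivity, ?_⟩
  have q1 : ‖Ym z‖ ^ 2 ≤ (8 / 3 * N) ^ 2 := by gcongr
  have q2 : ((xx c z).re - 2 * c1 c z) ^ 2 ≤ (12 * N) ^ 2 := sq_le_sq' (abs_le.1 hA).1 (abs_le.1 hA).2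
  have q3 : (xi c z).re ^ 2 ≤ (8 / 3 * N) ^ 2 := sq_le_sq' x3.1 x3.2
  have q4 : (c1 c z) ^ 2 ≤ (16 / 3 * N) ^ 2 := sq_le_sq' (abs_le.1 hc1).1 (abs_le.1 hc1).2
  have q5 : (xx c z).im ^ 2 ≤ (4 / 3 * N) ^ 2 := sq_le_sq' x2.1 x2.2
  rw [W2]
  nlinarith [sq_nonneg N]

end Pool.Agent.H3.LP
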