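import Pool.Agent.H3.LP.GrowB
import Pool.Agent.H3.LP.Ineq
import Pool.Agent.H3.LP.Eqv

/-! LP-GROW (helper39): from `|g| = ρ` to the given `g`, in the adapted norm. -/

set_option autoImplicit false

open Complex Set Pool.Agent.H3.LG
open Pool.Agent.H99.TB hiding Ph acc phaseSpace IsSol

namespace Pool.Agent.H3.LP

theorem grow : ∀ (g : ℂ) (C : ℝ), g ≠ 0 → ‖g‖ ≤ 1 / 10 ^ 20 → 0 < C → ∃ ρ₁ : ℝ, 0 < ρ₁ ∧ ∀ ρ : ℝ, 0 < ρ → ρ ≤ ρ₁ →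
    ∃ η : ℝ, 0 < η ∧ ∃ g₁ : ℂ, ‖g₁‖ = ρ ∧ ∀ m : Fin 3 → ℝ, Near3 m η → ∀ y : ℝ → E × E, Sol m y →
      ‖y 0 - start g₁‖ ≤ C * ρ ^ 2 → ∃ T : ℝ, 0 ≤ T ∧
        (∀ t ∈ Set.Icc 0 T, ∃ c : ℂ, ‖c‖ = 1 ∧ ‖y t - rot c (start 0)‖ ≤ 1 / 100) ∧
        ∃ c : ℂ, ‖c‖ = 1 ∧ nn ((y T).1 - (rot c (start g)).1) ≤ 10 ^ 5 * ‖g‖ ^ 3 ∧
          nn ((y T).2 - (rot c (start g)).2) ≤ 10 ^ 5 * ‖g‖ ^ 3 :=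
  grow_of ineq le_UW UU_le W_le

end Pool.Agent.H3.LP
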