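import Pool.Agent.H3.LG.Re

/-! LP-HOM (helper39): homographic (elliptic) motions are solutions. -/

set_option autoImplicit false

open Complex Filter Topology Pool.Agent.H3.LG
open Pool.Agent.H3.TB (Ph acc phaseSpace IsSol IsForwardSol IsRelPeriodic)

namespace Pool.Agent.H3.LP

namespace HomL

lemma acc_scaled {m : Fin 3 → ℝ} {r : Fin 3 → ℂ} (hr : Equilateral r)
    (hc : ∑ a, (m a : ℂ) * r a = 0) {c : ℂ} (h1 : c ≠ 0) (a : Fin 3) :
    acc m (fun i => c * r i) a =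
      -(((m 0 + m 1 + m 2) / ‖r 1 - r 0‖ ^ 3 / ‖c‖ ^ 3 : ℝ) : ℂ) * (c * r a) := by
  have hρ : ‖r 1 - r 0‖ ≠ 0 := norm_ne_zero_iff.2 (sub_ne_zero.2 hr.1)
  have hcn : ‖c‖ ≠ 0 := norm_ne_zero_iff.2 h1
  unfold acc
  have e1 : ∀ b ∈ Finset.univ.erase a, ((m b / ‖c * r b - c * r a‖ ^ 3 : ℝ) : ℂ) *
      (c * r b - c * r a) =
      ((1 / ‖r 1 - r 0‖ ^ 3 / ‖c‖ ^ 3 : ℝ) : ℂ) * ((m b : ℂ) * (c * r b - c * r a)) := by
    intro b hb
    have hb' : a ≠ b := (Finset.ne_of_mem_erase hb).symm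
    have e : m b / (‖c‖ * ‖r 1 - r 0‖) ^ 3 = 1 / ‖r 1 - r 0‖ ^ 3 / ‖c‖ ^ 3 * m b := by
      field_simp
    rw [← mul_sub, norm_mul, eqlat_dist hr hb', e]
    push_cast
    ring
  rw [Finset.sum_congr rfl e1, ← Finset.mul_sum, Finset.sum_erase _ (by simp)]
  rw [Fin.sum_univ_three] at hc ⊢
  have e2 : (m 0 : ℂ) * (c * r 0 - c * r a) + m 1 * (c * r 1 - c * r a) +
      m 2 * (c * r 2 - c * r a) = -((m 0 + m 1 + m 2 : ℝ) : ℂ) * (c * r a) := by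
    push_cast
    linear_combination c * hc
  rw [e2]
  push_cast
  ring

end HomL

open HomL in
theorem homographic {m : Fin 3 → ℝ} (_hm : ∀ a, 0 < m a) {r : Fin 3 → ℂ} (hr : Equilateral r)
    (hc : ∑ a, (m a : ℂ) * r a = 0) {z z' : ℝ → ℂ} (h0 : ∀ t, z t ≠ 0) (h1 : ∀ t, HasDerivAt z (z' t) t)
    (h2 : ∀ t, HasDerivAt z' (-(((m 0 + m 1 + m 2) / ‖r 1 - r 0‖ ^ 3 / ‖z t‖ ^ 3 : ℝ) : ℂ) * z t) t) :
    IsSol m (fun t => (fun a => z t * r a, fun a => z' t * r a)) := by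
  have hρ : 0 < ‖r 1 - r 0‖ := norm_pos_iff.2 (sub_ne_zero.2 hr.1)
  refine fun t => ⟨⟨?_, ?_, ?_⟩, ?_⟩
  · intro a b hab h
    have h1 : z t * r a = z t * r b := h
    have h2 : r a = r b := mul_left_cancel₀ (h0 t) h1
    have h3 := eqlat_dist hr hab
    rw [h2, sub_self, norm_zero] at h3
    exact hρ.ne h3
  · exact sum_rigid hc _
  · exact sum_rigid hc _
  · have e : acc m (fun a => z t * r a) =
        fun i => -(((m 0 + m 1 + m 2) / ‖r 1 - r 0‖ ^ 3 / ‖z t‖ ^ 3 : ℝ) : ℂ) * z t * r i := by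
      funext i
      rw [acc_scaled hr hc (h0 t) i]
      ring
    show HasDerivAt _ ((fun a => z' t * r a), acc m (fun a => z t * r a)) t
    rw [e]
    refine HasDerivAt.prodMk ?_ ?_
    · rw [hasDerivAt_pi]
      intro i
      exact (h1 t).mul_const (r i)
    · rw [hasDerivAt_pi]
      intro i
      exact (h2 t).mul_const (r i)

end Pool.Agent.H3.LP
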