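import Pool.Agent.H3.LP.Fin
import Pool.Agent.H3.LP.Exit
import Pool.Agent.H3.LP.Grow
import Pool.Agent.H3.LP.Hom
import Pool.Agent.H60.TB.WuF
import Pool.Agent.H99.LG.TR

/-! Final theorem of project 3LP. -/

set_option autoImplicit false

open Complex Filter Topology Pool.Agent.H3.LG
open Pool.Agent.H99.TB hiding Ph acc phaseSpace IsSol
open Pool.Agent.H3.TB (Ph acc phaseSpace IsSol IsForwardSol IsRelPeriodic)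

namespace Pool.Agent.H3.LP

/-- some initial condition in `U` gives an escape of the body `c` -/
def HasEscape (m : Fin 3 → ℝ) (c : Fin 3) (U : Set Ph) (L : ℝ) : Prop :=
  ∃ y : ℝ → Ph, y 0 ∈ U ∧ IsForwardSol m y ∧ ∀ R : ℝ, ∃ t₀ : ℝ, ∀ t, t₀ ≤ t →
    (∀ a, a ≠ c → R ≤ ‖(y t).1 c - (y t).1 a‖) ∧ ∀ a b, a ≠ c → b ≠ c → ‖(y t).1 b - (y t).1 a‖ ≤ L

theorem others : ∀ c : Fin 3, ∃ a b : Fin 3, a ≠ b ∧ b ≠ c ∧ a ≠ c ∧ ∀ d, d ≠ c → d = a ∨ d = b := by decide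

/-- The homographic motion with positions `z(t) r_a` and velocities `z'(t) r_a`. -/
def homog (r : Fin 3 → ℂ) (z z' : ℝ → ℂ) (t : ℝ) : Ph :=
  (fun a => z t * r a, fun a => z' t * r a)

theorem final : ∃ η : ℝ, 0 < η ∧ ∀ m : Fin 3 → ℝ, (∀ i, 0 < m i) →
    (∀ i, |m i - (m 0 + m 1 + m 2) / 3| < η * (m 0 + m 1 + m 2)) →
    (∀ (x : ℝ → Ph) (ρ : ℝ), 0 < ρ → IsForwardSol m x →
      (∀ t, 0 ≤ t → ∀ a b : Fin 3, a ≠ b → |‖(x t).1 b - (x t).1 a‖ - ρ| ≤ η * ρ) →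
      ∀ c : Fin 3, ∀ U ∈ 𝓝 (x 0), HasEscape m c U (2 * ρ)) ∧
    ∀ r : Fin 3 → ℂ, Equilateral r → ∑ a, (m a : ℂ) * r a = 0 → ∀ e : ℝ, 0 ≤ e → e < 1 →
      ∃ z z' : ℝ → ℂ, IsSol m (homog r z z') ∧ IsRelPeriodic (homog r z z') ∧
        (∀ t, 1 - e ≤ ‖z t‖ ∧ ‖z t‖ ≤ 1 + e) ∧ (∃ t, ‖z t‖ = 1 - e) ∧ (∃ t, ‖z t‖ = 1 + e) ∧
        (e ≤ η → ∀ c : Fin 3, ∀ U ∈ 𝓝 (homog r z z' 0), HasEscape m c U (2 * ‖r 1 - r 0‖)) := by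
  obtain ⟨η, hη, h⟩ := fin1 exit grow Pool.Agent.H60.TB.wu' Pool.Agent.H99.LG.s_tr
  refine ⟨η, hη, fun m hm h' => ?_⟩
  have key : ∀ (x : ℝ → Ph) (ρ : ℝ), 0 < ρ → IsForwardSol m x →
      (∀ t, 0 ≤ t → ∀ a b : Fin 3, a ≠ b → |‖(x t).1 b - (x t).1 a‖ - ρ| ≤ η * ρ) →
      ∀ c : Fin 3, ∀ U ∈ 𝓝 (x 0), HasEscape m c U (2 * ρ) := by
    intro x ρ hρ hx hd c U hU
    obtain ⟨a, b, h1, h2, h3, h4⟩ := others c
    obtain ⟨y, y0, hy, he⟩ := h m hm h' x ρ hρ hx hd a b c h1 h2 h3 U hU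
    refine ⟨y, y0, hy, fun R => ?_⟩
    obtain ⟨t₀, ht⟩ := he R
    refine ⟨t₀, fun t ht0 => ?_⟩
    obtain ⟨e1, e2, e3⟩ := ht t ht0
    refine ⟨fun d hd => ?_, fun d d' hd hd' => ?_⟩
    · rcases h4 d hd with rfl | rfl
      · exact e1
      · exact e2
    · rcases h4 d hd with rfl | rfl <;> rcases h4 d' hd' with rfl | rfl
      · rw [sub_self, norm_zero]; linarith
      · exact e3
      · rw [norm_sub_rev]; exact e3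
      · rw [sub_self, norm_zero]; linarith
  refine ⟨key, fun r hr hc e h0 h1 => ?_⟩
  obtain ⟨z, z', hs, ⟨T, hT, hp⟩, hb, t1, t2⟩ := fin2
    (fun m hm r hr hc z z' h0 h1 h2 => homographic hm hr hc h0 h1 h2) hm hr hc h0 h1
  refine ⟨z, z', hs, ⟨T, hT, fun t a b => ?_⟩, hb, t1, t2, fun he c U hU => ?_⟩
  · show ‖z (t + T) * r a - z (t + T) * r b‖ = ‖z t * r a - z t * r b‖
    rw [hp]
  · have hρ : 0 < ‖r 1 - r 0‖ := norm_pos_iff.2 (sub_ne_zero.2 hr.1)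
    refine key (homog r z z') ‖r 1 - r 0‖ hρ ⟨1, one_pos, fun t _ => hs t⟩ (fun t _ a b hab => ?_) c U hU
    show |‖z t * r b - z t * r a‖ - ‖r 1 - r 0‖| ≤ η * ‖r 1 - r 0‖
    rw [← mul_sub, norm_mul, eqlat_dist hr hab]
    have e1 : ‖z t‖ * ‖r 1 - r 0‖ - ‖r 1 - r 0‖ = (‖z t‖ - 1) * ‖r 1 - r 0‖ := by ring
    rw [e1, abs_mul, abs_of_pos hρ]
    refine mul_le_mul_of_nonneg_right (abs_le.2 ⟨?_, ?_⟩) hρ.le
    · linarith [(hb t).1]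
    · linarith [(hb t).2]

end Pool.Agent.H3.LP
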