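import Pool.Agent.H3.LG.Goes
import Pool.Agent.H3.LG.Sym

/-! Definitions for project 3LP (MP_6e7c44_mp): unbounded solutions near EVERY relative periodic solution which stays
close to an equilateral relative equilibrium, nearly equal masses. -/

set_option autoImplicit false

open Complex Pool.Agent.H3.LG
open Pool.Agent.H99.TB hiding Ph acc phaseSpace IsSol
open Pool.Agent.H3.TB (Ph acc phaseSpace IsSol IsForwardSol IsRelPeriodic)

namespace Pool.Agent.H3.LP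

/-- Fourier components of a triple of sides: `x.1 = X + Y`, `x.2 = ζ X + ζ̄ Y` -/
noncomputable def fX (x : E) : ℂ := (x.1 + (starRingEnd ℂ) zeta * x.2 - zeta * (x.1 + x.2)) / 3
noncomputable def fY (x : E) : ℂ := (x.1 + zeta * x.2 - (starRingEnd ℂ) zeta * (x.1 + x.2)) / 3

/-- unstable and stable component (inertial frame): `Y' ± Y/√2` -/
noncomputable def Yp (z : E × E) : ℂ := fY z.2 + fY z.1 / (Real.sqrt 2 : ℝ)
noncomputable def Ym (z : E × E) : ℂ := fY z.2 - fY z.1 / (Real.sqrt 2 : ℝ)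

/-- homographic (Kepler) component and its velocity in the frame `c` -/
noncomputable def xx (c : ℂ) (z : E × E) : ℂ := (starRingEnd ℂ) c * fX z.1
noncomputable def xi (c : ℂ) (z : E × E) : ℂ := (starRingEnd ℂ) c * fX z.2 - I * ((starRingEnd ℂ) c * fX z.1)

/-- size of the unstable part -/
noncomputable def UU (z : E × E) : ℝ := ‖Yp z‖

/-- conserved quantity of the linearized Kepler problem -/
noncomputable def c1 (c : ℂ) (z : E × E) : ℝ := (xi c z).im + 2 * (xx c z).re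

/-- square of the size of the other components, in an adapted norm -/
noncomputable def W2 (c : ℂ) (z : E × E) : ℝ :=
  ‖Ym z‖ ^ 2 + ((xx c z).re - 2 * c1 c z) ^ 2 + (xi c z).re ^ 2 + 4 * c1 c z ^ 2 + (xx c z).im ^ 2 / 100

/-- relative positions and velocities -/
def rel (z : Ph) : E × E := ((z.1 1 - z.1 0, z.1 2 - z.1 1), (z.2 1 - z.2 0, z.2 2 - z.2 1))

/-- weak form of `Goes`: larger tolerance -/
def GoesW (g : ℂ) : Prop := ∃ η : ℝ, 0 < η ∧ ∀ m : Fin 3 → ℝ, Near3 m η → ∀ γ : ℝ → E × E, Sol m γ →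
  nn ((γ 0).1 - (start g).1) ≤ 10 ^ 5 * ‖g‖ ^ 3 → nn ((γ 0).2 - (start g).2) ≤ 10 ^ 5 * ‖g‖ ^ 3 →
  (∀ t, 0 ≤ t → 1 / 100 < ‖(γ t).1.1‖ ∧ 1 / 100 < ‖(γ t).1.2‖ ∧ 1 / 100 < ‖(γ t).1.1 + (γ t).1.2‖ ∧
    ‖(γ t).2.1‖ < 32 ∧ ‖(γ t).2.2‖ < 32) ∧
  ∃ T : ℝ, 0 ≤ T ∧ ∀ t, T ≤ t → (t - T) / 10 ≤ ‖(γ t).1.2‖ ∧ (t - T) / 10 ≤ ‖(γ t).1.1 + (γ t).1.2‖ ∧
    ‖(γ t).1.1‖ ≤ 2

end Pool.Agent.H3.LP
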