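import Pool.Agent.H3.LP.Defs

/-! The assertion of LP-BASE (copied from Stubs.lean). -/

set_option autoImplicit false

open Complex Filter Topology Pool.Agent.H3.LG
open Pool.Agent.H99.TB hiding Ph acc phaseSpace IsSol
open Pool.Agent.H3.TB (Ph acc phaseSpace IsSol IsForwardSol IsRelPeriodic)

namespace Pool.Agent.H3.LP

/-- the assertion of LP-BASE -/
def Base2 : Prop := ∃ ε : ℝ, 0 < ε ∧ ∀ m : Fin 3 → ℝ, Near3 m ε → (∀ a, 0 < m a) ∧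
  ∀ x : ℝ → Ph, (∀ t, 0 ≤ t → x t ∈ phaseSpace m ∧ HasDerivAt x ((x t).2, acc m (x t).1) t) →
    (∀ t, 0 ≤ t → ∃ c : ℂ, ‖c‖ = 1 ∧ ‖rel (x t) - rot c (start 0)‖ ≤ ε) →
    ∀ U ∈ 𝓝 (x 0), ∃ y : ℝ → Ph, y 0 ∈ U ∧ IsForwardSol m y ∧
      ∀ R : ℝ, ∃ t₀ : ℝ, ∀ t, t₀ ≤ t → R ≤ ‖(y t).1 2 - (y t).1 0‖ ∧ R ≤ ‖(y t).1 2 - (y t).1 1‖ ∧
        ‖(y t).1 1 - (y t).1 0‖ ≤ 2

end Pool.Agent.H3.LP
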