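import Pool.Agent.H3.LP.Defs

/-! LP-FLOW (helper63): the flow of the cut off relative three-body problem -/

set_option autoImplicit false

open Complex Filter Topology Pool.Agent.H3.LG
open Pool.Agent.H99.TB hiding Ph acc phaseSpace IsSol
open Pool.Agent.H3.TB (Ph acc phaseSpace IsSol IsForwardSol IsRelPeriodic)

namespace Pool.Agent.H3.LP

namespace Fl

/-- the cut off vector field is Lipschitz -/
theorem fld_lip {ε B m1 m2 m3 : ℝ} (hε : 0 < ε) (hB : 0 < B) (h1 : 0 ≤ m1) (h2 : 0 ≤ m2)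
    (h3 : 0 ≤ m3) : LipschitzWith (⟨2 + 20 * (m1 + m2 + m3) / ε ^ 3, by positivity⟩ : NNReal)
      (fld ε B m1 m2 m3) := by
  refine LipschitzWith.of_dist_le_mul fun z w => ?_
  rw [dist_eq_norm, dist_eq_norm]
  change _ ≤ (2 + 20 * (m1 + m2 + m3) / ε ^ 3) * ‖z - w‖
  have hn := norm_nonneg (z - w)
  have hz1 : ‖z.1 - w.1‖ ≤ ‖z - w‖ := norm_fst_le (z - w)
  have hz2 : ‖z.2 - w.2‖ ≤ ‖z - w‖ := norm_snd_le (z - w)
  rw [Prod.norm_def]
  have h4 : 0 ≤ 20 * (m1 + m2 + m3) / ε ^ 3 * ‖z - w‖ := by positivity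
  refine max_le ?_ ?_
  · rw [Prod.norm_def]
    refine max_le ?_ ?_
    · have h5 := cut_lip hB z.2.1 w.2.1
      have h6 : ‖z.2.1 - w.2.1‖ ≤ ‖z.2 - w.2‖ := norm_fst_le (z.2 - w.2)
      show ‖cut B z.2.1 - cut B w.2.1‖ ≤ _
      linarith
    · have h5 := cut_lip hB z.2.2 w.2.2
      have h6 : ‖z.2.2 - w.2.2‖ ≤ ‖z.2 - w.2‖ := norm_snd_le (z.2 - w.2)
      show ‖cut B z.2.2 - cut B w.2.2‖ ≤ _
      linarith
  · have h7 := rf_lip (k := Pool.Agent.H99.TB.ker ε) (a := 4 / ε ^ 3) (b := 4 / ε ^ 3)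
      (c := 4 / ε ^ 3) h1 h2 h3
      (x := z.1) (y := w.1) (ker_lip hε _ _) (ker_lip hε _ _) (ker_lip hε _ _) (by positivity)
      (by positivity) (by positivity) (L := 20 * (m1 + m2 + m3) / ε ^ 3) ?_ ?_
    · show ‖rf (Pool.Agent.H99.TB.ker ε) m1 m2 m3 z.1 - rf (Pool.Agent.H99.TB.ker ε) m1 m2 m3 w.1‖ ≤ _
      refine h7.trans ?_
      have : 20 * (m1 + m2 + m3) / ε ^ 3 * ‖z.1 - w.1‖ ≤ 20 * (m1 + m2 + m3) / ε ^ 3 * ‖z - w‖ := by
        gcongr
      nlinarith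
    · have e : (m1 + m2) * (4 / ε ^ 3) + m3 * (4 / ε ^ 3 + 2 * (4 / ε ^ 3)) = (4 * (m1 + m2) + 12 * m3) / ε ^ 3 := by
        ring
      rw [e]
      gcongr
      linarith
    · have e : (m2 + m3) * (4 / ε ^ 3) + m1 * (4 / ε ^ 3 + 2 * (4 / ε ^ 3)) = (4 * (m2 + m3) + 12 * m1) / ε ^ 3 := by
        ring
      rw [e]
      gcongr
      linarith

/-- there is a Lipschitz constant -/
theorem lip_ex {m : Fin 3 → ℝ} (hm : ∀ a, 0 ≤ m a) : ∃ K : NNReal,
    LipschitzWith K (fld (1 / 100) 32 (m 0) (m 1) (m 2)) :=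
  ⟨_, fld_lip (by norm_num) (by norm_num) (hm 0) (hm 1) (hm 2)⟩

theorem sol_cont {m : Fin 3 → ℝ} {γ : ℝ → E × E} (h : Sol m γ) : Continuous γ :=
  continuous_iff_continuousAt.2 fun t => (h t).continuousAt

/-- dependence on the initial value -/
theorem sol_dist {m : Fin 3 → ℝ} {K : NNReal}
    (hK : LipschitzWith K (fld (1 / 100) 32 (m 0) (m 1) (m 2))) {γ δ : ℝ → E × E}
    (h1 : Sol m γ) (h2 : Sol m δ) (t : ℝ) :
    dist (γ t) (δ t) ≤ dist (γ 0) (δ 0) * Real.exp (K * |t|) := by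
  rcases le_or_gt 0 t with ht | ht
  · have := dist_le_of_trajectories_ODE (v := fun _ => fld (1 / 100) 32 (m 0) (m 1) (m 2))
      (K := K) (f := γ) (g := δ) (a := 0) (b := t) (δ := dist (γ 0) (δ 0)) (fun _ => hK)
      (sol_cont h1).continuousOn (fun s _ => (h1 s).hasDerivWithinAt)
      (sol_cont h2).continuousOn (fun s _ => (h2 s).hasDerivWithinAt) le_rfl t ⟨ht, le_rfl⟩
    rw [sub_zero] at this
    rw [abs_of_nonneg ht]
    exact this
  · have hrev : ∀ {γ : ℝ → E × E}, Sol m γ → ∀ s, HasDerivAt (fun s => γ (-s))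
        (-(fld (1 / 100) 32 (m 0) (m 1) (m 2) (γ (-s)))) s := by
      intro γ h s
      have := (h (-s)).scomp s (hasDerivAt_neg s)
      rw [neg_one_smul] at this
      exact this
    have hK' : LipschitzWith K (fun z => -(fld (1 / 100) 32 (m 0) (m 1) (m 2) z)) := by
      refine LipschitzWith.of_dist_le_mul fun z w => ?_
      rw [dist_neg_neg]
      exact hK.dist_le_mul z w
    have := dist_le_of_trajectories_ODE (v := fun _ z => -(fld (1 / 100) 32 (m 0) (m 1) (m 2) z))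
      (K := K) (f := fun s => γ (-s)) (g := fun s => δ (-s)) (a := 0) (b := -t)
      (δ := dist (γ 0) (δ 0)) (fun _ => hK')
      ((sol_cont h1).comp continuous_neg).continuousOn (fun s _ => (hrev h1 s).hasDerivWithinAt)
      ((sol_cont h2).comp continuous_neg).continuousOn (fun s _ => (hrev h2 s).hasDerivWithinAt)
      (by simp) (-t) ⟨by linarith, le_rfl⟩
    simp only [neg_neg, sub_zero] at this
    rw [abs_of_neg ht]
    exact this

/-- uniqueness -/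
theorem sol_unique {m : Fin 3 → ℝ} (hm : ∀ a, 0 ≤ m a) {γ δ : ℝ → E × E}
    (h1 : Sol m γ) (h2 : Sol m δ) (h0 : γ 0 = δ 0) (t : ℝ) : γ t = δ t := by
  obtain ⟨K, hK⟩ := lip_ex hm
  have := sol_dist hK h1 h2 t
  rw [h0, dist_self, zero_mul] at this
  exact dist_le_zero.1 this

end Fl

open Fl

theorem flow {m : Fin 3 → ℝ} (hm : ∀ a, 0 ≤ m a) : ∃ Φ : (E × E) → ℝ → (E × E),
    (∀ z, Φ z 0 = z) ∧ (∀ z, Sol m (Φ z)) ∧ Continuous (fun p : (E × E) × ℝ => Φ p.1 p.2) ∧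
    ∀ (γ : ℝ → E × E), Sol m γ → ∀ t, γ t = Φ (γ 0) t := by
  obtain ⟨K, hK⟩ := lip_ex hm
  have hex := fun z : E × E => exists_glob (ε := 1 / 100) (B := 32) (m1 := m 0) (m2 := m 1)
    (m3 := m 2) (by norm_num) (by norm_num) (hm 0) (hm 1) (hm 2) z
  choose Φ h0 hΦ using hex
  have hS : ∀ z, Sol m (Φ z) := hΦ
  refine ⟨Φ, h0, hS, ?_, fun γ hγ t => sol_unique hm hγ (hS _) (h0 _).symm t⟩
  rw [continuous_iff_continuousAt]
  intro p
  rw [ContinuousAt, tendsto_iff_dist_tendsto_zero]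
  have hc : Continuous (fun q : (E × E) × ℝ => dist q.1 p.1 * Real.exp (K * |q.2|) +
      dist (Φ p.1 q.2) (Φ p.1 p.2)) := by
    have h1 : Continuous (Φ p.1) := sol_cont (hS p.1)
    fun_prop
  have ht : Tendsto (fun q : (E × E) × ℝ => dist q.1 p.1 * Real.exp (K * |q.2|) +
      dist (Φ p.1 q.2) (Φ p.1 p.2)) (𝓝 p) (𝓝 0) := by
    have := hc.tendsto p
    simpa using this
  refine squeeze_zero (fun _ => dist_nonneg) (fun q => ?_) ht
  refine (dist_triangle _ (Φ p.1 q.2) _).trans (add_le_add_left ?_ _)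
  have := sol_dist hK (hS q.1) (hS p.1) q.2
  rw [h0, h0] at this
  exact this

end Pool.Agent.H3.LP
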