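import Pool.Agent.H3.LG.Base
import Pool.Agent.H3.LP.Flow
import Pool.Agent.H3.LP.Base2Def

/-! LP-BASE (helper63): exit + growth + numerical part, in the normalized situation -/

set_option autoImplicit false

open Complex Filter Topology Pool.Agent.H3.LG
open Pool.Agent.H99.TB hiding Ph acc phaseSpace IsSol
open Pool.Agent.H3.TB (Ph acc phaseSpace IsSol IsForwardSol IsRelPeriodic)

namespace Pool.Agent.H3.LP

namespace Bs

/-- admissible states -/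
def Fine (z : E × E) : Prop :=
  1 / 100 < ‖z.1.1‖ ∧ 1 / 100 < ‖z.1.2‖ ∧ 1 / 100 < ‖z.1.1 + z.1.2‖ ∧ ‖z.2.1‖ < 32 ∧ ‖z.2.2‖ < 32

theorem rot_norms {c : ℂ} (hc : ‖c‖ = 1) (z : E × E) : ‖(rot c z).1.1‖ = ‖z.1.1‖ ∧
    ‖(rot c z).1.2‖ = ‖z.1.2‖ ∧ ‖(rot c z).1.1 + (rot c z).1.2‖ = ‖z.1.1 + z.1.2‖ ∧
    ‖(rot c z).2.1‖ = ‖z.2.1‖ ∧ ‖(rot c z).2.2‖ = ‖z.2.2‖ := by
  unfold rot
  simp only
  rw [← mul_add, norm_mul, norm_mul, norm_mul, norm_mul, norm_mul, hc]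
  simp

theorem fine_rot {c : ℂ} (hc : ‖c‖ = 1) {z : E × E} : Fine (rot c z) ↔ Fine z := by
  obtain ⟨e1, e2, e3, e4, e5⟩ := rot_norms hc z
  unfold Fine
  rw [e1, e2, e3, e4, e5]

theorem rot_nrm {c : ℂ} (hc : ‖c‖ = 1) (z : E × E) : ‖rot c z‖ = ‖z‖ := by
  simp only [rot, Prod.norm_def, norm_mul, hc, one_mul]

theorem rot_sb (c : ℂ) (z w : E × E) : rot c (z - w) = rot c z - rot c w := by
  simp only [rot, Prod.fst_sub, Prod.snd_sub, mul_sub]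
  rfl

theorem zeta_norm : ‖zeta‖ = 1 := by
  have h : ‖zeta‖ ^ 2 = 1 := by
    rw [← Complex.normSq_eq_norm_sq, Complex.normSq_apply, zeta]
    simp only
    have := Real.mul_self_sqrt (show (0 : ℝ) ≤ 3 by norm_num)
    nlinarith
  nlinarith [norm_nonneg zeta]

theorem one_zeta_norm : ‖1 + zeta‖ = 1 := by
  have h : ‖1 + zeta‖ ^ 2 = 1 := by
    rw [← Complex.normSq_eq_norm_sq, Complex.normSq_apply, zeta]
    simp only [add_re, add_im, one_re, one_im]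
    have := Real.mul_self_sqrt (show (0 : ℝ) ≤ 3 by norm_num)
    nlinarith
  nlinarith [norm_nonneg (1 + zeta)]

/-- states near the rotating triangle are admissible -/
theorem near_fine {z : E × E} {c : ℂ} (hc : ‖c‖ = 1) (h : ‖z - rot c (start 0)‖ ≤ 1 / 100) :
    Fine z := by
  have h1 : ‖(z - rot c (start 0)).1‖ ≤ 1 / 100 := (norm_fst_le _).trans h
  have h2 : ‖(z - rot c (start 0)).2‖ ≤ 1 / 100 := (norm_snd_le _).trans h
  have h11 : ‖z.1.1 - c‖ ≤ 1 / 100 := by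
    have := (norm_fst_le (z - rot c (start 0)).1).trans h1
    rw [start_zero] at this
    simpa [rot] using this
  have h12 : ‖z.1.2 - c * zeta‖ ≤ 1 / 100 := by
    have := (norm_snd_le (z - rot c (start 0)).1).trans h1
    rw [start_zero] at this
    simpa [rot] using this
  have h21 : ‖z.2.1 - c * I‖ ≤ 1 / 100 := by
    have := (norm_fst_le (z - rot c (start 0)).2).trans h2
    rw [start_zero] at this
    simpa [rot] using this
  have h22 : ‖z.2.2 - c * (zeta * I)‖ ≤ 1 / 100 := by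
    have := (norm_snd_le (z - rot c (start 0)).2).trans h2
    rw [start_zero] at this
    simpa [rot] using this
  have n1 : ‖c * zeta‖ = 1 := by rw [norm_mul, hc, zeta_norm, one_mul]
  have n2 : ‖c * I‖ = 1 := by rw [norm_mul, hc, norm_I, one_mul]
  have n3 : ‖c * (zeta * I)‖ = 1 := by rw [norm_mul, norm_mul, hc, zeta_norm, norm_I]; norm_num
  have n4 : ‖c * (1 + zeta)‖ = 1 := by rw [norm_mul, hc, one_zeta_norm, one_mul]
  refine ⟨?_, ?_, ?_, ?_, ?_⟩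
  · have := norm_sub_norm_le c z.1.1
    rw [norm_sub_rev, hc] at this
    linarith
  · have := norm_sub_norm_le (c * zeta) z.1.2
    rw [norm_sub_rev, n1] at this
    linarith
  · have := norm_sub_norm_le (c * (1 + zeta)) (z.1.1 + z.1.2)
    rw [norm_sub_rev, n4] at this
    have h3 : ‖z.1.1 + z.1.2 - c * (1 + zeta)‖ ≤ 1 / 100 + 1 / 100 := by
      have e : z.1.1 + z.1.2 - c * (1 + zeta) = (z.1.1 - c) + (z.1.2 - c * zeta) := by ring
      rw [e]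
      exact (norm_add_le _ _).trans (add_le_add h11 h12)
    linarith
  · have := norm_sub_norm_le z.2.1 (c * I)
    rw [n2] at this
    linarith
  · have := norm_sub_norm_le z.2.2 (c * (zeta * I))
    rw [n3] at this
    linarith

theorem fine_fld {m : Fin 3 → ℝ} {z : E × E} (h : Fine z) :
    fld (1 / 100) 32 (m 0) (m 1) (m 2) z = (z.2, rf kep (m 0) (m 1) (m 2) z.1) :=
  fld_true h.1.le h.2.1.le h.2.2.1.le h.2.2.2.1.le h.2.2.2.2.le

/-- the relative accelerations -/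
theorem acc_rel (m : Fin 3 → ℝ) (q : Fin 3 → ℂ) :
    (acc m q 1 - acc m q 0, acc m q 2 - acc m q 1) =
      rf kep (m 0) (m 1) (m 2) (q 1 - q 0, q 2 - q 1) := by
  have a0 : acc m q 0 = _ := acc0 m q
  have a1 : acc m q 1 = _ := acc1 m q
  have a2 : acc m q 2 = _ := acc2 m q
  have k01 : kep (q 0 - q 1) = -kep (q 1 - q 0) := by rw [← kep_neg]; congr 1; ring
  have k12 : kep (q 1 - q 2) = -kep (q 2 - q 1) := by rw [← kep_neg]; congr 1; ring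
  have k02 : kep (q 0 - q 2) = -kep (q 2 - q 0) := by rw [← kep_neg]; congr 1; ring
  have k : q 1 - q 0 + (q 2 - q 1) = q 2 - q 0 := by ring
  rw [a0, a1, a2, k01, k12, k02]
  unfold rf
  simp only [k]
  refine Prod.ext ?_ ?_ <;> simp only <;> push_cast <;> ring

/-- the derivative of the relative coordinates -/
theorem rel_deriv {m : Fin 3 → ℝ} {x : ℝ → Ph} {t : ℝ}
    (h : HasDerivAt x ((x t).2, acc m (x t).1) t) :
    HasDerivAt (fun s => rel (x s)) ((rel (x t)).2, rf kep (m 0) (m 1) (m 2) (rel (x t)).1) t := by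
  have h1 : HasDerivAt (fun s => (x s).1) (x t).2 t := h.fst
  have h2 : HasDerivAt (fun s => (x s).2) (acc m (x t).1) t := h.snd
  rw [hasDerivAt_pi] at h1 h2
  have e : rf kep (m 0) (m 1) (m 2) (rel (x t)).1 =
      (acc m (x t).1 1 - acc m (x t).1 0, acc m (x t).1 2 - acc m (x t).1 1) := (acc_rel m _).symm
  rw [e]
  unfold rel
  exact (((h1 1).sub (h1 0)).prodMk ((h1 2).sub (h1 1))).prodMk
    (((h2 1).sub (h2 0)).prodMk ((h2 2).sub (h2 1)))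

/-- positions are determined by relative positions -/
theorem conf_rel {m : Fin 3 → ℝ} (hM : m 0 + m 1 + m 2 = 1) {q : Fin 3 → ℂ}
    (hc : ∑ a, (m a : ℂ) * q a = 0) : conf m (q 1 - q 0, q 2 - q 1) = q := by
  have hMc : (m 0 : ℂ) + m 1 + m 2 = 1 := by exact_mod_cast hM
  rw [Fin.sum_univ_three] at hc
  have c0 : conf m (q 1 - q 0, q 2 - q 1) 0 = q 0 := by
    rw [New.conf0, hM]
    push_cast
    rw [div_one]
    linear_combination (-1 : ℂ) * hc + q 0 * hMc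
  funext a
  fin_cases a
  · exact c0
  · show conf m (q 1 - q 0, q 2 - q 1) 1 = q 1
    rw [New.conf1, c0]
    ring
  · show conf m (q 1 - q 0, q 2 - q 1) 2 = q 2
    rw [New.conf2, c0]
    ring

/-- the end of the proof: admissible solutions which escape give solutions of Newton's equations -/
theorem finish {m : Fin 3 → ℝ} (hpos : ∀ a, 0 < m a) {γ : ℝ → E × E} (hγ : Sol m γ)
    (hgood : ∀ t, 0 ≤ t → Fine (γ t)) {T : ℝ}
    (hesc : ∀ t, T ≤ t → (t - T) / 10 ≤ ‖(γ t).1.2‖ ∧ (t - T) / 10 ≤ ‖(γ t).1.1 + (γ t).1.2‖ ∧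
      ‖(γ t).1.1‖ ≤ 2) :
    IsForwardSol m (fun t => (conf m (γ t).1, conf m (γ t).2)) ∧
      ∀ R : ℝ, ∃ t₀ : ℝ, ∀ t, t₀ ≤ t → R ≤ ‖conf m (γ t).1 2 - conf m (γ t).1 0‖ ∧
        R ≤ ‖conf m (γ t).1 2 - conf m (γ t).1 1‖ ∧ ‖conf m (γ t).1 1 - conf m (γ t).1 0‖ ≤ 2 := by
  have hcont : Continuous γ := Fl.sol_cont hγ
  have hev : ∀ᶠ t in 𝓝 (0 : ℝ), Fine (γ t) := by
    obtain ⟨a1, a2, a3, a4, a5⟩ := hgood 0 le_rfl
    have c1 : Continuous fun t => ‖(γ t).1.1‖ := by fun_prop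
    have c2 : Continuous fun t => ‖(γ t).1.2‖ := by fun_prop
    have c3 : Continuous fun t => ‖(γ t).1.1 + (γ t).1.2‖ := by fun_prop
    have c4 : Continuous fun t => ‖(γ t).2.1‖ := by fun_prop
    have c5 : Continuous fun t => ‖(γ t).2.2‖ := by fun_prop
    filter_upwards [c1.continuousAt.eventually (lt_mem_nhds a1),
      c2.continuousAt.eventually (lt_mem_nhds a2), c3.continuousAt.eventually (lt_mem_nhds a3),
      c4.continuousAt.eventually (gt_mem_nhds a4), c5.continuousAt.eventually (gt_mem_nhds a5)]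
      with t b1 b2 b3 b4 b5
    exact ⟨b1, b2, b3, b4, b5⟩
  obtain ⟨η, hη, hηball⟩ := Metric.eventually_nhds_iff.1 hev
  have hall : ∀ t, -η < t → Fine (γ t) := by
    intro t ht
    by_cases h : 0 ≤ t
    · exact hgood t h
    · push Not at h
      apply hηball
      rw [Real.dist_eq, sub_zero, abs_of_neg h]
      linarith
  refine ⟨⟨η, hη, ?_⟩, ?_⟩
  · intro t ht
    obtain ⟨a1, a2, a3, a4, a5⟩ := hall t ht
    have hne : ∀ x : ℂ, 1 / 100 < ‖x‖ → x ≠ 0 := by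
      intro x hx h
      rw [h, norm_zero] at hx
      norm_num at hx
    have hd : HasDerivAt γ ((γ t).2, rf kep (m 0) (m 1) (m 2) (γ t).1) t := by
      have := hγ t
      rwa [fld_true a1.le a2.le a3.le a4.le a5.le] at this
    have := New.main m hpos 1 (by simp) γ t (hne _ a1) (hne _ a2) (hne _ a3) hd
    simp only [one_mul] at this
    exact this
  · intro R
    refine ⟨T + 10 * max R 0, ?_⟩
    intro t ht
    have hmax : 0 ≤ max R 0 := le_max_right _ _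
    have hRm : R ≤ max R 0 := le_max_left _ _
    obtain ⟨b1, b2, b3⟩ := hesc t (by linarith)
    have f20 : conf m (γ t).1 2 - conf m (γ t).1 0 = (γ t).1.1 + (γ t).1.2 := by
      rw [New.conf2]; ring
    have f21 : conf m (γ t).1 2 - conf m (γ t).1 1 = (γ t).1.2 := by
      rw [New.conf2, New.conf1]; ring
    have f10 : conf m (γ t).1 1 - conf m (γ t).1 0 = (γ t).1.1 := by
      rw [New.conf1]; ring
    rw [f20, f21, f10]
    exact ⟨by linarith, by linarith, b3⟩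

end Bs

open Bs

/-- LP-BASE, with LP-EXIT and LP-GROW as hypotheses -/
theorem base2_of
    (exit : ∃ C ρ₀ : ℝ, 0 < C ∧ 0 < ρ₀ ∧ ∀ ρ : ℝ, 0 < ρ → ρ ≤ ρ₀ → ∃ ε : ℝ, 0 < ε ∧ ∀ m : Fin 3 → ℝ, Near3 m ε →
      ∀ φ : ℝ → E × E, Sol m φ → (∀ t, 0 ≤ t → ∃ c : ℂ, ‖c‖ = 1 ∧ ‖φ t - rot c (start 0)‖ ≤ ε) →
      ∀ g : ℂ, ‖g‖ = ρ → ∀ δ : ℝ, 0 < δ → ∃ y₀ : E × E, ‖y₀ - φ 0‖ ≤ δ ∧ ∀ y : ℝ → E × E, Sol m y → y 0 = y₀ →
        ∃ T : ℝ, 0 ≤ T ∧ (∀ t ∈ Set.Icc 0 T, ∃ c : ℂ, ‖c‖ = 1 ∧ ‖y t - rot c (start 0)‖ ≤ 1 / 100) ∧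
          ∃ c : ℂ, ‖c‖ = 1 ∧ ‖y T - rot c (start g)‖ ≤ C * ρ ^ 2)
    (grow : ∀ (g : ℂ) (C : ℝ), g ≠ 0 → ‖g‖ ≤ 1 / 10 ^ 20 → 0 < C → ∃ ρ₁ : ℝ, 0 < ρ₁ ∧ ∀ ρ : ℝ, 0 < ρ → ρ ≤ ρ₁ →
      ∃ η : ℝ, 0 < η ∧ ∃ g₁ : ℂ, ‖g₁‖ = ρ ∧ ∀ m : Fin 3 → ℝ, Near3 m η → ∀ y : ℝ → E × E, Sol m y →
        ‖y 0 - start g₁‖ ≤ C * ρ ^ 2 → ∃ T : ℝ, 0 ≤ T ∧
          (∀ t ∈ Set.Icc 0 T, ∃ c : ℂ, ‖c‖ = 1 ∧ ‖y t - rot c (start 0)‖ ≤ 1 / 100) ∧
          ∃ c : ℂ, ‖c‖ = 1 ∧ nn ((y T).1 - (rot c (start g)).1) ≤ 10 ^ 5 * ‖g‖ ^ 3 ∧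
            nn ((y T).2 - (rot c (start g)).2) ≤ 10 ^ 5 * ‖g‖ ^ 3)
    {g : ℂ} (h0 : g ≠ 0) (h1 : ‖g‖ ≤ 1 / 10 ^ 20) (hg : GoesW g) : Base2 := by
  obtain ⟨C, ρ₀, hC, hρ₀, hexit⟩ := exit
  obtain ⟨ρ₁, hρ₁, hgrow⟩ := grow g C h0 h1 hC
  have hρ : 0 < min ρ₀ ρ₁ := lt_min hρ₀ hρ₁
  obtain ⟨ε₁, hε₁, H1⟩ := hexit (min ρ₀ ρ₁) hρ (min_le_left _ _)
  obtain ⟨η₂, hη₂, g₁, hg₁, H2⟩ := hgrow (min ρ₀ ρ₁) hρ (min_le_right _ _)
  obtain ⟨η₃, hη₃, H3⟩ := hg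
  obtain ⟨ρ, hρd⟩ : ∃ ρ, ρ = min ρ₀ ρ₁ := ⟨_, rfl⟩
  rw [← hρd] at hρ H1 H2 hg₁
  refine ⟨min (min ε₁ η₂) (min η₃ (1 / 100)), by positivity, ?_⟩
  intro m hm
  have hmono : ∀ η', min (min ε₁ η₂) (min η₃ (1 / 100)) ≤ η' → Near3 m η' := fun η' h =>
    ⟨hm.1, fun a => (hm.2 a).trans h⟩
  have l1 : min (min ε₁ η₂) (min η₃ (1 / 100)) ≤ ε₁ := (min_le_left _ _).trans (min_le_left _ _)
  have l2 : min (min ε₁ η₂) (min η₃ (1 / 100)) ≤ η₂ := (min_le_left _ _).trans (min_le_right _ _)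
  have l3 : min (min ε₁ η₂) (min η₃ (1 / 100)) ≤ η₃ := (min_le_right _ _).trans (min_le_left _ _)
  have l4 : min (min ε₁ η₂) (min η₃ (1 / 100)) ≤ 1 / 100 :=
    (min_le_right _ _).trans (min_le_right _ _)
  have hm1 : Near3 m ε₁ := hmono _ l1
  have hm2 : Near3 m η₂ := hmono _ l2
  have hm3 : Near3 m η₃ := hmono _ l3
  have hm4 : Near3 m (1 / 100) := hmono _ l4
  have hpos : ∀ a, 0 < m a := by
    intro a
    have := hm4.2 a
    rw [abs_le] at this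
    linarith [this.1]
  have hpos' : ∀ a, 0 ≤ m a := fun a => (hpos a).le
  refine ⟨hpos, ?_⟩
  intro x hx hnear U hU
  -- the solution `φ` in relative coordinates
  obtain ⟨φ, hφ0, hφ⟩ := exists_glob (ε := 1 / 100) (B := 32) (m1 := m 0) (m2 := m 1) (m3 := m 2)
    (by norm_num) (by norm_num) (hpos' 0) (hpos' 1) (hpos' 2) (rel (x 0))
  have hφs : Sol m φ := hφ
  have hz : ∀ t, 0 ≤ t → HasDerivAt (fun s => rel (x s))
      (fld (1 / 100) 32 (m 0) (m 1) (m 2) (rel (x t))) t := by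
    intro t ht
    obtain ⟨c, hc, hc1⟩ := hnear t ht
    rw [fine_fld (near_fine hc (hc1.trans l4))]
    exact rel_deriv (hx t ht).2
  obtain ⟨K, hK⟩ := Fl.lip_ex hpos'
  have hφz : ∀ t, 0 ≤ t → φ t = rel (x t) := by
    intro t ht
    have hzc : ContinuousOn (fun s => rel (x s)) (Set.Icc 0 t) := fun s hs =>
      (hz s hs.1).continuousAt.continuousWithinAt
    have := dist_le_of_trajectories_ODE (v := fun _ => fld (1 / 100) 32 (m 0) (m 1) (m 2))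
      (K := K) (f := φ) (g := fun s => rel (x s)) (a := 0) (b := t) (δ := 0) (fun _ => hK)
      (Fl.sol_cont hφs).continuousOn (fun s _ => (hφ s).hasDerivWithinAt)
      hzc (fun s hs => (hz s hs.1).hasDerivWithinAt) (by rw [hφ0, dist_self]) t ⟨ht, le_rfl⟩
    rw [zero_mul] at this
    exact dist_le_zero.1 this
  have hφn : ∀ t, 0 ≤ t → ∃ c : ℂ, ‖c‖ = 1 ∧ ‖φ t - rot c (start 0)‖ ≤ ε₁ := by
    intro t ht
    obtain ⟨c, hc, hc1⟩ := hnear t ht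
    exact ⟨c, hc, by rw [hφz t ht]; exact hc1.trans l1⟩
  -- continuity of the map to phase space
  have hΦ : Continuous (fun z : E × E => ((conf m z.1, conf m z.2) : Ph)) :=
    ((conf_cont m).comp continuous_fst).prodMk ((conf_cont m).comp continuous_snd)
  have hU' : (fun z : E × E => ((conf m z.1, conf m z.2) : Ph)) ⁻¹' U ∈ 𝓝 (φ 0) := by
    apply hΦ.continuousAt.preimage_mem_nhds
    have hx0 := (hx 0 le_rfl).1
    have e : ((conf m (φ 0).1, conf m (φ 0).2) : Ph) = x 0 := by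
      rw [hφ0]
      exact Prod.ext (conf_rel hm.1 hx0.2.1) (conf_rel hm.1 hx0.2.2)
    rw [e]
    exact hU
  obtain ⟨δ, hδ, hball⟩ := Metric.mem_nhds_iff.1 hU'
  obtain ⟨y₀, hy₀, hy⟩ := H1 m hm1 φ hφs hφn g₁ hg₁ (δ / 2) (by linarith)
  obtain ⟨y, hy0, hys⟩ := exists_glob (ε := 1 / 100) (B := 32) (m1 := m 0) (m2 := m 1) (m3 := m 2)
    (by norm_num) (by norm_num) (hpos' 0) (hpos' 1) (hpos' 2) y₀
  have hyS : Sol m y := hys
  obtain ⟨T1, hT1, near1, c1, hc1, hd1⟩ := hy y hyS hy0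
  -- second phase
  have hci1 : ‖c1⁻¹‖ = 1 := by rw [norm_inv, hc1, inv_one]
  have hc10 : c1 ≠ 0 := by
    intro h
    rw [h, norm_zero] at hc1
    exact zero_ne_one hc1
  have hS1 := sol_rot_shift hyS hci1 T1
  have hst1 : ‖rot c1⁻¹ (y (T1 + 0)) - start g₁‖ ≤ C * ρ ^ 2 := by
    have e : rot c1⁻¹ (y (T1 + 0)) - start g₁ = rot c1⁻¹ (y T1 - rot c1 (start g₁)) := by
      rw [rot_sb, rot_rot, inv_mul_cancel₀ hc10, rot_one, add_zero]
    rw [e, rot_nrm hci1]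
    exact hd1
  obtain ⟨T2, hT2, near2, c2, hc2, hd2, hd2'⟩ := H2 m hm2 _ hS1 hst1
  have hci2 : ‖c2⁻¹‖ = 1 := by rw [norm_inv, hc2, inv_one]
  have hc20 : c2 ≠ 0 := by
    intro h
    rw [h, norm_zero] at hc2
    exact zero_ne_one hc2
  have hS2 := sol_rot_shift hS1 hci2 T2
  have hstart : start g = rot c2⁻¹ (rot c2 (start g)) := by
    rw [rot_rot, inv_mul_cancel₀ hc20, rot_one]
  have hn1 : nn ((rot c2⁻¹ (rot c1⁻¹ (y (T1 + (T2 + 0))))).1 - (start g).1) ≤ 10 ^ 5 * ‖g‖ ^ 3 := by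
    rw [hstart, rot_sub1, nn_rot hci2, add_zero]
    exact hd2
  have hn2 : nn ((rot c2⁻¹ (rot c1⁻¹ (y (T1 + (T2 + 0))))).2 - (start g).2) ≤ 10 ^ 5 * ‖g‖ ^ 3 := by
    rw [hstart, rot_sub2, nn_rot hci2, add_zero]
    exact hd2'
  obtain ⟨G1, T3, hT3, G2⟩ := H3 m hm3 _ hS2 hn1 hn2
  have hgood : ∀ t, 0 ≤ t → Fine (y t) := by
    intro t ht
    rcases le_or_gt t T1 with h | h
    · obtain ⟨c, hc, hcn⟩ := near1 t ⟨ht, h⟩
      exact near_fine hc hcn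
    rcases le_or_gt t (T1 + T2) with h' | h'
    · obtain ⟨c, hc, hcn⟩ := near2 (t - T1) ⟨by linarith, by linarith⟩
      have hf := near_fine hc hcn
      rw [fine_rot hci1, add_sub_cancel] at hf
      exact hf
    · have hf : Fine (rot c2⁻¹ (rot c1⁻¹ (y (T1 + (T2 + (t - (T1 + T2))))))) :=
        G1 (t - (T1 + T2)) (by linarith)
      rw [fine_rot hci2, fine_rot hci1, show T1 + (T2 + (t - (T1 + T2))) = t by ring] at hf
      exact hf
  have hesc : ∀ t, T1 + T2 + T3 ≤ t → (t - (T1 + T2 + T3)) / 10 ≤ ‖(y t).1.2‖ ∧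
      (t - (T1 + T2 + T3)) / 10 ≤ ‖(y t).1.1 + (y t).1.2‖ ∧ ‖(y t).1.1‖ ≤ 2 := by
    intro t ht
    have := G2 (t - (T1 + T2)) (by linarith)
    obtain ⟨e1, e2, e3, -, -⟩ := rot_norms hci2 (rot c1⁻¹ (y (T1 + (T2 + (t - (T1 + T2))))))
    obtain ⟨e1', e2', e3', -, -⟩ := rot_norms hci1 (y (T1 + (T2 + (t - (T1 + T2)))))
    rw [e1, e2, e3, e1', e2', e3', show T1 + (T2 + (t - (T1 + T2))) = t by ring] at this
    rw [show t - (T1 + T2 + T3) = t - (T1 + T2) - T3 by ring]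
    exact this
  obtain ⟨F1, F2⟩ := finish hpos hyS hgood hesc
  refine ⟨fun t => (conf m (y t).1, conf m (y t).2), ?_, F1, F2⟩
  apply hball
  rw [Metric.mem_ball, dist_eq_norm, hy0]
  linarith

end Pool.Agent.H3.LP
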