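import Pool.Agent.H3.LP.Acc

/-! LP-CLOSE: nearly constant distances force the state to be near a rotating equilateral triangle. -/

set_option autoImplicit false

open Complex Filter Topology Pool.Agent.H3.LG
open Pool.Agent.H99.TB hiding Ph acc phaseSpace IsSol
open Pool.Agent.H3.TB (Ph acc phaseSpace IsSol IsForwardSol IsRelPeriodic)

namespace Pool.Agent.H3.LP
namespace CloseAux

open AccAux


theorem const_sign {f : ℝ → ℝ} (hf : ContinuousOn f (Set.Ici 0)) (h0 : ∀ t, 0 ≤ t → f t ≠ 0) :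
    (∀ t, 0 ≤ t → 0 < f t) ∨ (∀ t, 0 ≤ t → f t < 0) := by
  by_cases hp : 0 < f 0
  · left
    intro t ht
    by_contra hn
    push Not at hn
    have hc : ContinuousOn f (Set.Icc 0 t) := hf.mono (fun x hx => hx.1)
    obtain ⟨x, hx, hx0⟩ := intermediate_value_Icc' ht hc ⟨hn, hp.le⟩
    exact h0 x hx.1 hx0
  · right
    push Not at hp
    intro t ht
    by_contra hn
    push Not at hn
    have hc : ContinuousOn f (Set.Icc 0 t) := hf.mono (fun x hx => hx.1)
    obtain ⟨x, hx, hx0⟩ := intermediate_value_Icc ht hc ⟨hp, hn⟩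
    exact h0 x hx.1 hx0

theorem exp_der (k : ℂ) (τ : ℝ) : HasDerivAt (fun τ : ℝ => cexp (k * τ)) (k * cexp (k * τ)) τ := by
  have h := (((hasDerivAt_id τ).ofReal_comp).const_mul k).cexp
  have e : k * cexp (k * (τ : ℂ)) = cexp (k * ((id τ : ℝ) : ℂ)) * (k * ((1 : ℝ) : ℂ)) := by
    rw [ofReal_one, mul_one, mul_comm, id]
  rw [e]
  exact h

theorem norm_e (τ : ℝ) : ‖cexp (I * τ)‖ = 1 := by rw [mul_comm]; exact norm_exp_ofReal_mul_I τ

theorem norm_e' (τ : ℝ) : ‖cexp (-I * τ)‖ = 1 := by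
  have e : -I * (τ : ℂ) = ((-τ : ℝ) : ℂ) * I := by push_cast; ring
  rw [e]; exact norm_exp_ofReal_mul_I (-τ)

/-- one side, one time -/
theorem side_pt {u v w : ℝ → ℂ} {δ : ℝ} (hδ : δ ≤ 1 / 1000) (hu : ∀ t, 0 ≤ t → HasDerivAt u (v t) t)
    (hv : ∀ t, 0 ≤ t → HasDerivAt v (w t) t) (hw : ∀ t, 0 ≤ t → ‖w t + u t‖ ≤ δ)
    (h1 : ∀ t, 0 ≤ t → |‖u t‖ - 1| ≤ δ) {a : ℝ} (ha : 0 ≤ a) :
    ‖v a + I * u a‖ * ‖v a - I * u a‖ ≤ 40 * δ := by
  have hδ0 : 0 ≤ δ := (abs_nonneg _).trans (h1 a ha)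
  set P := v a + I * u a with hP
  set Q := v a - I * u a with hQ
  have hI : I * I = -1 := I_mul_I
  have bP : ∀ τ ∈ Set.Icc (0:ℝ) 3, ‖(v (a + τ) + I * u (a + τ)) * cexp (-I * τ) - P‖ ≤ 3 * δ := by
    intro τ hτ
    have h := norm_image_sub_le_of_norm_deriv_le_segment' (a := (0:ℝ)) (b := 3) (C := δ)
      (f := fun τ : ℝ => (v (a + τ) + I * u (a + τ)) * cexp (-I * τ))
      (f' := fun τ : ℝ => (w (a + τ) + u (a + τ)) * cexp (-I * τ)) ?_ ?_ τ hτ
    · have e0 : (v (a + 0) + I * u (a + 0)) * cexp (-I * ((0:ℝ) : ℂ)) = P := by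
        rw [hP]; simp
      rw [e0] at h
      refine h.trans ?_
      nlinarith [hτ.1, hτ.2]
    · intro x hx
      have hx0 : 0 ≤ a + x := by linarith [hx.1]
      have d1 := (hv (a + x) hx0).comp_const_add a x
      have d2 := ((hu (a + x) hx0).comp_const_add a x).const_mul I
      have d3 := (d1.add d2).mul (exp_der (-I) x)
      refine HasDerivAt.hasDerivWithinAt ?_
      have e : (w (a + x) + u (a + x)) * cexp (-I * x) = (w (a + x) + I * v (a + x)) * cexp (-I * x) +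
          (v (a + x) + I * u (a + x)) * (-I * cexp (-I * x)) := by
        linear_combination (u (a + x) * cexp (-I * x)) * hI
      rw [e]
      exact d3
    · intro x hx
      have hx0 : 0 ≤ a + x := by linarith [hx.1]
      rw [norm_mul, norm_e', mul_one]
      exact hw _ hx0
  have bQ : ∀ τ ∈ Set.Icc (0:ℝ) 3, ‖(v (a + τ) - I * u (a + τ)) * cexp (I * τ) - Q‖ ≤ 3 * δ := by
    intro τ hτ
    have h := norm_image_sub_le_of_norm_deriv_le_segment' (a := (0:ℝ)) (b := 3) (C := δ)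
      (f := fun τ : ℝ => (v (a + τ) - I * u (a + τ)) * cexp (I * τ))
      (f' := fun τ : ℝ => (w (a + τ) + u (a + τ)) * cexp (I * τ)) ?_ ?_ τ hτ
    · have e0 : (v (a + 0) - I * u (a + 0)) * cexp (I * ((0:ℝ) : ℂ)) = Q := by
        rw [hQ]; simp
      rw [e0] at h
      refine h.trans ?_
      nlinarith [hτ.1, hτ.2]
    · intro x hx
      have hx0 : 0 ≤ a + x := by linarith [hx.1]
      have d1 := (hv (a + x) hx0).comp_const_add a x
      have d2 := ((hu (a + x) hx0).comp_const_add a x).const_mul I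
      have d3 := (d1.sub d2).mul (exp_der I x)
      refine HasDerivAt.hasDerivWithinAt ?_
      have e : (w (a + x) + u (a + x)) * cexp (I * x) = (w (a + x) - I * v (a + x)) * cexp (I * x) +
          (v (a + x) - I * u (a + x)) * (I * cexp (I * x)) := by
        linear_combination (u (a + x) * cexp (I * x)) * hI
      rw [e]
      exact d3
    · intro x hx
      have hx0 : 0 ≤ a + x := by linarith [hx.1]
      rw [norm_mul, norm_e, mul_one]
      exact hw _ hx0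
  have key : ∀ τ ∈ Set.Icc (0:ℝ) 3, |‖P * cexp (I * τ) - Q * cexp (-I * τ)‖ - 2| ≤ 8 * δ := by
    intro τ hτ
    have hx0 : 0 ≤ a + τ := by linarith [hτ.1]
    have hee : cexp (I * τ) * cexp (-I * τ) = 1 := by
      rw [← Complex.exp_add]; simp
    have e1 : P * cexp (I * τ) - Q * cexp (-I * τ) = 2 * I * u (a + τ) -
        ((v (a + τ) + I * u (a + τ)) * cexp (-I * τ) - P) * cexp (I * τ) +
        ((v (a + τ) - I * u (a + τ)) * cexp (I * τ) - Q) * cexp (-I * τ) := by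
      linear_combination ((v (a + τ) + I * u (a + τ)) - (v (a + τ) - I * u (a + τ))) * hee
    have n1 : ‖P * cexp (I * τ) - Q * cexp (-I * τ) - 2 * I * u (a + τ)‖ ≤ 6 * δ := by
      have e2 : P * cexp (I * τ) - Q * cexp (-I * τ) - 2 * I * u (a + τ) =
        ((v (a + τ) - I * u (a + τ)) * cexp (I * τ) - Q) * cexp (-I * τ) -
        ((v (a + τ) + I * u (a + τ)) * cexp (-I * τ) - P) * cexp (I * τ) := by rw [e1]; ring
      rw [e2]
      refine (norm_sub_le _ _).trans ?_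
      rw [norm_mul, norm_mul, norm_e, norm_e', mul_one, mul_one]
      linarith [bP τ hτ, bQ τ hτ]
    have n2 : ‖2 * I * u (a + τ)‖ = 2 * ‖u (a + τ)‖ := by
      rw [norm_mul, norm_mul, norm_I]; norm_num
    have n3 := abs_le.1 ((abs_norm_sub_norm_le _ _).trans n1)
    rw [n2] at n3
    have n4 := abs_le.1 (h1 _ hx0)
    rw [abs_le]
    constructor <;> linarith
  -- the square
  have sq : ∀ τ ∈ Set.Icc (0:ℝ) 3,
      |‖P‖ ^ 2 + ‖Q‖ ^ 2 - 2 * (P * (starRingEnd ℂ) Q * cexp (I * τ) ^ 2).re - 4| ≤ 40 * δ := by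
    intro τ hτ
    have h := abs_le.1 (key τ hτ)
    have e1 : ‖P * cexp (I * τ) - Q * cexp (-I * τ)‖ ^ 2 =
        ‖P‖ ^ 2 + ‖Q‖ ^ 2 - 2 * (P * (starRingEnd ℂ) Q * cexp (I * τ) ^ 2).re := by
      have hcc : (starRingEnd ℂ) (cexp (-I * τ)) = cexp (I * τ) := by
        rw [← exp_conj]; simp
      rw [← normSq_eq_norm_sq, normSq_sub, map_mul (starRingEnd ℂ), hcc, normSq_mul, normSq_mul]
      rw [normSq_eq_norm_sq (cexp (I * τ)), normSq_eq_norm_sq (cexp (-I * τ)), norm_e, norm_e']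
      rw [normSq_eq_norm_sq, normSq_eq_norm_sq]
      have e3 : P * cexp (I * τ) * ((starRingEnd ℂ) Q * cexp (I * τ)) = P * (starRingEnd ℂ) Q * cexp (I * τ) ^ 2 := by ring
      rw [e3]
      ring
    rw [← e1]
    set N := ‖P * cexp (I * τ) - Q * cexp (-I * τ)‖ with hN
    rw [abs_le]
    constructor <;> nlinarith [h.1, h.2]
  have pi3 := Real.pi_le_four
  have pi3' := Real.pi_gt_three
  have s0 := sq 0 ⟨le_refl _, by norm_num⟩
  have s1 := sq (Real.pi / 2) ⟨by positivity, by linarith⟩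
  have s2 := sq (Real.pi / 4) ⟨by positivity, by linarith⟩
  have s3 := sq (3 * Real.pi / 4) ⟨by positivity, by linarith⟩
  have x0 : cexp (I * ((0:ℝ) : ℂ)) ^ 2 = 1 := by simp
  have x1 : cexp (I * ((Real.pi / 2 : ℝ) : ℂ)) ^ 2 = -1 := by
    rw [← Complex.exp_nat_mul]
    have : ((2:ℕ) : ℂ) * (I * ((Real.pi / 2 : ℝ) : ℂ)) = Real.pi * I := by push_cast; ring
    rw [this, exp_pi_mul_I]
  have x2 : cexp (I * ((Real.pi / 4 : ℝ) : ℂ)) ^ 2 = I := by
    rw [← Complex.exp_nat_mul]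
    have : ((2:ℕ) : ℂ) * (I * ((Real.pi / 4 : ℝ) : ℂ)) = Real.pi / 2 * I := by push_cast; ring
    rw [this, exp_pi_div_two_mul_I]
  have x3 : cexp (I * ((3 * Real.pi / 4 : ℝ) : ℂ)) ^ 2 = -I := by
    rw [← Complex.exp_nat_mul]
    have : ((2:ℕ) : ℂ) * (I * ((3 * Real.pi / 4 : ℝ) : ℂ)) = Real.pi * I + Real.pi / 2 * I := by push_cast; ring
    rw [this, Complex.exp_add, exp_pi_mul_I, exp_pi_div_two_mul_I]; ring
  rw [x0] at s0
  rw [x1] at s1
  rw [x2] at s2
  rw [x3] at s3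
  set R := P * (starRingEnd ℂ) Q with hR
  have r1 : (R * 1).re = R.re := by simp
  have r2 : (R * -1).re = -R.re := by simp
  have r3 : (R * I).re = -R.im := by simp
  have r4 : (R * -I).re = R.im := by simp
  rw [r1] at s0
  rw [r2] at s1
  rw [r3] at s2
  rw [r4] at s3
  rw [abs_le] at s0 s1 s2 s3
  have hre : |R.re| ≤ 20 * δ := by rw [abs_le]; constructor <;> linarith [s0.1, s0.2, s1.1, s1.2]
  have him : |R.im| ≤ 20 * δ := by rw [abs_le]; constructor <;> linarith [s2.1, s2.2, s3.1, s3.2]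
  have hRn : ‖R‖ ≤ 40 * δ := (norm_le_abs_re_add_abs_im R).trans (by linarith)
  rw [hR, norm_mul, RCLike.norm_conj] at hRn
  exact hRn

theorem side {u v w : ℝ → ℂ} {δ : ℝ} (hδ : δ ≤ 1 / 1000) (hu : ∀ t, 0 ≤ t → HasDerivAt u (v t) t)
    (hv : ∀ t, 0 ≤ t → HasDerivAt v (w t) t) (hw : ∀ t, 0 ≤ t → ‖w t + u t‖ ≤ δ)
    (h1 : ∀ t, 0 ≤ t → |‖u t‖ - 1| ≤ δ) :
    ∃ s : ℂ, (s = I ∨ s = -I) ∧ ∀ t, 0 ≤ t → ‖v t - s * u t‖ ≤ 43 * δ := by
  have hδ0 : 0 ≤ δ := (abs_nonneg _).trans (h1 0 le_rfl)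
  have hp : ∀ t, 0 ≤ t → ‖v t + I * u t‖ * ‖v t - I * u t‖ ≤ 40 * δ :=
    fun t ht => side_pt hδ hu hv hw h1 ht
  have hs : ∀ t, 0 ≤ t → 19 / 10 ≤ ‖v t + I * u t‖ + ‖v t - I * u t‖ := by
    intro t ht
    have h2 := norm_sub_le (v t + I * u t) (v t - I * u t)
    have e : v t + I * u t - (v t - I * u t) = 2 * I * u t := by ring
    rw [e, norm_mul, norm_mul, norm_I] at h2
    have h3 := abs_le.1 (h1 t ht)
    norm_num at h2
    linarith
  have hcu : ContinuousOn u (Set.Ici 0) := fun t ht => (hu t ht).continuousAt.continuousWithinAt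
  have hcv : ContinuousOn v (Set.Ici 0) := fun t ht => (hv t ht).continuousAt.continuousWithinAt
  have hc : ContinuousOn (fun t => ‖v t + I * u t‖ - ‖v t - I * u t‖) (Set.Ici 0) := by
    refine ContinuousOn.sub ?_ ?_
    · exact (hcv.add (continuousOn_const.mul hcu)).norm
    · exact (hcv.sub (continuousOn_const.mul hcu)).norm
  have hne : ∀ t, 0 ≤ t → ‖v t + I * u t‖ - ‖v t - I * u t‖ ≠ 0 := by
    intro t ht h0
    have h2 := hp t ht
    have h3 := hs t ht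
    have h4 : ‖v t + I * u t‖ = ‖v t - I * u t‖ := by linarith
    rw [h4] at h2 h3
    nlinarith
  rcases const_sign hc hne with h | h
  · refine ⟨I, Or.inl rfl, fun t ht => ?_⟩
    have h2 := hp t ht
    have h3 := hs t ht
    have h4 := h t ht
    have h5 := norm_nonneg (v t - I * u t)
    have h6 : 19 / 20 ≤ ‖v t + I * u t‖ := by linarith
    have h7 : 19 / 20 * ‖v t - I * u t‖ ≤ 40 * δ := (by gcongr : 19 / 20 * ‖v t - I * u t‖ ≤ _).trans h2
    linarith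
  · refine ⟨-I, Or.inr rfl, fun t ht => ?_⟩
    have h2 := hp t ht
    have h3 := hs t ht
    have h4 := h t ht
    have h5 := norm_nonneg (v t + I * u t)
    have h6 : 19 / 20 ≤ ‖v t - I * u t‖ := by linarith
    have h7 : ‖v t + I * u t‖ * (19 / 20) ≤ 40 * δ := (by gcongr : ‖v t + I * u t‖ * (19 / 20) ≤ _).trans h2
    have e : v t - -I * u t = v t + I * u t := by ring
    rw [e]
    linarith

theorem kep_near {s : ℂ} {e : ℝ} (he : e ≤ 1 / 50) (hs : |‖s‖ - 1| ≤ e) : ‖kep s - s‖ ≤ 5 * e := by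
  have he0 : 0 ≤ e := (abs_nonneg _).trans hs
  have h := abd he0 he hs
  have e1 : kep s - s = ((1 / ‖s‖ ^ 3 - 1 : ℝ) : ℂ) * s := by
    rw [kep]; push_cast; ring
  rw [e1, norm_mul, norm_real, Real.norm_eq_abs]
  have h2 := (abs_le.1 hs).2
  calc |1 / ‖s‖ ^ 3 - 1| * ‖s‖ ≤ (4 * e) * (5 / 4) := by
        gcongr
        linarith
    _ = _ := by ring

/-- the third vertex -/
theorem ratio {y : ℂ} {e : ℝ} (he0 : 0 ≤ e) (he : e ≤ 1 / 1000) (h1 : |‖y‖ - 1| ≤ e) (h2 : |‖1 + y‖ - 1| ≤ 2 * e) :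
    |y.re + 1 / 2| ≤ 4 * e ∧ |y.im ^ 2 - 3 / 4| ≤ 8 * e := by
  have e1 : ‖y‖ ^ 2 = y.re ^ 2 + y.im ^ 2 := by rw [← normSq_eq_norm_sq, normSq_apply]; ring
  have e2 : ‖1 + y‖ ^ 2 = (1 + y.re) ^ 2 + y.im ^ 2 := by
    rw [← normSq_eq_norm_sq, normSq_apply]; simp; ring
  rw [abs_le] at h1 h2
  have b1 : |‖y‖ ^ 2 - 1| ≤ 3 * e := by
    rw [abs_le]; constructor <;> nlinarith [h1.1, h1.2]
  have b2 : |‖1 + y‖ ^ 2 - 1| ≤ 5 * e := by
    rw [abs_le]; constructor <;> nlinarith [h2.1, h2.2]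
  rw [abs_le] at b1 b2
  have c1 : |y.re + 1 / 2| ≤ 4 * e := by
    rw [abs_le]; constructor <;> nlinarith [b1.1, b1.2, b2.1, b2.2]
  refine ⟨c1, ?_⟩
  rw [abs_le] at c1
  rw [abs_le]
  constructor <;> nlinarith [b1.1, b1.2, c1.1, c1.2, mul_nonneg he0 he0]

theorem ratio_pos {y : ℂ} {e : ℝ} (he0 : 0 ≤ e) (he : e ≤ 1 / 1000) (h1 : |‖y‖ - 1| ≤ e)
    (h2 : |‖1 + y‖ - 1| ≤ 2 * e) (h3 : 0 < y.im) : ‖y - zeta‖ ≤ 14 * e := by
  obtain ⟨c1, c2⟩ := ratio he0 he h1 h2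
  have hs : Real.sqrt 3 * Real.sqrt 3 = 3 := Real.mul_self_sqrt (by norm_num)
  have hs0 : 0 ≤ Real.sqrt 3 := Real.sqrt_nonneg 3
  have hs1 : 17 / 10 ≤ Real.sqrt 3 := by
    rw [show (17 / 10 : ℝ) = Real.sqrt ((17 / 10) ^ 2) by rw [Real.sqrt_sq]; norm_num]
    apply Real.sqrt_le_sqrt; norm_num
  have c3 : |y.im - Real.sqrt 3 / 2| ≤ 10 * e := by
    have e1 : (y.im - Real.sqrt 3 / 2) * (y.im + Real.sqrt 3 / 2) = y.im ^ 2 - 3 / 4 := by nlinarith
    have e2 : |y.im - Real.sqrt 3 / 2| * (y.im + Real.sqrt 3 / 2) ≤ 8 * e := by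
      have : |y.im - Real.sqrt 3 / 2| * (y.im + Real.sqrt 3 / 2) = |y.im ^ 2 - 3 / 4| := by
        rw [← e1, abs_mul, abs_of_pos (by linarith : 0 < y.im + Real.sqrt 3 / 2)]
      rw [this]; exact c2
    have e3 : |y.im - Real.sqrt 3 / 2| * (17 / 20) ≤ 8 * e := by
      refine le_trans ?_ e2
      have : (17 / 20 : ℝ) ≤ y.im + Real.sqrt 3 / 2 := by linarith
      gcongr
    linarith
  refine (norm_le_abs_re_add_abs_im _).trans ?_
  simp only [zeta, sub_re, sub_im]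
  have e4 : y.re - -(1 / 2) = y.re + 1 / 2 := by ring
  rw [e4]
  linarith

end CloseAux

open AccAux CloseAux

theorem close (ε' : ℝ) (hε' : 0 < ε') : ∃ ε : ℝ, 0 < ε ∧ ∀ m : Fin 3 → ℝ, Near3 m ε → ∀ z : ℝ → E × E,
    (∀ t, 0 ≤ t → HasDerivAt z ((z t).2, rf kep (m 0) (m 1) (m 2) (z t).1) t) →
    (∀ t, 0 ≤ t → |‖(z t).1.1‖ - 1| ≤ ε ∧ |‖(z t).1.2‖ - 1| ≤ ε ∧ |‖(z t).1.1 + (z t).1.2‖ - 1| ≤ ε) →
    ∃ s : ℂ, (s = I ∨ s = -I) ∧ ∃ ζ : ℂ, (ζ = zeta ∨ ζ = (starRingEnd ℂ) zeta) ∧ ∀ t, 0 ≤ t →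
      ∃ c : ℂ, ‖c‖ = 1 ∧ ‖z t - ((c, c * ζ), (s * c, s * (c * ζ)))‖ ≤ ε' := by
  obtain ⟨ε, hε0, hε1, hε2⟩ : ∃ ε : ℝ, 0 < ε ∧ ε ≤ 1 / 100000 ∧ 2000 * ε ≤ ε' := by
    refine ⟨min (1 / 100000) (ε' / 2000), by positivity, min_le_left _ _, ?_⟩
    have := min_le_right (1 / 100000) (ε' / 2000)
    linarith
  refine ⟨ε, hε0, ?_⟩
  intro m hm z hz hd
  obtain ⟨hsum, hmm⟩ := hm
  -- accelerations
  have hacc : ∀ t, 0 ≤ t → ‖(rf kep (m 0) (m 1) (m 2) (z t).1).1 + (z t).1.1‖ ≤ 20 * ε ∧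
      ‖(rf kep (m 0) (m 1) (m 2) (z t).1).2 + (z t).1.2‖ ≤ 20 * ε := by
    intro t ht
    obtain ⟨h1, h2, h3⟩ := hd t ht
    set x := (z t).1 with hx
    have k0 := kep_near (by linarith) h1
    have k1 := kep_near (by linarith) h2
    have k2 := kep_near (by linarith) h3
    have m0 := abs_le.1 (hmm 0)
    have m1 := abs_le.1 (hmm 1)
    have m2 := abs_le.1 (hmm 2)
    have hS : ‖(kep x.1 - x.1) + (kep x.2 - x.2) - (kep (x.1 + x.2) - (x.1 + x.2))‖ ≤ 15 * ε := by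
      refine (norm_sub_le _ _).trans ?_
      have := norm_add_le (kep x.1 - x.1) (kep x.2 - x.2)
      linarith
    have hm1c : ((m 1 : ℝ) : ℂ) = 1 - m 0 - m 2 := by
      have : m 1 = 1 - m 0 - m 2 := by linarith
      rw [this]; push_cast; ring
    constructor
    · have e1 : (rf kep (m 0) (m 1) (m 2) x).1 + x.1 = -(kep x.1 - x.1) +
          m 2 * ((kep x.1 - x.1) + (kep x.2 - x.2) - (kep (x.1 + x.2) - (x.1 + x.2))) := by
        simp only [rf]
        push_cast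
        rw [hm1c]
        ring
      rw [e1]
      refine (norm_add_le _ _).trans ?_
      rw [norm_neg, norm_mul, norm_real, Real.norm_eq_abs, abs_of_nonneg (by linarith : 0 ≤ m 2)]
      have hm2 : m 2 ≤ 1 := by linarith
      have : m 2 * ‖(kep x.1 - x.1) + (kep x.2 - x.2) - (kep (x.1 + x.2) - (x.1 + x.2))‖ ≤ 1 * (15 * ε) := by
        gcongr
      linarith
    · have e1 : (rf kep (m 0) (m 1) (m 2) x).2 + x.2 = -(kep x.2 - x.2) +
          m 0 * ((kep x.1 - x.1) + (kep x.2 - x.2) - (kep (x.1 + x.2) - (x.1 + x.2))) := by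
        simp only [rf]
        push_cast
        rw [hm1c]
        ring
      rw [e1]
      refine (norm_add_le _ _).trans ?_
      rw [norm_neg, norm_mul, norm_real, Real.norm_eq_abs, abs_of_nonneg (by linarith : 0 ≤ m 0)]
      have hm2 : m 0 ≤ 1 := by linarith
      have : m 0 * ‖(kep x.1 - x.1) + (kep x.2 - x.2) - (kep (x.1 + x.2) - (x.1 + x.2))‖ ≤ 1 * (15 * ε) := by
        gcongr
      linarith
  -- derivatives of the components
  have hpos : ∀ t, 0 ≤ t → HasDerivAt (fun t => (z t).1) (z t).2 t := fun t ht => by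
    have := (hz t ht).fst
    exact this
  have hvel : ∀ t, 0 ≤ t → HasDerivAt (fun t => (z t).2) (rf kep (m 0) (m 1) (m 2) (z t).1) t := fun t ht => by
    have := (hz t ht).snd
    exact this
  have d0 : ∀ t, 0 ≤ t → HasDerivAt (fun t => (z t).1.1) (z t).2.1 t := fun t ht => (hpos t ht).fst
  have d1 : ∀ t, 0 ≤ t → HasDerivAt (fun t => (z t).1.2) (z t).2.2 t := fun t ht => (hpos t ht).snd
  have v0 : ∀ t, 0 ≤ t → HasDerivAt (fun t => (z t).2.1) (rf kep (m 0) (m 1) (m 2) (z t).1).1 t :=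
    fun t ht => (hvel t ht).fst
  have v1 : ∀ t, 0 ≤ t → HasDerivAt (fun t => (z t).2.2) (rf kep (m 0) (m 1) (m 2) (z t).1).2 t :=
    fun t ht => (hvel t ht).snd
  obtain ⟨s0, hs0, S0⟩ := side (δ := 40 * ε) (by linarith) d0 v0 (fun t ht => (hacc t ht).1.trans (by linarith))
    (fun t ht => (hd t ht).1.trans (by linarith))
  obtain ⟨s1, hs1, S1⟩ := side (δ := 40 * ε) (by linarith) d1 v1 (fun t ht => (hacc t ht).2.trans (by linarith))
    (fun t ht => (hd t ht).2.1.trans (by linarith))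
  obtain ⟨s2, hs2, S2⟩ := side (δ := 40 * ε) (by linarith) (fun t ht => (d0 t ht).add (d1 t ht))
    (fun t ht => (v0 t ht).add (v1 t ht)) (fun t ht => by
      have e : (rf kep (m 0) (m 1) (m 2) (z t).1).1 + (rf kep (m 0) (m 1) (m 2) (z t).1).2 +
        ((z t).1.1 + (z t).1.2) = ((rf kep (m 0) (m 1) (m 2) (z t).1).1 + (z t).1.1) +
          ((rf kep (m 0) (m 1) (m 2) (z t).1).2 + (z t).1.2) := by ring
      have h := norm_add_le ((rf kep (m 0) (m 1) (m 2) (z t).1).1 + (z t).1.1)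
          ((rf kep (m 0) (m 1) (m 2) (z t).1).2 + (z t).1.2)
      rw [← e] at h
      exact h.trans (by linarith [(hacc t ht).1, (hacc t ht).2]))
    (fun t ht => (hd t ht).2.2.trans (by linarith))
  -- equal signs
  have h01 : s0 = s1 := by
    by_contra hne
    have h1 : s1 = -s0 := by
      rcases hs0 with h | h <;> rcases hs1 with h' | h' <;> simp_all
    have h2 : s2 = s0 ∨ s2 = -s0 := by
      rcases hs0 with h | h <;> rcases hs2 with h' | h' <;> simp_all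
    have hns : ‖s0‖ = 1 := by rcases hs0 with h | h <;> simp [h]
    have a0 := S0 0 le_rfl
    have a1 := S1 0 le_rfl
    have a2 := S2 0 le_rfl
    have b := hd 0 le_rfl
    simp only [Pi.add_apply] at a2
    rw [h1] at a1
    rcases h2 with h2 | h2
    · rw [h2] at a2
      have e : 2 * s0 * (z 0).1.2 = ((z 0).2.1 - s0 * (z 0).1.1) + ((z 0).2.2 - -s0 * (z 0).1.2) -
        ((z 0).2.1 + (z 0).2.2 - s0 * ((z 0).1.1 + (z 0).1.2)) := by ring
      have h3 : ‖2 * s0 * (z 0).1.2‖ ≤ 129 * (40 * ε) := by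
        rw [e]
        refine (norm_sub_le _ _).trans ?_
        have := norm_add_le ((z 0).2.1 - s0 * (z 0).1.1) ((z 0).2.2 - -s0 * (z 0).1.2)
        linarith
      rw [norm_mul, norm_mul, hns] at h3
      norm_num at h3
      have := (abs_le.1 b.2.1).1
      linarith
    · rw [h2] at a2
      have e : 2 * s0 * (z 0).1.1 = -((z 0).2.1 - s0 * (z 0).1.1) - ((z 0).2.2 - -s0 * (z 0).1.2) +
        ((z 0).2.1 + (z 0).2.2 - -s0 * ((z 0).1.1 + (z 0).1.2)) := by ring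
      have h3 : ‖2 * s0 * (z 0).1.1‖ ≤ 129 * (40 * ε) := by
        rw [e]
        refine (norm_add_le _ _).trans ?_
        have := norm_sub_le (-((z 0).2.1 - s0 * (z 0).1.1)) ((z 0).2.2 - -s0 * (z 0).1.2)
        rw [norm_neg] at this
        linarith
      rw [norm_mul, norm_mul, hns] at h3
      norm_num at h3
      have := (abs_le.1 b.1).1
      linarith
  subst h01
  refine ⟨s0, hs0, ?_⟩
  have hns : ‖s0‖ = 1 := by rcases hs0 with h | h <;> simp [h]
  -- the frame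
  have hfr : ∀ t, 0 ≤ t → ∃ c y : ℂ, ‖c‖ = 1 ∧ ‖(z t).1.1 - c‖ ≤ ε ∧ (z t).1.2 = c * y ∧ |‖y‖ - 1| ≤ ε ∧
      |‖1 + y‖ - 1| ≤ 2 * ε ∧ ((starRingEnd ℂ) (z t).1.1 * (z t).1.2).im = ‖(z t).1.1‖ * y.im := by
    intro t ht
    obtain ⟨h1, h2, h3⟩ := hd t ht
    set a := (z t).1.1 with ha
    set b := (z t).1.2 with hb
    have h1' := abs_le.1 h1
    have ha0 : 0 < ‖a‖ := by linarith
    have hane : ((‖a‖ : ℝ) : ℂ) ≠ 0 := by exact_mod_cast ha0.ne'
    set c := a / ((‖a‖ : ℝ) : ℂ) with hc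
    have hcn : ‖c‖ = 1 := by
      rw [hc, norm_div, norm_real, Real.norm_of_nonneg ha0.le, div_self ha0.ne']
    have hac : a = ((‖a‖ : ℝ) : ℂ) * c := by rw [hc]; field_simp
    have hcc : c * (starRingEnd ℂ) c = 1 := by rw [mul_conj, normSq_eq_norm_sq, hcn]; norm_num
    have hacn : ‖a - c‖ ≤ ε := by
      have e : a - c = ((‖a‖ - 1 : ℝ) : ℂ) * c := by
        push_cast
        linear_combination hac
      rw [e, norm_mul, norm_real, hcn, mul_one, Real.norm_eq_abs]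
      exact h1
    refine ⟨c, (starRingEnd ℂ) c * b, hcn, hacn, ?_, ?_, ?_, ?_⟩
    · rw [← mul_assoc, hcc, one_mul]
    · rw [norm_mul, RCLike.norm_conj, hcn, one_mul]; exact h2
    · have e : ‖1 + (starRingEnd ℂ) c * b‖ = ‖c + b‖ := by
        have e2 : c * (1 + (starRingEnd ℂ) c * b) = c + b := by linear_combination b * hcc
        rw [← e2, norm_mul, hcn, one_mul]
      rw [e]
      have h4 : |‖c + b‖ - ‖a + b‖| ≤ ε := by
        refine (abs_norm_sub_norm_le _ _).trans ?_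
        have e3 : c + b - (a + b) = -(a - c) := by ring
        rw [e3, norm_neg]; exact hacn
      have h5 := abs_le.1 h4
      have h6 := abs_le.1 h3
      rw [abs_le]
      constructor <;> linarith
    · have e : (starRingEnd ℂ) a * b = ((‖a‖ : ℝ) : ℂ) * ((starRingEnd ℂ) c * b) := by
        have h7 : (starRingEnd ℂ) a = ((‖a‖ : ℝ) : ℂ) * (starRingEnd ℂ) c := by
          conv_lhs => rw [hac]
          rw [map_mul, conj_ofReal]
        rw [h7]; ring
      rw [e, im_ofReal_mul]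
  -- the orientation is constant
  have hcont : ContinuousOn (fun t => ((starRingEnd ℂ) (z t).1.1 * (z t).1.2).im) (Set.Ici 0) := by
    have c0 : ContinuousOn (fun t => (z t).1.1) (Set.Ici 0) :=
      fun t ht => (d0 t ht).continuousAt.continuousWithinAt
    have c1 : ContinuousOn (fun t => (z t).1.2) (Set.Ici 0) :=
      fun t ht => (d1 t ht).continuousAt.continuousWithinAt
    exact continuous_im.comp_continuousOn ((continuous_conj.comp_continuousOn c0).mul c1)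
  have hne : ∀ t, 0 ≤ t → ((starRingEnd ℂ) (z t).1.1 * (z t).1.2).im ≠ 0 := by
    intro t ht
    obtain ⟨c, y, h1, h2, h3, h4, h5, h6⟩ := hfr t ht
    rw [h6]
    obtain ⟨-, r2⟩ := ratio hε0.le (by linarith) h4 h5
    have ha := (abs_le.1 (hd t ht).1).1
    refine mul_ne_zero (by linarith) ?_
    intro hy
    rw [hy] at r2
    have := (abs_le.1 r2).1
    norm_num at this
    linarith
  have fin : ∀ ζ : ℂ, (∀ t, 0 ≤ t → ∃ c : ℂ, ‖c‖ = 1 ∧ ‖(z t).1.1 - c‖ ≤ ε ∧ ‖(z t).1.2 - c * ζ‖ ≤ 14 * ε) →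
      ∀ t, 0 ≤ t → ∃ c : ℂ, ‖c‖ = 1 ∧ ‖z t - ((c, c * ζ), (s0 * c, s0 * (c * ζ)))‖ ≤ ε' := by
    intro ζ h t ht
    obtain ⟨c, hc, h1, h2⟩ := h t ht
    refine ⟨c, hc, ?_⟩
    have h3 : ‖(z t).2.1 - s0 * c‖ ≤ 1740 * ε := by
      have e : (z t).2.1 - s0 * c = ((z t).2.1 - s0 * (z t).1.1) + s0 * ((z t).1.1 - c) := by ring
      rw [e]
      refine (norm_add_le _ _).trans ?_
      rw [norm_mul, hns, one_mul]
      linarith [S0 t ht]
    have h4 : ‖(z t).2.2 - s0 * (c * ζ)‖ ≤ 1740 * ε := by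
      have e : (z t).2.2 - s0 * (c * ζ) = ((z t).2.2 - s0 * (z t).1.2) + s0 * ((z t).1.2 - c * ζ) := by ring
      rw [e]
      refine (norm_add_le _ _).trans ?_
      rw [norm_mul, hns, one_mul]
      linarith [S1 t ht]
    rw [Prod.norm_def]
    refine max_le ?_ ?_
    · rw [Prod.norm_def]
      refine max_le ?_ ?_
      · exact h1.trans (by linarith)
      · exact h2.trans (by linarith)
    · rw [Prod.norm_def]
      refine max_le ?_ ?_
      · exact h3.trans (by linarith)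
      · exact h4.trans (by linarith)
  rcases const_sign hcont hne with hs | hs
  · refine ⟨zeta, Or.inl rfl, fin zeta ?_⟩
    intro t ht
    obtain ⟨c, y, h1, h2, h3, h4, h5, h6⟩ := hfr t ht
    refine ⟨c, h1, h2, ?_⟩
    have h7 := hs t ht
    rw [h6] at h7
    have hy : 0 < y.im := by
      by_contra hn
      push Not at hn
      have := mul_nonpos_of_nonneg_of_nonpos (norm_nonneg (z t).1.1) hn
      linarith
    have h8 := ratio_pos hε0.le (by linarith) h4 h5 hy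
    rw [h3, ← mul_sub, norm_mul, h1, one_mul]
    exact h8
  · refine ⟨(starRingEnd ℂ) zeta, Or.inr rfl, fin _ ?_⟩
    intro t ht
    obtain ⟨c, y, h1, h2, h3, h4, h5, h6⟩ := hfr t ht
    refine ⟨c, h1, h2, ?_⟩
    have h7 := hs t ht
    rw [h6] at h7
    have hy : 0 < ((starRingEnd ℂ) y).im := by
      rw [conj_im]
      by_contra hn
      push Not at hn
      have := mul_nonneg (norm_nonneg (z t).1.1) (by linarith : 0 ≤ y.im)
      linarith
    have e4 : |‖(starRingEnd ℂ) y‖ - 1| ≤ ε := by rw [RCLike.norm_conj]; exact h4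
    have e5 : |‖1 + (starRingEnd ℂ) y‖ - 1| ≤ 2 * ε := by
      have : 1 + (starRingEnd ℂ) y = (starRingEnd ℂ) (1 + y) := by simp
      rw [this, RCLike.norm_conj]; exact h5
    have h8 := ratio_pos hε0.le (by linarith) e4 e5 hy
    have e6 : ‖y - (starRingEnd ℂ) zeta‖ = ‖(starRingEnd ℂ) y - zeta‖ := by
      have : (starRingEnd ℂ) y - zeta = (starRingEnd ℂ) (y - (starRingEnd ℂ) zeta) := by simp
      rw [this, RCLike.norm_conj]
    rw [h3, ← mul_sub, norm_mul, h1, one_mul, e6]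
    exact h8

end Pool.Agent.H3.LP
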