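import Mathlib

/-! LP-EXIT (project 3LP, MP_6e7c44_mp), part A: first hitting times. -/

set_option autoImplicit false

open Filter Topology

namespace Pool.Agent.H3.LP.Ex

/-- a function with positive derivative is larger just after `t` -/
theorem pos_right {f : ℝ → ℝ} {f' t : ℝ} (h : HasDerivAt f f' t) (hf : 0 < f') {e : ℝ} (he : 0 < e) :
    ∃ s, t < s ∧ s < t + e ∧ f t < f s := by
  have h1 := (hasDerivAt_iff_tendsto_slope.1 h).eventually (lt_mem_nhds hf)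
  have h2 : ∀ᶠ s in 𝓝[>] t, 0 < slope f t s :=
    h1.filter_mono (nhdsWithin_mono t fun s hs => ne_of_gt hs)
  have h3 : ∀ᶠ s in 𝓝[>] t, s < t + e :=
    nhdsWithin_le_nhds (Iio_mem_nhds (by linarith))
  have h4 : ∀ᶠ s in 𝓝[>] t, t < s := self_mem_nhdsWithin
  obtain ⟨s, h5, h6, h7⟩ := (h2.and (h3.and h4)).exists
  refine ⟨s, h7, h6, ?_⟩
  rw [slope_def_field] at h5
  have h8 : 0 < s - t := by linarith
  have h9 := mul_pos h5 h8
  rw [div_mul_cancel₀ _ h8.ne'] at h9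
  linarith

/-- a function which is negative before `t` and zero at `t > 0` has nonnegative derivative -/
theorem deriv_nonneg_left {f : ℝ → ℝ} {f' t : ℝ} (h : HasDerivAt f f' t) (ht : 0 < t)
    (h0 : f t = 0) (hn : ∀ s, 0 ≤ s → s < t → f s < 0) : 0 ≤ f' := by
  by_contra hcon
  push Not at hcon
  have h1 := (hasDerivAt_iff_tendsto_slope.1 h).eventually (gt_mem_nhds hcon)
  have h2 : ∀ᶠ s in 𝓝[<] t, slope f t s < 0 :=
    h1.filter_mono (nhdsWithin_mono t fun s hs => ne_of_lt hs)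
  have h3 : ∀ᶠ s in 𝓝[<] t, 0 < s := nhdsWithin_le_nhds (Ioi_mem_nhds ht)
  have h4 : ∀ᶠ s in 𝓝[<] t, s < t := self_mem_nhdsWithin
  obtain ⟨s, h5, h6, h7⟩ := (h2.and (h3.and h4)).exists
  have h8 := hn s h6.le h7
  rw [slope_def_field, h0, sub_zero] at h5
  have h9 : 0 < f s / (s - t) := div_pos_of_neg_of_neg h8 (by linarith)
  linarith

/-- continuity of the first hitting time -/
theorem hit {h : ℝ → ℝ → ℝ} (hc : Continuous (Function.uncurry h)) (h0 : ∀ ψ, h ψ 0 < 0)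
    (hex : ∀ ψ, ∃ t, 0 ≤ t ∧ 0 ≤ h ψ t)
    (htr : ∀ ψ t, 0 < t → h ψ t = 0 → (∀ s, 0 ≤ s → s < t → h ψ s < 0) → ∀ e, 0 < e →
      ∃ t', t < t' ∧ t' < t + e ∧ 0 < h ψ t') :
    ∃ T : ℝ → ℝ, Continuous T ∧ ∀ ψ, 0 < T ψ ∧ h ψ (T ψ) = 0 ∧
      ∀ s, 0 ≤ s → s < T ψ → h ψ s < 0 := by
  have hcψ : ∀ ψ, Continuous (h ψ) := fun ψ =>
    hc.comp (by fun_prop : Continuous fun t : ℝ => (ψ, t))
  let S : ℝ → Set ℝ := fun ψ => {t | 0 ≤ t ∧ 0 ≤ h ψ t}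
  have hSne : ∀ ψ, (S ψ).Nonempty := fun ψ => hex ψ
  have hSbd : ∀ ψ, BddBelow (S ψ) := fun ψ => ⟨0, fun t ht => ht.1⟩
  have hScl : ∀ ψ, IsClosed (S ψ) := fun ψ =>
    (isClosed_le continuous_const continuous_id).inter (isClosed_le continuous_const (hcψ ψ))
  let T : ℝ → ℝ := fun ψ => sInf (S ψ)
  have hTS : ∀ ψ, T ψ ∈ S ψ := fun ψ => (hScl ψ).csInf_mem (hSne ψ) (hSbd ψ)
  have hTle : ∀ ψ t, 0 ≤ t → 0 ≤ h ψ t → T ψ ≤ t := fun ψ t h1 h2 => csInf_le (hSbd ψ) ⟨h1, h2⟩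
  have hTlt : ∀ ψ s, 0 ≤ s → s < T ψ → h ψ s < 0 := by
    intro ψ s hs hsT
    by_contra hcon
    exact absurd (hTle ψ s hs (not_lt.1 hcon)) (not_le.2 hsT)
  have hTpos : ∀ ψ, 0 < T ψ := by
    intro ψ
    rcases (hTS ψ).1.lt_or_eq with h1 | h1
    · exact h1
    · exfalso
      have h2 := (hTS ψ).2
      rw [← h1] at h2
      linarith [h0 ψ]
  have hT0 : ∀ ψ, h ψ (T ψ) = 0 := by
    intro ψ
    refine le_antisymm ?_ (hTS ψ).2
    have h1 : Tendsto (h ψ) (𝓝[<] (T ψ)) (𝓝 (h ψ (T ψ))) :=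
      ((hcψ ψ).tendsto (T ψ)).mono_left nhdsWithin_le_nhds
    have h2 : ∀ᶠ s in 𝓝[<] (T ψ), h ψ s ≤ 0 := by
      have h3 : ∀ᶠ s in 𝓝[<] (T ψ), 0 < s := nhdsWithin_le_nhds (Ioi_mem_nhds (hTpos ψ))
      have h4 : ∀ᶠ s in 𝓝[<] (T ψ), s < T ψ := self_mem_nhdsWithin
      filter_upwards [h3, h4] with s hs1 hs2
      exact (hTlt ψ s hs1.le hs2).le
    exact le_of_tendsto h1 h2
  refine ⟨T, ?_, fun ψ => ⟨hTpos ψ, hT0 ψ, hTlt ψ⟩⟩
  rw [continuous_iff_continuousAt]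
  intro ψ₀
  rw [ContinuousAt, tendsto_order]
  constructor
  · intro a ha
    -- lower semicontinuity
    have h1 : ∀ᶠ ψ in 𝓝 ψ₀, ∀ t ∈ Set.Icc 0 (max a 0), h ψ t < 0 := by
      refine isCompact_Icc.eventually_forall_of_forall_eventually ?_
      intro t ht
      have h2 : h ψ₀ t < 0 := by
        refine hTlt ψ₀ t ht.1 (lt_of_le_of_lt ht.2 ?_)
        exact max_lt ha (hTpos ψ₀)
      exact (hc.tendsto (ψ₀, t)).eventually (gt_mem_nhds h2)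
    filter_upwards [h1] with ψ hψ
    by_contra hcon
    push Not at hcon
    have h3 := hψ (T ψ) ⟨(hTpos ψ).le, hcon.trans (le_max_left _ _)⟩
    rw [hT0 ψ] at h3
    exact lt_irrefl _ h3
  · intro b hb
    obtain ⟨t', h1, h2, h3⟩ := htr ψ₀ (T ψ₀) (hTpos ψ₀) (hT0 ψ₀) (hTlt ψ₀) (b - T ψ₀)
      (by linarith)
    have h4 : Tendsto (fun ψ => h ψ t') (𝓝 ψ₀) (𝓝 (h ψ₀ t')) :=
      (hc.comp (by fun_prop : Continuous fun ψ : ℝ => (ψ, t'))).tendsto ψ₀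
    filter_upwards [h4.eventually (lt_mem_nhds h3)] with ψ hψ
    have h5 := hTle ψ t' ((hTpos ψ₀).le.trans h1.le) hψ.le
    linarith

end Pool.Agent.H3.LP.Ex
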