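import Pool.Agent.H3.LP.Defs

/-! LP-EXIT (project 3LP, MP_6e7c44_mp), part B: the frame, components. -/

set_option autoImplicit false

open Complex Filter Topology Pool.Agent.H3.LG
open Pool.Agent.H99.TB hiding Ph acc phaseSpace IsSol

namespace Pool.Agent.H3.LP.Ex

lemma zsum : 1 + zeta + zeta ^ 2 = 0 := by
  have h3 : Real.sqrt 3 * Real.sqrt 3 = 3 := Real.mul_self_sqrt (by norm_num)
  apply Complex.ext
  · simp only [zeta, Complex.add_re, Complex.one_re, sq, Complex.mul_re, Complex.zero_re]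
    linear_combination (-(1 / 4 : ℝ)) * h3
  · simp only [zeta, Complex.add_im, Complex.one_im, sq, Complex.mul_im, Complex.zero_im]
    ring

lemma zcube : zeta ^ 3 = 1 := by linear_combination (zeta - 1) * zsum

lemma zconj : (starRingEnd ℂ) zeta = zeta ^ 2 := by
  have h := zsum
  have e : (starRingEnd ℂ) zeta = -1 - zeta := by
    apply Complex.ext
    · simp only [zeta, Complex.conj_re, Complex.sub_re, Complex.neg_re, Complex.one_re]; norm_num
    · simp only [zeta, Complex.conj_im, Complex.sub_im, Complex.neg_im, Complex.one_im]; ring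
  rw [e]; linear_combination -h

lemma znorm : ‖zeta‖ = 1 := by
  have h : ‖zeta‖ ^ 3 = 1 := by rw [← norm_pow, zcube, norm_one]
  exact (pow_eq_one_iff_of_nonneg (norm_nonneg _) (by norm_num)).1 h

theorem start_zero : start 0 = (((1 : ℂ), zeta), (I, zeta * I)) := by
  unfold start hh hd
  simp

/-! ### the cut off -/

theorem near_bounds {z : E × E} {c : ℂ} {e : ℝ} (h : ‖z - rot c (start 0)‖ ≤ e) :
    ‖z.1.1 - c‖ ≤ e ∧ ‖z.1.2 - c * zeta‖ ≤ e ∧ ‖z.2.1 - c * I‖ ≤ e ∧ ‖z.2.2 - c * (zeta * I)‖ ≤ e := by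
  rw [start_zero] at h
  have h1 : ‖(z - rot c (((1 : ℂ), zeta), (I, zeta * I))).1‖ ≤ e := (norm_fst_le _).trans h
  have h2 : ‖(z - rot c (((1 : ℂ), zeta), (I, zeta * I))).2‖ ≤ e := (norm_snd_le _).trans h
  have h3 := (norm_fst_le _).trans h1
  have h4 := (norm_snd_le _).trans h1
  have h5 := (norm_fst_le _).trans h2
  have h6 := (norm_snd_le _).trans h2
  simp only [rot, Prod.fst_sub, Prod.snd_sub, mul_one] at h3 h4 h5 h6
  exact ⟨h3, h4, h5, h6⟩

theorem fld_near {m0 m1 m2 : ℝ} {z : E × E} {c : ℂ} (hc : ‖c‖ = 1)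
    (h : ‖z - rot c (start 0)‖ ≤ 1 / 100) :
    fld (1 / 100) 32 m0 m1 m2 z = (z.2, rf kep m0 m1 m2 z.1) := by
  obtain ⟨h1, h2, h3, h4⟩ := near_bounds h
  have n1 : 1 / 100 ≤ ‖z.1.1‖ := by
    have := norm_sub_norm_le c (c - z.1.1)
    rw [sub_sub_cancel, norm_sub_rev, hc] at this
    linarith
  have n2 : 1 / 100 ≤ ‖z.1.2‖ := by
    have := norm_sub_norm_le (c * zeta) (c * zeta - z.1.2)
    rw [sub_sub_cancel, norm_sub_rev, norm_mul, hc, znorm] at this
    linarith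
  have n3 : 1 / 100 ≤ ‖z.1.1 + z.1.2‖ := by
    have e : c * (1 + zeta) - (z.1.1 + z.1.2) = (c - z.1.1) + (c * zeta - z.1.2) := by ring
    have h5 : ‖c * (1 + zeta) - (z.1.1 + z.1.2)‖ ≤ 1 / 100 + 1 / 100 := by
      rw [e]
      refine (norm_add_le _ _).trans (add_le_add ?_ ?_)
      · rw [norm_sub_rev]; exact h1
      · rw [norm_sub_rev]; exact h2
    have h6 : ‖c * (1 + zeta)‖ = 1 := by
      have : 1 + zeta = -zeta ^ 2 := by linear_combination zsum
      rw [this, norm_mul, norm_neg, norm_pow, hc, znorm]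
      norm_num
    have := norm_sub_norm_le (c * (1 + zeta)) (c * (1 + zeta) - (z.1.1 + z.1.2))
    rw [sub_sub_cancel, h6] at this
    linarith
  have n4 : ‖z.2.1‖ ≤ 32 := by
    have := norm_sub_norm_le z.2.1 (z.2.1 - c * I)
    rw [sub_sub_cancel, norm_mul, hc, Complex.norm_I] at this
    have h5 := norm_sub_norm_le z.2.1 (c * I)
    rw [norm_mul, hc, Complex.norm_I] at h5
    linarith
  have n5 : ‖z.2.2‖ ≤ 32 := by
    have h5 := norm_sub_norm_le z.2.2 (c * (zeta * I))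
    rw [norm_mul, norm_mul, hc, Complex.norm_I, znorm] at h5
    linarith
  unfold fld rf
  rw [cut_eq (by norm_num) n4, cut_eq (by norm_num) n5, ker_eq n1, ker_eq n2, ker_eq n3]

theorem fld_cont {m0 m1 m2 : ℝ} : Continuous (fld (1 / 100) 32 m0 m1 m2) := by
  have hk : Continuous (Pool.Agent.H99.TB.ker (1 / 100 : ℝ)) := by
    unfold Pool.Agent.H99.TB.ker
    refine Continuous.mul ?_ continuous_id
    refine Complex.continuous_ofReal.comp ?_
    refine continuous_const.div ((continuous_const.max continuous_norm).pow 3) ?_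
    intro x
    have : (0 : ℝ) < max (1 / 100) ‖x‖ := lt_max_of_lt_left (by norm_num)
    positivity
  have hcut : Continuous (cut 32) := by
    unfold cut
    refine Continuous.mul ?_ continuous_id
    refine Complex.continuous_ofReal.comp ?_
    refine continuous_const.div (continuous_const.max continuous_norm) ?_
    intro x
    have : (0 : ℝ) < max 32 ‖x‖ := lt_max_of_lt_left (by norm_num)
    exact this.ne'
  unfold fld rf
  refine Continuous.prodMk (Continuous.prodMk ?_ ?_) (Continuous.prodMk ?_ ?_)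
  · exact hcut.comp (by fun_prop)
  · exact hcut.comp (by fun_prop)
  · refine Continuous.add (continuous_const.mul (hk.comp (by fun_prop))) (continuous_const.mul ?_)
    exact (hk.comp (by fun_prop)).sub (hk.comp (by fun_prop))
  · refine Continuous.add (continuous_const.mul (hk.comp (by fun_prop))) (continuous_const.mul ?_)
    exact (hk.comp (by fun_prop)).sub (hk.comp (by fun_prop))

/-! ### the frame -/

/-- the angular velocity of `u` with velocity `v` -/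
noncomputable def th (u v : ℂ) : ℝ := ((starRingEnd ℂ) u * v).im / ‖u‖ ^ 2

theorem frame_deriv {u : ℝ → ℂ} {v : ℂ} {t : ℝ} (h : HasDerivAt u v t) (h0 : u t ≠ 0) :
    HasDerivAt (fun t => u t / (‖u t‖ : ℂ)) (I * (th (u t) v) * (u t / (‖u t‖ : ℂ))) t := by
  have hn : 0 < ‖u t‖ := norm_pos_iff.2 h0
  have h1 : HasDerivAt (fun t => ‖u t‖ ^ 2) (2 * inner ℝ (u t) v) t := h.norm_sq
  have h2 := h1.sqrt (by positivity)
  have h3 : (fun t => Real.sqrt (‖u t‖ ^ 2)) = fun t => ‖u t‖ := by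
    funext t
    exact Real.sqrt_sq (norm_nonneg _)
  rw [h3] at h2
  have h4 := h.div (h2.ofReal_comp) (by exact_mod_cast hn.ne')
  refine h4.congr_deriv ?_
  rw [Real.sqrt_sq hn.le]
  have h5 : inner ℝ (u t) v = ((starRingEnd ℂ) (u t) * v).re := by
    rw [Complex.inner, mul_comm]
  have hnc : ((‖u t‖ : ℝ) : ℂ) ≠ 0 := by exact_mod_cast hn.ne'
  have h6 : (starRingEnd ℂ) (u t) * v = (((starRingEnd ℂ) (u t) * v).re : ℂ) +
      (((starRingEnd ℂ) (u t) * v).im : ℂ) * I := (Complex.re_add_im _).symm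
  have h7 : u t * (starRingEnd ℂ) (u t) = ((‖u t‖ : ℝ) : ℂ) ^ 2 := by
    rw [Complex.mul_conj, Complex.normSq_eq_norm_sq]
    push_cast
    rfl
  rw [h5]
  unfold th
  push_cast
  set r := ((starRingEnd ℂ) (u t) * v).re
  set s := ((starRingEnd ℂ) (u t) * v).im
  set n : ℂ := ((‖u t‖ : ℝ) : ℂ)
  have h8 : v * n ^ 2 = u t * ((r : ℂ) + (s : ℂ) * I) := by
    rw [← h6, ← h7]
    ring
  field_simp
  linear_combination h8

theorem frame_close {u v c : ℂ} {e : ℝ} (hc : ‖c‖ = 1) (he : e ≤ 1 / 100)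
    (hu : ‖u - c‖ ≤ e) (hv : ‖v - c * I‖ ≤ e) :
    |th u v - 1| ≤ 5 * e ∧ ‖u / (‖u‖ : ℂ) - c‖ ≤ 2 * e ∧ u ≠ 0 := by
  have he0 : 0 ≤ e := (norm_nonneg _).trans hu
  have n1 : 1 - e ≤ ‖u‖ := by
    have := norm_sub_norm_le c (c - u)
    rw [sub_sub_cancel, norm_sub_rev, hc] at this
    linarith
  have n2 : ‖u‖ ≤ 1 + e := by
    have := norm_sub_norm_le u c
    rw [hc] at this
    linarith
  have n3 : ‖v‖ ≤ 1 + e := by
    have := norm_sub_norm_le v (c * I)
    rw [norm_mul, hc, Complex.norm_I] at this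
    linarith
  have hpos : 0 < ‖u‖ := by linarith
  have hne : u ≠ 0 := norm_pos_iff.1 hpos
  refine ⟨?_, ?_, hne⟩
  · have hcc : (starRingEnd ℂ) c * c = 1 := by
      rw [mul_comm, Complex.mul_conj, Complex.normSq_eq_norm_sq, hc]
      norm_num
    have e1 : (starRingEnd ℂ) u * v - I = (starRingEnd ℂ) (u - c) * v +
        (starRingEnd ℂ) c * (v - c * I) := by
      rw [map_sub]
      linear_combination I * hcc
    have h1 : ‖(starRingEnd ℂ) u * v - I‖ ≤ e * (1 + e) + e := by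
      rw [e1]
      refine (norm_add_le _ _).trans (add_le_add ?_ ?_)
      · rw [norm_mul, Complex.norm_conj]
        exact mul_le_mul hu n3 (norm_nonneg _) he0
      · rw [norm_mul, Complex.norm_conj, hc, one_mul]
        exact hv
    have h2 : |((starRingEnd ℂ) u * v).im - 1| ≤ e * (1 + e) + e := by
      have := Complex.abs_im_le_norm ((starRingEnd ℂ) u * v - I)
      rw [Complex.sub_im, Complex.I_im] at this
      exact this.trans h1
    have h3 : |‖u‖ ^ 2 - 1| ≤ 2 * e + e ^ 2 := by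
      rw [abs_le]
      constructor <;> nlinarith
    have h4 : th u v - 1 = ((((starRingEnd ℂ) u * v).im - 1) - (‖u‖ ^ 2 - 1)) / ‖u‖ ^ 2 := by
      unfold th
      field_simp
      ring
    rw [h4, abs_div, abs_of_pos (by positivity : 0 < ‖u‖ ^ 2), div_le_iff₀ (by positivity)]
    have h5 := abs_sub (((starRingEnd ℂ) u * v).im - 1) (‖u‖ ^ 2 - 1)
    have h6 : (99 / 100) ^ 2 ≤ ‖u‖ ^ 2 := pow_le_pow_left₀ (by norm_num) (by linarith) 2
    nlinarith
  · have e1 : u / (‖u‖ : ℂ) - c = (u - c) + u * ((1 / ‖u‖ - 1 : ℝ) : ℂ) := by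
      push_cast
      ring
    have h1 : ‖u * ((1 / ‖u‖ - 1 : ℝ) : ℂ)‖ ≤ e := by
      rw [norm_mul, Complex.norm_real, Real.norm_eq_abs]
      have e2 : ‖u‖ * |1 / ‖u‖ - 1| = |1 - ‖u‖| := by
        calc ‖u‖ * |1 / ‖u‖ - 1| = |‖u‖ * (1 / ‖u‖ - 1)| := by rw [abs_mul, abs_of_pos hpos]
          _ = |1 - ‖u‖| := by
            congr 1
            field_simp
      rw [e2, abs_le]
      constructor <;> linarith
    rw [e1]
    calc ‖(u - c) + u * ((1 / ‖u‖ - 1 : ℝ) : ℂ)‖ ≤ ‖u - c‖ + ‖u * ((1 / ‖u‖ - 1 : ℝ) : ℂ)‖ :=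
          norm_add_le _ _
      _ ≤ e + e := add_le_add hu h1
      _ = 2 * e := by ring

theorem rot_close {c d : ℂ} {e : ℝ} (h : ‖c - d‖ ≤ e) :
    ‖rot c (start 0) - rot d (start 0)‖ ≤ e := by
  rw [start_zero]
  simp only [rot, Prod.mk_sub_mk]
  rw [Prod.norm_def, Prod.norm_def, Prod.norm_def]
  simp only [mul_one, ← sub_mul, norm_mul, Complex.norm_I, znorm]
  simpa using h

/-! ### components -/

/-- the unstable direction -/
noncomputable def LL (g : ℂ) : E × E :=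
  ((g, zeta ^ 2 * g), (g / (Real.sqrt 2 : ℝ), zeta ^ 2 * g / (Real.sqrt 2 : ℝ)))

theorem fX_sub (x y : E) : fX (x - y) = fX x - fX y := by
  unfold fX
  simp only [Prod.fst_sub, Prod.snd_sub]
  ring

theorem fY_sub (x y : E) : fY (x - y) = fY x - fY y := by
  unfold fY
  simp only [Prod.fst_sub, Prod.snd_sub]
  ring

theorem fX_L1 (c g : ℂ) : fX (rot c (LL g)).1 = 0 := by
  unfold fX rot LL
  simp only
  rw [zconj]
  linear_combination (c * g * (zeta - 1) / 3) * zcube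

theorem fX_L2 (c g : ℂ) : fX (rot c (LL g)).2 = 0 := by
  unfold fX rot LL
  simp only
  rw [zconj]
  linear_combination (c * g / (Real.sqrt 2 : ℝ) * (zeta - 1) / 3) * zcube

theorem fY_L1 (c g : ℂ) : fY (rot c (LL g)).1 = c * g := by
  unfold fY rot LL
  simp only
  rw [zconj]
  linear_combination (c * g * (1 - zeta) / 3) * zcube - (c * g / 3) * zsum

theorem fY_L2 (c g : ℂ) : fY (rot c (LL g)).2 = c * g / (Real.sqrt 2 : ℝ) := by
  unfold fY rot LL
  simp only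
  rw [zconj]
  linear_combination (c * g / (Real.sqrt 2 : ℝ) * (1 - zeta) / 3) * zcube -
    (c * g / (Real.sqrt 2 : ℝ) / 3) * zsum

theorem Yp_sub (z w : E × E) : Yp (z - w) = Yp z - Yp w := by
  unfold Yp
  rw [Prod.fst_sub, Prod.snd_sub, fY_sub, fY_sub]
  ring

theorem Ym_sub (z w : E × E) : Ym (z - w) = Ym z - Ym w := by
  unfold Ym
  rw [Prod.fst_sub, Prod.snd_sub, fY_sub, fY_sub]
  ring

theorem Yp_L (c g : ℂ) : Yp (rot c (LL g)) = c * ((Real.sqrt 2 : ℝ) * g) := by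
  unfold Yp
  rw [fY_L1, fY_L2]
  have h : ((Real.sqrt 2 : ℝ) : ℂ) ≠ 0 := by
    rw [Ne, Complex.ofReal_eq_zero]
    positivity
  have h2 : ((Real.sqrt 2 : ℝ) : ℂ) ^ 2 = 2 := by
    rw [← Complex.ofReal_pow, Real.sq_sqrt (by norm_num)]
    norm_num
  field_simp
  linear_combination (-(c * g)) * h2

theorem Ym_L (c g : ℂ) : Ym (rot c (LL g)) = 0 := by
  unfold Ym
  rw [fY_L1, fY_L2, sub_self]

/-- the adapted norm does not see the unstable direction -/
theorem W2_sub_L (c d g : ℂ) (z : E × E) : W2 c (z - rot d (LL g)) = W2 c z := by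
  have h1 : Ym (z - rot d (LL g)) = Ym z := by rw [Ym_sub, Ym_L, sub_zero]
  have h2 : xx c (z - rot d (LL g)) = xx c z := by
    unfold xx
    rw [Prod.fst_sub, fX_sub, fX_L1, sub_zero]
  have h3 : xi c (z - rot d (LL g)) = xi c z := by
    unfold xi
    rw [Prod.fst_sub, Prod.snd_sub, fX_sub, fX_sub, fX_L1, fX_L2, sub_zero, sub_zero]
  have h4 : c1 c (z - rot d (LL g)) = c1 c z := by
    unfold c1
    rw [h2, h3]
  unfold W2
  rw [h1, h2, h3, h4]

theorem W2_zero (c : ℂ) : W2 c 0 = 0 := by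
  unfold W2 c1 xx xi Ym fX fY
  simp

theorem W2_L (c d g : ℂ) : W2 c (rot d (LL g)) = 0 := by
  have h := W2_sub_L c d (-g) 0
  have e : (0 : E × E) - rot d (LL (-g)) = rot d (LL g) := by
    unfold rot LL
    refine Prod.ext (Prod.ext ?_ ?_) (Prod.ext ?_ ?_)
    · simp
    · simp
    · simp only [Prod.snd_sub, Prod.fst_sub, Prod.snd_zero, Prod.fst_zero]
      ring
    · simp only [Prod.snd_sub, Prod.fst_sub, Prod.snd_zero, Prod.fst_zero]
      ring
  rw [e, W2_zero] at h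
  exact h

theorem W2_nonneg (c : ℂ) (z : E × E) : 0 ≤ W2 c z := by
  unfold W2
  positivity

theorem LL_norm (c g : ℂ) (hc : ‖c‖ = 1) : ‖rot c (LL g)‖ ≤ ‖g‖ := by
  have h2 : ‖((Real.sqrt 2 : ℝ) : ℂ)‖ = Real.sqrt 2 := by
    rw [Complex.norm_real, Real.norm_of_nonneg (Real.sqrt_nonneg _)]
  have h3 : 1 ≤ Real.sqrt 2 := by
    rw [Real.one_le_sqrt]
    norm_num
  have h4 : ‖g‖ / Real.sqrt 2 ≤ ‖g‖ := div_le_self (norm_nonneg _) h3
  unfold rot LL
  rw [Prod.norm_def, Prod.norm_def, Prod.norm_def]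
  simp only [norm_mul, norm_div, norm_pow, hc, znorm, h2, one_mul, one_pow]
  exact max_le (max_le le_rfl le_rfl) (max_le h4 h4)

/-- second order terms of `start g` -/
theorem start_expand : ∃ K : ℝ, 0 < K ∧ ∀ g : ℂ, ‖start g - start 0 - LL g‖ ≤ K * ‖g‖ ^ 2 := by
  refine ⟨(‖bb‖ + ‖cc‖) * (2 + 4 * ‖l0‖) + 1, by positivity, fun g => ?_⟩
  have hl : I + l0 = 1 / (Real.sqrt 2 : ℝ) := by
    unfold l0
    apply Complex.ext
    · simp
      have h := Real.mul_self_sqrt (show (0 : ℝ) ≤ 2 by norm_num)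
      have h2 : 0 < Real.sqrt 2 := Real.sqrt_pos.2 (by norm_num)
      rw [eq_div_iff (by norm_num), inv_mul_eq_iff_eq_mul₀ h2.ne']
      linarith
    · simp
  obtain ⟨p, hpd⟩ : ∃ p : ℂ, p = g * (starRingEnd ℂ) g := ⟨_, rfl⟩
  obtain ⟨q, hqd⟩ : ∃ q : ℂ, q = (starRingEnd ℂ) g ^ 2 := ⟨_, rfl⟩
  have hp : ‖p‖ = ‖g‖ ^ 2 := by
    rw [hpd, norm_mul, Complex.norm_conj]
    ring
  have hq : ‖q‖ = ‖g‖ ^ 2 := by
    rw [hqd, norm_pow, Complex.norm_conj]
  have e : start g - start 0 - LL g =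
      ((bb * p + cc * q, zeta * (bb * p + cc * zeta * q)),
       (I * (bb * p + cc * q) + (bb * ((l0 + (starRingEnd ℂ) l0) * p) +
          cc * (2 * (starRingEnd ℂ) l0 * q)),
        zeta * (I * (bb * p + cc * zeta * q) + (bb * ((l0 + (starRingEnd ℂ) l0) * p) +
          cc * zeta * (2 * (starRingEnd ℂ) l0 * q))))) := by
    rw [start_zero, hpd, hqd]
    unfold start hh hd LL
    refine Prod.ext (Prod.ext ?_ ?_) (Prod.ext ?_ ?_)
    · simp only [Prod.fst_sub, pow_zero, one_mul]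
      ring
    · simp only [Prod.fst_sub, Prod.snd_sub, pow_one]
      ring
    · simp only [Prod.fst_sub, Prod.snd_sub, pow_zero, one_mul]
      linear_combination g * hl
    · simp only [Prod.fst_sub, Prod.snd_sub, pow_one]
      linear_combination zeta ^ 2 * g * hl
  have hl1 : ‖l0 + (starRingEnd ℂ) l0‖ ≤ 2 * ‖l0‖ := by
    refine (norm_add_le _ _).trans ?_
    rw [Complex.norm_conj]
    linarith
  have hb : ∀ z : ℂ, ‖z‖ = 1 → ‖bb * p + cc * z * q‖ ≤ (‖bb‖ + ‖cc‖) * ‖g‖ ^ 2 := by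
    intro z hz
    refine (norm_add_le _ _).trans ?_
    rw [norm_mul, norm_mul, norm_mul, hp, hq, hz]
    apply le_of_eq
    ring
  have hd' : ∀ z : ℂ, ‖z‖ = 1 → ‖bb * ((l0 + (starRingEnd ℂ) l0) * p) +
      cc * z * (2 * (starRingEnd ℂ) l0 * q)‖ ≤ (‖bb‖ + ‖cc‖) * (2 * ‖l0‖) * ‖g‖ ^ 2 := by
    intro z hz
    refine (norm_add_le _ _).trans ?_
    rw [norm_mul, norm_mul, norm_mul (cc * z), norm_mul, norm_mul, norm_mul, hp, hq, hz,
      Complex.norm_conj]
    have h2 : ‖(2 : ℂ)‖ = 2 := by norm_num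
    rw [h2]
    have h3 : ‖bb‖ * (‖l0 + (starRingEnd ℂ) l0‖ * ‖g‖ ^ 2) ≤ ‖bb‖ * (2 * ‖l0‖ * ‖g‖ ^ 2) := by
      gcongr
    calc ‖bb‖ * (‖l0 + (starRingEnd ℂ) l0‖ * ‖g‖ ^ 2) + ‖cc‖ * 1 * (2 * ‖l0‖ * ‖g‖ ^ 2)
        ≤ ‖bb‖ * (2 * ‖l0‖ * ‖g‖ ^ 2) + ‖cc‖ * 1 * (2 * ‖l0‖ * ‖g‖ ^ 2) := by linarith
      _ = _ := by ring
  have h1 := hb 1 norm_one
  have h1' := hd' 1 norm_one
  rw [mul_one] at h1 h1'
  have hz := hb zeta znorm
  have hz' := hd' zeta znorm
  have hg : 0 ≤ ‖g‖ ^ 2 := by positivity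
  have hA : 0 ≤ (‖bb‖ + ‖cc‖) * ‖g‖ ^ 2 := by positivity
  have hB : 0 ≤ (‖bb‖ + ‖cc‖) * (2 * ‖l0‖) * ‖g‖ ^ 2 := by positivity
  have hfin : (‖bb‖ + ‖cc‖) * ‖g‖ ^ 2 + (‖bb‖ + ‖cc‖) * (2 * ‖l0‖) * ‖g‖ ^ 2 ≤
      ((‖bb‖ + ‖cc‖) * (2 + 4 * ‖l0‖) + 1) * ‖g‖ ^ 2 := by
    nlinarith
  rw [e, Prod.norm_def, Prod.norm_def, Prod.norm_def]
  simp only
  refine max_le (max_le ?_ ?_) (max_le ?_ ?_)
  · linarith
  · rw [norm_mul, znorm, one_mul]
    linarith
  · refine (norm_add_le _ _).trans ?_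
    rw [norm_mul, Complex.norm_I, one_mul]
    linarith
  · rw [norm_mul, znorm, one_mul]
    refine (norm_add_le _ _).trans ?_
    rw [norm_mul, Complex.norm_I, one_mul]
    linarith

end Pool.Agent.H3.LP.Ex
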