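import Mathlib

/-! LP-LIFT (project 3LP, MP_6e7c44_mp): every exit phase occurs. -/

set_option autoImplicit false

open Complex Filter Topology

namespace Pool.Agent.H3.LP

namespace Lift

/-- the logarithmic derivative, cut off -/
noncomputable def wt (r₀ : ℝ) (Z Z' : ℝ → ℝ → ℂ) (ψ t : ℝ) : ℂ :=
  Z' ψ (max t 0) * (starRingEnd ℂ) (Z ψ (max t 0)) / ((max (‖Z ψ (max t 0)‖ ^ 2) (r₀ ^ 2) : ℝ) : ℂ)

theorem wt_cont {r₀ : ℝ} (hr : 0 < r₀) {Z Z' : ℝ → ℝ → ℂ}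
    (hZ : ContinuousOn (fun p : ℝ × ℝ => Z p.1 p.2) (Set.univ ×ˢ Set.Ici 0))
    (hZ' : ContinuousOn (fun p : ℝ × ℝ => Z' p.1 p.2) (Set.univ ×ˢ Set.Ici 0)) :
    Continuous (Function.uncurry (wt r₀ Z Z')) := by
  have hmap : Continuous (fun p : ℝ × ℝ => (p.1, max p.2 0)) := by fun_prop
  have hmem : ∀ p : ℝ × ℝ, (p.1, max p.2 0) ∈ (Set.univ ×ˢ Set.Ici 0 : Set (ℝ × ℝ)) := fun p =>
    ⟨Set.mem_univ _, Set.mem_Ici.2 (le_max_right p.2 0)⟩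
  have h1 : Continuous (fun p : ℝ × ℝ => Z p.1 (max p.2 0)) :=
    hZ.comp_continuous hmap hmem
  have h2 : Continuous (fun p : ℝ × ℝ => Z' p.1 (max p.2 0)) :=
    hZ'.comp_continuous hmap hmem
  have h3 : Continuous (fun p : ℝ × ℝ =>
      ((max (‖Z p.1 (max p.2 0)‖ ^ 2) (r₀ ^ 2) : ℝ) : ℂ)) :=
    Complex.continuous_ofReal.comp ((h1.norm.pow 2).max continuous_const)
  have h4 : ∀ p : ℝ × ℝ, ((max (‖Z p.1 (max p.2 0)‖ ^ 2) (r₀ ^ 2) : ℝ) : ℂ) ≠ 0 := by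
    intro p
    rw [Ne, Complex.ofReal_eq_zero]
    have : 0 < max (‖Z p.1 (max p.2 0)‖ ^ 2) (r₀ ^ 2) := lt_max_of_lt_right (by positivity)
    exact this.ne'
  exact (h2.mul (Complex.continuous_conj.comp h1)).div h3 h4

theorem wt_mul {r₀ : ℝ} (hr : 0 < r₀) {Z Z' : ℝ → ℝ → ℂ} {ψ t : ℝ} (ht : 0 ≤ t)
    (hlow : r₀ ≤ ‖Z ψ t‖) : wt r₀ Z Z' ψ t * Z ψ t = Z' ψ t := by
  unfold wt
  rw [max_eq_left ht]
  have h1 : r₀ ^ 2 ≤ ‖Z ψ t‖ ^ 2 := pow_le_pow_left₀ hr.le hlow 2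
  rw [max_eq_left h1]
  have h2 : (starRingEnd ℂ) (Z ψ t) * Z ψ t = ((‖Z ψ t‖ ^ 2 : ℝ) : ℂ) := by
    rw [mul_comm, Complex.mul_conj, Complex.normSq_eq_norm_sq]
  have h3 : ((‖Z ψ t‖ ^ 2 : ℝ) : ℂ) ≠ 0 := by
    rw [Ne, Complex.ofReal_eq_zero]
    have : 0 < ‖Z ψ t‖ := lt_of_lt_of_le hr hlow
    positivity
  rw [div_mul_eq_mul_div, mul_assoc, h2, mul_div_assoc, div_self h3, mul_one]

end Lift

open Lift in
theorem lift {r₀ : ℝ} (hr : 0 < r₀) {Z Z' : ℝ → ℝ → ℂ} {T : ℝ → ℝ}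
    (hZ : ContinuousOn (fun p : ℝ × ℝ => Z p.1 p.2) (Set.univ ×ˢ Set.Ici 0))
    (hZ' : ContinuousOn (fun p : ℝ × ℝ => Z' p.1 p.2) (Set.univ ×ˢ Set.Ici 0))
    (hd : ∀ ψ t, 0 ≤ t → HasDerivAt (Z ψ) (Z' ψ t) t)
    (h0 : ∀ ψ : ℝ, Z ψ 0 = r₀ * cexp (I * ψ))
    (hper : ∀ ψ t, 0 ≤ t → Z (ψ + 2 * Real.pi) t = Z ψ t)
    (hper' : ∀ ψ t, 0 ≤ t → Z' (ψ + 2 * Real.pi) t = Z' ψ t) (hT : Continuous T)
    (hTper : ∀ ψ, T (ψ + 2 * Real.pi) = T ψ) (hT0 : ∀ ψ, 0 ≤ T ψ)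
    (hlow : ∀ ψ, ∀ t ∈ Set.Icc 0 (T ψ), r₀ ≤ ‖Z ψ t‖) (e : ℂ) (he : ‖e‖ = 1) :
    ∃ ψ, Z ψ (T ψ) = (‖Z ψ (T ψ)‖ : ℂ) * e := by
  have hwc := wt_cont hr hZ hZ'
  obtain ⟨w, hw⟩ : ∃ w, w = wt r₀ Z Z' := ⟨_, rfl⟩
  rw [← hw] at hwc
  have hwcψ : ∀ ψ, Continuous (w ψ) := fun ψ => hwc.comp (by fun_prop : Continuous fun t : ℝ => (ψ, t))
  -- the formula for `Z`
  have hform : ∀ ψ, Z ψ (T ψ) = r₀ * cexp (I * ψ + ∫ t in (0 : ℝ)..(T ψ), w ψ t) := by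
    intro ψ
    have hH : ∀ t ∈ Set.Icc 0 (T ψ),
        HasDerivAt (fun t => Z ψ t * cexp (-∫ s in (0 : ℝ)..t, w ψ s)) 0 t := by
      intro t ht
      have h1 : HasDerivAt (fun t => ∫ s in (0 : ℝ)..t, w ψ s) (w ψ t) t :=
        intervalIntegral.integral_hasDerivAt_right ((hwcψ ψ).intervalIntegrable _ _)
          (hwcψ ψ).aestronglyMeasurable.stronglyMeasurableAtFilter (hwcψ ψ).continuousAt
      have h2 := (hd ψ t ht.1).mul (h1.neg.cexp)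
      refine h2.congr_deriv ?_
      have h3 := wt_mul hr (Z := Z) (Z' := Z') ht.1 (hlow ψ t ht)
      rw [← hw] at h3
      rw [← h3]
      ring
    have hcont : ContinuousOn (fun t => Z ψ t * cexp (-∫ s in (0 : ℝ)..t, w ψ s))
        (Set.Icc 0 (T ψ)) := fun t ht => (hH t ht).continuousAt.continuousWithinAt
    have hconst := constant_of_has_deriv_right_zero hcont
      (fun t ht => (hH t ⟨ht.1, ht.2.le⟩).hasDerivWithinAt) (T ψ) ⟨hT0 ψ, le_rfl⟩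
    simp only [intervalIntegral.integral_same, neg_zero, Complex.exp_zero, mul_one] at hconst
    rw [h0] at hconst
    rw [Complex.exp_add, ← mul_assoc, ← hconst, mul_assoc, ← Complex.exp_add, neg_add_cancel,
      Complex.exp_zero, mul_one]
  -- the lifted phase
  obtain ⟨Λ, hΛ⟩ : ∃ Λ : ℝ → ℂ, Λ = fun ψ => I * ψ + ∫ t in (0 : ℝ)..(T ψ), w ψ t := ⟨_, rfl⟩
  have hΛc : Continuous Λ := by
    rw [hΛ]
    refine Continuous.add (by fun_prop) ?_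
    exact intervalIntegral.continuous_parametric_intervalIntegral_of_continuous hwc hT
  have hΛper : (Λ (2 * Real.pi)).im = (Λ 0).im + 2 * Real.pi := by
    have h1 : ∫ t in (0 : ℝ)..(T (0 + 2 * Real.pi)), w (0 + 2 * Real.pi) t =
        ∫ t in (0 : ℝ)..(T 0), w 0 t := by
      rw [hTper]
      congr 1
      funext t
      rw [hw]
      unfold wt
      rw [hper 0 (max t 0) (le_max_right _ _), hper' 0 (max t 0) (le_max_right _ _)]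
    rw [zero_add] at h1
    rw [hΛ]
    simp only
    rw [h1]
    simp only [Complex.add_im, Complex.mul_im, Complex.I_re, Complex.I_im, Complex.ofReal_re,
      Complex.ofReal_im, zero_mul, one_mul, zero_add]
    ring
  have hfc : Continuous (fun ψ => (Λ ψ).im) := Complex.continuous_im.comp hΛc
  have hpi := Real.two_pi_pos
  have hmem := toIcoMod_mem_Ico hpi ((Λ 0).im) (arg e)
  obtain ⟨ψ, -, hψ⟩ := intermediate_value_Icc (f := fun ψ => (Λ ψ).im) hpi.le hfc.continuousOn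
    (show toIcoMod hpi ((Λ 0).im) (arg e) ∈ Set.Icc ((Λ 0).im) ((Λ (2 * Real.pi)).im) by
      rw [hΛper]
      exact ⟨hmem.1, hmem.2.le⟩)
  refine ⟨ψ, ?_⟩
  have hZψ : Z ψ (T ψ) = r₀ * cexp (Λ ψ) := by
    rw [hform ψ, hΛ]
  have he2 : cexp (I * ((Λ ψ).im : ℝ)) = e := by
    have h1 : (Λ ψ).im = toIcoMod hpi ((Λ 0).im) (arg e) := hψ
    rw [h1, toIcoMod]
    simp only [zsmul_eq_mul, Complex.ofReal_sub, Complex.ofReal_mul, Complex.ofReal_intCast]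
    rw [mul_sub, Complex.exp_sub]
    have h2 : cexp (I * (((toIcoDiv hpi ((Λ 0).im) (arg e) : ℤ) : ℂ) *
        ((2 : ℝ) * (Real.pi : ℂ)))) = 1 := by
      have h3 : I * (((toIcoDiv hpi ((Λ 0).im) (arg e) : ℤ) : ℂ) * ((2 : ℝ) * (Real.pi : ℂ))) =
          ((toIcoDiv hpi ((Λ 0).im) (arg e) : ℤ) : ℂ) * (2 * Real.pi * I) := by
        push_cast
        ring
      rw [h3]
      exact Complex.exp_int_mul_two_pi_mul_I _
    rw [h2, div_one]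
    have h4 := Complex.norm_mul_exp_arg_mul_I e
    rw [he] at h4
    rw [mul_comm I]
    simpa using h4
  have hn : ‖Z ψ (T ψ)‖ = r₀ * Real.exp (Λ ψ).re := by
    rw [hZψ, norm_mul, Complex.norm_real, Real.norm_of_nonneg hr.le, Complex.norm_exp]
  rw [hn, hZψ]
  have h5 : Λ ψ = ((Λ ψ).re : ℂ) + I * ((Λ ψ).im : ℝ) := by
    rw [mul_comm I]
    exact (Complex.re_add_im (Λ ψ)).symm
  conv_lhs => rw [h5, Complex.exp_add, he2]
  push_cast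
  ring

end Pool.Agent.H3.LP
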