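import Pool.Agent.H3.LP.ExitA
import Pool.Agent.H3.LP.ExitB
import Pool.Agent.H3.LP.Lift

/-! LP-EXIT (project 3LP, MP_6e7c44_mp), part C: growth of the unstable component. -/

set_option autoImplicit false

open Complex Filter Topology Pool.Agent.H3.LG
open Pool.Agent.H99.TB hiding Ph acc phaseSpace IsSol

namespace Pool.Agent.H3.LP.Ex

/-- statement of LP-EQV -/
def P_EQV : Prop := ∀ (c : ℂ), ‖c‖ = 1 → ∀ z : E × E, ‖z‖ ≤ 20 * (UU z + Real.sqrt (W2 c z))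

/-- statement of LP-FLOW -/
def P_FLOW : Prop := ∀ (m : Fin 3 → ℝ), (∀ a, 0 ≤ m a) → ∃ Φ : (E × E) → ℝ → (E × E),
    (∀ z, Φ z 0 = z) ∧ (∀ z, Sol m (Φ z)) ∧ Continuous (fun p : (E × E) × ℝ => Φ p.1 p.2) ∧
    ∀ (γ : ℝ → E × E), Sol m γ → ∀ t, γ t = Φ (γ 0) t

/-- statement of LP-INEQ -/
def P_INEQ : Prop := ∀ (m : Fin 3 → ℝ) (η ε δ : ℝ), Near3 m η → 0 ≤ η → η ≤ 1 / 100 → 0 ≤ ε → ε ≤ 1 / 100 →
    0 ≤ δ → ∀ (y φ : ℝ → E × E) (c : ℝ → ℂ) (t θ : ℝ) (a : E), ‖c t‖ = 1 → HasDerivAt c (I * θ * c t) t →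
      |θ - 1| ≤ ε → HasDerivAt y ((y t).2, rf kep (m 0) (m 1) (m 2) (y t).1) t → HasDerivAt φ ((φ t).2, a) t →
      ‖a - rf kep (m 0) (m 1) (m 2) (φ t).1‖ ≤ δ → ‖y t - rot (c t) (start 0)‖ ≤ ε →
      ‖φ t - rot (c t) (start 0)‖ ≤ ε →
      (∃ u' : ℝ, HasDerivAt (fun s => UU (y s - φ s) ^ 2) u' t ∧
        Real.sqrt 2 * UU (y t - φ t) ^ 2 - (10 ^ 6 * (ε + η) * (UU (y t - φ t) + Real.sqrt (W2 (c t) (y t - φ t))) +
          10 * δ) * UU (y t - φ t) ≤ u' ∧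
        u' ≤ Real.sqrt 2 * UU (y t - φ t) ^ 2 + (10 ^ 6 * (ε + η) * (UU (y t - φ t) +
          Real.sqrt (W2 (c t) (y t - φ t))) + 10 * δ) * UU (y t - φ t)) ∧
      ∃ w' : ℝ, HasDerivAt (fun s => W2 (c s) (y s - φ s)) w' t ∧
        w' ≤ 2 / 5 * W2 (c t) (y t - φ t) + (10 ^ 6 * (ε + η) * (UU (y t - φ t) +
          Real.sqrt (W2 (c t) (y t - φ t))) + 10 * δ) * Real.sqrt (W2 (c t) (y t - φ t))

/-- the differential inequalities while the unstable component dominates -/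
theorem step (hE : P_EQV) (hI : P_INEQ) {m : Fin 3 → ℝ} {ε ρ : ℝ} (hm : Near3 m ε) (hρ : 0 < ρ)
    (hρ1 : ρ ≤ 1 / 10 ^ 11) (hε : 0 < ε) (hε1 : ε ≤ ρ / 100) {y φ : ℝ → E × E} (hy : Sol m y)
    (hφ : Sol m φ) {c : ℝ → ℂ} {t θ : ℝ} (hc : ‖c t‖ = 1) (hc' : HasDerivAt c (I * θ * c t) t)
    (hθ : |θ - 1| ≤ 5 * ε) (hcl : ‖φ t - rot (c t) (start 0)‖ ≤ 3 * ε)
    (ha : UU (y t - φ t) ^ 2 ≤ 4 * ρ ^ 2)
    (hb : W2 (c t) (y t - φ t) ≤ (10 ^ 9 * ρ) ^ 2 * UU (y t - φ t) ^ 2) :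
    ‖y t - rot (c t) (start 0)‖ ≤ 100 * ρ ∧
    ∃ a' b' : ℝ, HasDerivAt (fun s => UU (y s - φ s) ^ 2) a' t ∧
      HasDerivAt (fun s => W2 (c s) (y s - φ s)) b' t ∧ UU (y t - φ t) ^ 2 ≤ a' ∧
      (0 < UU (y t - φ t) ^ 2 → W2 (c t) (y t - φ t) = (10 ^ 9 * ρ) ^ 2 * UU (y t - φ t) ^ 2 →
        b' < (10 ^ 9 * ρ) ^ 2 * a') := by
  obtain ⟨D, hD⟩ : ∃ D, D = y t - φ t := ⟨_, rfl⟩
  obtain ⟨κ, hκ⟩ : ∃ κ, κ = 10 ^ 9 * ρ := ⟨_, rfl⟩
  have hκ0 : 0 < κ := by rw [hκ]; positivity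
  have hκ1 : κ ≤ 1 / 100 := by rw [hκ]; linarith
  have hU0 : 0 ≤ UU D := norm_nonneg _
  have hW0 : 0 ≤ Real.sqrt (W2 (c t) D) := Real.sqrt_nonneg _
  rw [← hD] at ha hb
  rw [← hκ] at hb ⊢
  rw [← hD]
  have hU2 : UU D ≤ 2 * ρ := by
    refine le_of_sq_le_sq ?_ (by positivity)
    nlinarith
  have hWκ : Real.sqrt (W2 (c t) D) ≤ κ * UU D := by
    rw [Real.sqrt_le_left (by positivity), mul_pow]
    exact hb
  have hWU : Real.sqrt (W2 (c t) D) ≤ UU D := by nlinarith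
  have hDn : ‖D‖ ≤ 80 * ρ := by
    have := hE (c t) hc D
    nlinarith
  have hyc : ‖y t - rot (c t) (start 0)‖ ≤ 100 * ρ := by
    have e : y t - rot (c t) (start 0) = D + (φ t - rot (c t) (start 0)) := by
      rw [hD]; abel
    rw [e]
    refine (norm_add_le _ _).trans ?_
    linarith
  have hρ2 : 100 * ρ ≤ 1 / 100 := by linarith
  have hφc : ‖φ t - rot (c t) (start 0)‖ ≤ 100 * ρ := by linarith
  refine ⟨hyc, ?_⟩
  have hy' : HasDerivAt y ((y t).2, rf kep (m 0) (m 1) (m 2) (y t).1) t := by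
    have := hy t
    rwa [fld_near hc (hyc.trans hρ2)] at this
  have hφ' : HasDerivAt φ ((φ t).2, rf kep (m 0) (m 1) (m 2) (φ t).1) t := by
    have := hφ t
    rwa [fld_near hc (hφc.trans hρ2)] at this
  obtain ⟨⟨a', h1, h2, -⟩, ⟨b', h3, h4⟩⟩ := hI m ε (100 * ρ) 0 hm hε.le (by linarith)
    (by positivity) hρ2 le_rfl y φ c t θ _ hc hc' (by linarith) hy' hφ' (by simp) hyc hφc
  rw [← hD] at h2 h4
  simp only [mul_zero, add_zero] at h2 h4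
  obtain ⟨U, hU⟩ : ∃ U, U = UU D := ⟨_, rfl⟩
  obtain ⟨W, hW⟩ : ∃ W, W = Real.sqrt (W2 (c t) D) := ⟨_, rfl⟩
  rw [← hU] at h2 h4 hU0 hU2 hWκ hWU ha ⊢
  rw [← hW] at h2 h4 hW0 hWκ hWU
  have hW2 : W2 (c t) D = W ^ 2 := by
    rw [hW, Real.sq_sqrt (W2_nonneg _ _)]
  rw [hW2] at h4 ⊢
  have hs2 : 141 / 100 ≤ Real.sqrt 2 := by
    rw [Real.le_sqrt (by norm_num) (by norm_num)]
    norm_num
  have hP : 10 ^ 6 * (100 * ρ + ε) ≤ 101 * 10 ^ 6 * ρ := by linarith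
  have hP0 : 0 ≤ 10 ^ 6 * (100 * ρ + ε) := by positivity
  have hlow : 14 / 10 * U ^ 2 ≤ a' := by
    refine le_trans ?_ h2
    have h5 : 10 ^ 6 * (100 * ρ + ε) * (U + W) * U ≤ 101 * 10 ^ 6 * ρ * (2 * U) * U := by
      gcongr
      linarith
    have h6 : 101 * 10 ^ 6 * ρ * (2 * U) * U = (202 * 10 ^ 6 * ρ) * U ^ 2 := by ring
    have h7 : (202 * 10 ^ 6 * ρ) ≤ 1 / 100 := by linarith
    have h8 : (202 * 10 ^ 6 * ρ) * U ^ 2 ≤ 1 / 100 * U ^ 2 :=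
      mul_le_mul_of_nonneg_right h7 (sq_nonneg U)
    have h9 : 141 / 100 * U ^ 2 ≤ Real.sqrt 2 * U ^ 2 := mul_le_mul_of_nonneg_right hs2 (sq_nonneg U)
    linarith
  refine ⟨a', b', h1, h3, by nlinarith [sq_nonneg U], ?_⟩
  intro hapos hbeq
  have hUpos : 0 < U := by
    rcases hU0.lt_or_eq with h | h
    · exact h
    · rw [← h] at hapos
      norm_num at hapos
  have hWeq : W = κ * U := by
    have h5 : W ^ 2 = (κ * U) ^ 2 := by rw [hbeq, mul_pow]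
    exact (pow_left_inj₀ hW0 (by positivity) (by norm_num)).1 h5
  have h6 : b' ≤ 2 / 5 * W ^ 2 + 101 * 10 ^ 6 * ρ * (2 * U) * W := by
    refine h4.trans ?_
    have h5 : 10 ^ 6 * (100 * ρ + ε) * (U + W) * W ≤ 101 * 10 ^ 6 * ρ * (2 * U) * W := by
      gcongr
      linarith
    linarith
  rw [hWeq] at h6
  have h7 : 202 * 10 ^ 6 * ρ < κ := by
    rw [hκ]
    linarith
  have h8 : 2 / 5 * (κ * U) ^ 2 + 101 * 10 ^ 6 * ρ * (2 * U) * (κ * U) =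
      κ * U ^ 2 * (2 / 5 * κ + 202 * 10 ^ 6 * ρ) := by ring
  rw [h8] at h6
  have h9 : κ * U ^ 2 * (2 / 5 * κ + 202 * 10 ^ 6 * ρ) < κ * U ^ 2 * (14 / 10 * κ) := by
    apply mul_lt_mul_of_pos_left _ (by positivity)
    linarith
  have h10 : κ * U ^ 2 * (14 / 10 * κ) = κ ^ 2 * (14 / 10 * U ^ 2) := by ring
  have h11 : κ ^ 2 * (14 / 10 * U ^ 2) ≤ κ ^ 2 * a' :=
    mul_le_mul_of_nonneg_left hlow (by positivity)
  linarith

/-- the growth lemma -/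
theorem grow_on {a b : ℝ → ℝ} {ρ κ : ℝ}
    (hstep : ∀ t, 0 ≤ t → a t ≤ 4 * ρ ^ 2 → b t ≤ κ ^ 2 * a t → ∃ a' b' : ℝ,
      HasDerivAt a a' t ∧ HasDerivAt b b' t ∧ a t ≤ a' ∧
      (0 < a t → b t = κ ^ 2 * a t → b' < κ ^ 2 * a')) (hapos : 0 ≤ a 0) {t : ℝ}
    (hle : ∀ s, 0 ≤ s → s ≤ t → a s ≤ 4 * ρ ^ 2 ∧ b s ≤ κ ^ 2 * a s) :
    ∀ s, 0 ≤ s → s ≤ t → a 0 * Real.exp s ≤ a s := by
  intro s hs hst
  have hder : ∀ r ∈ Set.Icc (0 : ℝ) s, ∃ a', HasDerivAt a a' r ∧ a r ≤ a' := by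
    intro r hr
    obtain ⟨h1, h2⟩ := hle r hr.1 (hr.2.trans hst)
    obtain ⟨a', b', h3, -, h4, -⟩ := hstep r hr.1 h1 h2
    exact ⟨a', h3, h4⟩
  have hmono : MonotoneOn (fun r => a r * Real.exp (-r)) (Set.Icc 0 s) := by
    apply monotoneOn_of_deriv_nonneg (convex_Icc 0 s)
    · intro r hr
      obtain ⟨a', h3, -⟩ := hder r hr
      exact (h3.continuousAt.mul (by fun_prop)).continuousWithinAt
    · intro r hr
      rw [interior_Icc] at hr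
      obtain ⟨a', h3, -⟩ := hder r ⟨hr.1.le, hr.2.le⟩
      have h5 : HasDerivAt (fun r => Real.exp (-r)) (Real.exp (-r) * (-1)) r :=
        ((hasDerivAt_id r).neg).exp
      exact (h3.mul h5).differentiableAt.differentiableWithinAt
    · intro r hr
      rw [interior_Icc] at hr
      obtain ⟨a', h3, h4⟩ := hder r ⟨hr.1.le, hr.2.le⟩
      have h5 : HasDerivAt (fun r => Real.exp (-r)) (Real.exp (-r) * (-1)) r :=
        ((hasDerivAt_id r).neg).exp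
      have h9 : HasDerivAt (fun r => a r * Real.exp (-r))
          (a' * Real.exp (-r) + a r * (Real.exp (-r) * (-1))) r := h3.mul h5
      rw [h9.deriv]
      have h6 : 0 < Real.exp (-r) := Real.exp_pos _
      nlinarith
  have h7 := hmono ⟨le_rfl, hs⟩ ⟨hs, le_rfl⟩ hs
  simp only [neg_zero, Real.exp_zero, mul_one] at h7
  have h8 : 0 < Real.exp s := Real.exp_pos s
  calc a 0 * Real.exp s ≤ (a s * Real.exp (-s)) * Real.exp s :=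
        mul_le_mul_of_nonneg_right h7 h8.le
    _ = a s := by rw [mul_assoc, ← Real.exp_add, neg_add_cancel, Real.exp_zero, mul_one]

/-- the unstable component exits -/
theorem exit_exists {a b : ℝ → ℝ} {ρ κ : ℝ}
    (hstep : ∀ t, 0 ≤ t → a t ≤ 4 * ρ ^ 2 → b t ≤ κ ^ 2 * a t → ∃ a' b' : ℝ,
      HasDerivAt a a' t ∧ HasDerivAt b b' t ∧ a t ≤ a' ∧
      (0 < a t → b t = κ ^ 2 * a t → b' < κ ^ 2 * a')) (hapos : 0 < a 0) :
    ∃ t, 0 ≤ t ∧ 0 ≤ max (a t - 2 * ρ ^ 2) (b t - κ ^ 2 * a t) := by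
  by_contra hcon
  push Not at hcon
  have h1 : ∀ t, 0 ≤ t → a t < 2 * ρ ^ 2 ∧ b t < κ ^ 2 * a t := by
    intro t ht
    have := hcon t ht
    rw [max_lt_iff] at this
    constructor <;> linarith
  have hρ : 0 < ρ ^ 2 := by
    have := (h1 0 le_rfl).1
    linarith
  have h2 : ∀ s, 0 ≤ s → a 0 * Real.exp s ≤ a s := fun s hs =>
    grow_on hstep hapos.le (t := s) (fun r hr _ => ⟨by linarith [(h1 r hr).1], (h1 r hr).2.le⟩) s hs le_rfl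
  have h3 := h2 (2 * ρ ^ 2 / a 0) (by positivity)
  have h4 := Real.add_one_le_exp (2 * ρ ^ 2 / a 0)
  have h5 := (h1 (2 * ρ ^ 2 / a 0) (by positivity)).1
  have h6 : a 0 * (2 * ρ ^ 2 / a 0 + 1) ≤ a 0 * Real.exp (2 * ρ ^ 2 / a 0) :=
    mul_le_mul_of_nonneg_left h4 hapos.le
  have h7 : a 0 * (2 * ρ ^ 2 / a 0 + 1) = 2 * ρ ^ 2 + a 0 := by
    field_simp
  linarith

/-- the situation at the exit time -/
theorem exit_at {a b : ℝ → ℝ} {ρ κ : ℝ}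
    (hstep : ∀ t, 0 ≤ t → a t ≤ 4 * ρ ^ 2 → b t ≤ κ ^ 2 * a t → ∃ a' b' : ℝ,
      HasDerivAt a a' t ∧ HasDerivAt b b' t ∧ a t ≤ a' ∧
      (0 < a t → b t = κ ^ 2 * a t → b' < κ ^ 2 * a')) (hapos : 0 < a 0) {t : ℝ} (ht : 0 < t)
    (h0 : max (a t - 2 * ρ ^ 2) (b t - κ ^ 2 * a t) = 0)
    (hneg : ∀ s, 0 ≤ s → s < t → max (a s - 2 * ρ ^ 2) (b s - κ ^ 2 * a s) < 0) :
    (∀ s, 0 ≤ s → s ≤ t → a s ≤ 2 * ρ ^ 2 ∧ b s ≤ κ ^ 2 * a s ∧ a 0 ≤ a s) ∧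
      a t = 2 * ρ ^ 2 ∧ b t < κ ^ 2 * a t := by
  have h1 : ∀ s, 0 ≤ s → s ≤ t → a s ≤ 2 * ρ ^ 2 ∧ b s ≤ κ ^ 2 * a s := by
    intro s hs hst
    rcases hst.lt_or_eq with h | h
    · have := hneg s hs h
      rw [max_lt_iff] at this
      constructor <;> linarith
    · rw [h]
      have := h0.le
      rw [max_le_iff] at this
      constructor <;> linarith
  have h2 : ∀ s, 0 ≤ s → s ≤ t → a 0 ≤ a s := by
    intro s hs hst
    have h3 := grow_on hstep hapos.le (t := t)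
      (fun r hr hrt => ⟨by nlinarith [(h1 r hr hrt).1, sq_nonneg ρ], (h1 r hr hrt).2⟩) s hs hst
    have h4 : 1 ≤ Real.exp s := Real.one_le_exp hs
    nlinarith
  refine ⟨fun s hs hst => ⟨(h1 s hs hst).1, (h1 s hs hst).2, h2 s hs hst⟩, ?_⟩
  have hlt : b t < κ ^ 2 * a t := by
    rcases (h1 t ht.le le_rfl).2.lt_or_eq with h | h
    · exact h
    · exfalso
      obtain ⟨a', b', h3, h4, -, h6⟩ := hstep t ht.le
        (by nlinarith [(h1 t ht.le le_rfl).1, sq_nonneg ρ]) h.le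
      have hat : 0 < a t := lt_of_lt_of_le hapos (h2 t ht.le le_rfl)
      have h7 : HasDerivAt (fun s => b s - κ ^ 2 * a s) (b' - κ ^ 2 * a') t :=
        h4.sub (h3.const_mul _)
      have h8 := deriv_nonneg_left h7 ht (by linarith) (fun s hs hst => by
        have := hneg s hs hst
        rw [max_lt_iff] at this
        exact this.2)
      linarith [h6 hat h]
  refine ⟨?_, hlt⟩
  rcases le_total (a t - 2 * ρ ^ 2) (b t - κ ^ 2 * a t) with h | h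
  · rw [max_eq_right h] at h0
    linarith
  · rw [max_eq_left h] at h0
    linarith

end Pool.Agent.H3.LP.Ex
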