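import Pool.Agent.H3.LP.ExitC
import Pool.Agent.H3.LP.Flow
import Pool.Agent.H3.LP.Eqv

/-! LP-EXIT (project 3LP, MP_6e7c44_mp), part D: assembly. -/

set_option autoImplicit false

open Complex Filter Topology Pool.Agent.H3.LG
open Pool.Agent.H99.TB hiding Ph acc phaseSpace IsSol

namespace Pool.Agent.H3.LP.Ex

theorem Yp_cont : Continuous Yp := by
  unfold Yp fY
  fun_prop

theorem W2_cont : Continuous (fun p : ℂ × (E × E) => W2 p.1 p.2) := by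
  unfold W2 c1 xx xi Ym fX fY
  fun_prop

theorem Yp_deriv {γ : ℝ → E × E} {γ' : E × E} {t : ℝ} (h : HasDerivAt γ γ' t) :
    HasDerivAt (fun s => Yp (γ s)) (Yp γ') t := by
  have h1 : HasDerivAt (fun s => (γ s).1.1) γ'.1.1 t := h.fst.fst
  have h2 : HasDerivAt (fun s => (γ s).1.2) γ'.1.2 t := h.fst.snd
  have h3 : HasDerivAt (fun s => (γ s).2.1) γ'.2.1 t := h.snd.fst
  have h4 : HasDerivAt (fun s => (γ s).2.2) γ'.2.2 t := h.snd.snd
  unfold Yp fY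
  exact (((h3.add (h4.const_mul zeta)).sub ((h3.add h4).const_mul _)).div_const 3).add
    ((((h1.add (h2.const_mul zeta)).sub ((h1.add h2).const_mul _)).div_const 3).div_const _)

theorem conj_deriv {c : ℝ → ℂ} {c' : ℂ} {t : ℝ} (h : HasDerivAt c c' t) :
    HasDerivAt (fun s => (starRingEnd ℂ) (c s)) ((starRingEnd ℂ) c') t := h.star

theorem first_unique {h : ℝ → ℝ} {T1 T2 : ℝ} (h1 : 0 < T1) (h2 : 0 < T2) (h3 : h T1 = 0)
    (h4 : h T2 = 0) (h5 : ∀ s, 0 ≤ s → s < T1 → h s < 0) (h6 : ∀ s, 0 ≤ s → s < T2 → h s < 0) :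
    T1 = T2 := by
  rcases lt_trichotomy T1 T2 with h | h | h
  · have := h6 T1 h1.le h
    linarith
  · exact h
  · have := h5 T2 h2.le h
    linarith

theorem exit_of (hI : P_INEQ) :
    ∃ C ρ₀ : ℝ, 0 < C ∧ 0 < ρ₀ ∧ ∀ ρ : ℝ, 0 < ρ → ρ ≤ ρ₀ → ∃ ε : ℝ, 0 < ε ∧ ∀ m : Fin 3 → ℝ, Near3 m ε →
    ∀ φ : ℝ → E × E, Sol m φ → (∀ t, 0 ≤ t → ∃ c : ℂ, ‖c‖ = 1 ∧ ‖φ t - rot c (start 0)‖ ≤ ε) →
    ∀ g : ℂ, ‖g‖ = ρ → ∀ δ : ℝ, 0 < δ → ∃ y₀ : E × E, ‖y₀ - φ 0‖ ≤ δ ∧ ∀ y : ℝ → E × E, Sol m y → y 0 = y₀ →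
      ∃ T : ℝ, 0 ≤ T ∧ (∀ t ∈ Set.Icc 0 T, ∃ c : ℂ, ‖c‖ = 1 ∧ ‖y t - rot c (start 0)‖ ≤ 1 / 100) ∧
        ∃ c : ℂ, ‖c‖ = 1 ∧ ‖y T - rot c (start g)‖ ≤ C * ρ ^ 2 := by
  have hE : P_EQV := fun c hc z => le_UW hc z
  obtain ⟨K, hK0, hK⟩ := start_expand
  refine ⟨K + 10 ^ 11, 1 / 10 ^ 11, by positivity, by positivity, fun ρ hρ hρ1 => ?_⟩
  obtain ⟨ε, hεd⟩ : ∃ ε, ε = ρ ^ 2 / 10 := ⟨_, rfl⟩
  have hε : 0 < ε := by rw [hεd]; positivity
  have hε1 : ε ≤ ρ / 100 := by rw [hεd]; nlinarith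
  have hε2 : ε ≤ 1 / 1000 := by linarith
  refine ⟨ε, hε, fun m hm φ hφ hcl g hg δ hδ => ?_⟩
  have hm0 : ∀ a, 0 ≤ m a := by
    intro a
    have := (abs_le.1 (hm.2 a)).1
    linarith
  obtain ⟨Φ, hΦ0, hΦs, hΦc, hΦu⟩ := flow hm0
  have hφc : Continuous φ := continuous_iff_continuousAt.2 fun t => (hφ t).continuousAt
  -- the frame
  obtain ⟨c, hcd⟩ : ∃ c : ℝ → ℂ, c = fun t => (φ t).1.1 / (‖(φ t).1.1‖ : ℂ) := ⟨_, rfl⟩
  obtain ⟨θ, hθd⟩ : ∃ θ : ℝ → ℝ, θ = fun t => th (φ t).1.1 (φ t).2.1 := ⟨_, rfl⟩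
  have hfr : ∀ t, 0 ≤ t → ‖c t‖ = 1 ∧ |θ t - 1| ≤ 5 * ε ∧ ‖φ t - rot (c t) (start 0)‖ ≤ 3 * ε ∧
      (φ t).1.1 ≠ 0 ∧ HasDerivAt c (I * θ t * c t) t := by
    intro t ht
    obtain ⟨d, hd, hdc⟩ := hcl t ht
    obtain ⟨n1, -, n3, -⟩ := near_bounds hdc
    obtain ⟨f1, f2, f3⟩ := frame_close hd (by linarith) n1 n3
    have hcn : ‖c t‖ = 1 := by
      rw [hcd]
      simp only
      rw [norm_div, Complex.norm_real, norm_norm, div_self (norm_ne_zero_iff.2 f3)]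
    have hu' : HasDerivAt (fun s => (φ s).1.1) (φ t).2.1 t := by
      have h1 := (hφ t).fst.fst
      rw [fld_near hd (hdc.trans (by linarith))] at h1
      exact h1
    refine ⟨hcn, ?_, ?_, f3, ?_⟩
    · rw [hθd]
      exact f1
    · have e : φ t - rot (c t) (start 0) = (φ t - rot d (start 0)) +
          (rot d (start 0) - rot (c t) (start 0)) := by abel
      rw [e]
      refine (norm_add_le _ _).trans ?_
      have h2 : ‖rot d (start 0) - rot (c t) (start 0)‖ ≤ 2 * ε := by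
        apply rot_close
        rw [norm_sub_rev, hcd]
        exact f2
      linarith
    · rw [hcd, hθd]
      exact frame_deriv hu' f3
  have hcc : ContinuousOn c (Set.Ici 0) := fun t ht =>
    (hfr t ht).2.2.2.2.continuousAt.continuousWithinAt
  have hθc : ContinuousOn θ (Set.Ici 0) := by
    rw [hθd]
    unfold th
    refine ContinuousOn.div ?_ ?_ ?_
    · exact Continuous.continuousOn (by fun_prop)
    · exact Continuous.continuousOn (by fun_prop)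
    · intro t ht
      have := (hfr t ht).2.2.2.1
      exact pow_ne_zero 2 (norm_ne_zero_iff.2 this)
  -- the perturbation
  obtain ⟨r₀, hr₀d⟩ : ∃ r₀, r₀ = min δ (ρ / 2) := ⟨_, rfl⟩
  have hr₀ : 0 < r₀ := by rw [hr₀d]; exact lt_min hδ (by positivity)
  have hr₀δ : r₀ ≤ δ := by rw [hr₀d]; exact min_le_left _ _
  have hr₀ρ : r₀ ≤ ρ / 2 := by rw [hr₀d]; exact min_le_right _ _
  have hs2 : 0 < Real.sqrt 2 := Real.sqrt_pos.2 (by norm_num)
  have hs2c : ((Real.sqrt 2 : ℝ) : ℂ) ≠ 0 := by exact_mod_cast hs2.ne'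
  obtain ⟨D0, hD0d⟩ : ∃ D0 : ℝ → E × E, D0 = fun ψ : ℝ =>
      rot (c 0) (LL ((r₀ : ℂ) * cexp (I * ψ) / (Real.sqrt 2 : ℝ))) := ⟨_, rfl⟩
  have hD0c : Continuous D0 := by
    rw [hD0d]
    unfold rot LL
    fun_prop
  have hD0per : ∀ ψ, D0 (ψ + 2 * Real.pi) = D0 ψ := by
    intro ψ
    have h1 : cexp (I * ((ψ + 2 * Real.pi : ℝ) : ℂ)) = cexp (I * ψ) := by
      have h2 : I * ((ψ + 2 * Real.pi : ℝ) : ℂ) = I * ψ + 2 * Real.pi * I := by
        push_cast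
        ring
      rw [h2, Complex.exp_add, Complex.exp_two_pi_mul_I, mul_one]
    rw [hD0d]
    simp only [h1]
  have hen : ∀ ψ : ℝ, ‖cexp (I * ψ)‖ = 1 := fun ψ => by
    rw [mul_comm, Complex.norm_exp_ofReal_mul_I]
  have hD0n : ∀ ψ, ‖D0 ψ‖ ≤ δ := by
    intro ψ
    rw [hD0d]
    refine (LL_norm _ _ (hfr 0 le_rfl).1).trans ?_
    rw [norm_div, norm_mul, hen, Complex.norm_real, Complex.norm_real, mul_one,
      Real.norm_of_nonneg hr₀.le, Real.norm_of_nonneg hs2.le]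
    refine (div_le_self hr₀.le ?_).trans hr₀δ
    rw [Real.one_le_sqrt]
    norm_num
  have hYD0 : ∀ ψ : ℝ, Yp (D0 ψ) = c 0 * ((r₀ : ℂ) * cexp (I * ψ)) := by
    intro ψ
    rw [hD0d]
    simp only
    rw [Yp_L, mul_div_cancel₀ _ hs2c]
  obtain ⟨D, hDd⟩ : ∃ D : ℝ → ℝ → E × E, D = fun ψ t => Φ (φ 0 + D0 ψ) t - φ t := ⟨_, rfl⟩
  have hDc : Continuous (fun p : ℝ × ℝ => D p.1 p.2) := by
    rw [hDd]
    refine Continuous.sub ?_ (hφc.comp continuous_snd)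
    exact hΦc.comp ((continuous_const.add (hD0c.comp continuous_fst)).prodMk continuous_snd)
  have hDzero : ∀ ψ, D ψ 0 = D0 ψ := by
    intro ψ
    rw [hDd]
    simp only
    rw [hΦ0, add_sub_cancel_left]
  have hDper : ∀ ψ t, D (ψ + 2 * Real.pi) t = D ψ t := by
    intro ψ t
    rw [hDd]
    simp only
    rw [hD0per]
  obtain ⟨κ, hκ⟩ : ∃ κ, κ = 10 ^ 9 * ρ := ⟨_, rfl⟩
  -- the step
  have hst : ∀ ψ t, 0 ≤ t → UU (D ψ t) ^ 2 ≤ 4 * ρ ^ 2 →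
      W2 (c t) (D ψ t) ≤ κ ^ 2 * UU (D ψ t) ^ 2 →
      ‖Φ (φ 0 + D0 ψ) t - rot (c t) (start 0)‖ ≤ 100 * ρ ∧
      ∃ a' b' : ℝ, HasDerivAt (fun s => UU (D ψ s) ^ 2) a' t ∧
        HasDerivAt (fun s => W2 (c s) (D ψ s)) b' t ∧ UU (D ψ t) ^ 2 ≤ a' ∧
        (0 < UU (D ψ t) ^ 2 → W2 (c t) (D ψ t) = κ ^ 2 * UU (D ψ t) ^ 2 → b' < κ ^ 2 * a') := by
    intro ψ t ht ha hb
    obtain ⟨f1, f2, f3, -, f5⟩ := hfr t ht
    rw [hDd] at ha hb ⊢
    rw [hκ] at hb ⊢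
    exact step hE hI hm hρ hρ1 hε hε1 (hΦs _) hφ f1 f5 f2 f3 ha hb
  have ha0 : ∀ ψ, UU (D ψ 0) ^ 2 = r₀ ^ 2 := by
    intro ψ
    unfold UU
    rw [hDzero, hYD0, norm_mul, norm_mul, hen, (hfr 0 le_rfl).1, Complex.norm_real,
      Real.norm_of_nonneg hr₀.le]
    ring
  have hb0 : ∀ ψ, W2 (c 0) (D ψ 0) = 0 := by
    intro ψ
    rw [hDzero, hD0d]
    exact W2_L _ _ _
  have hκ0 : 0 < κ := by rw [hκ]; positivity
  -- the exit function
  obtain ⟨H, hHd⟩ : ∃ H : ℝ → ℝ → ℝ, H = fun ψ t =>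
      max (UU (D ψ t) ^ 2 - 2 * ρ ^ 2) (W2 (c t) (D ψ t) - κ ^ 2 * UU (D ψ t) ^ 2) := ⟨_, rfl⟩
  have hHc : Continuous (Function.uncurry fun ψ t => H ψ (max t 0)) := by
    rw [hHd]
    have hm1 : Continuous (fun p : ℝ × ℝ => D p.1 (max p.2 0)) :=
      hDc.comp (by fun_prop : Continuous fun p : ℝ × ℝ => (p.1, max p.2 0))
    have hc1 : Continuous (fun p : ℝ × ℝ => c (max p.2 0)) := by
      refine hcc.comp_continuous (by fun_prop) ?_
      intro p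
      exact Set.mem_Ici.2 (le_max_right _ _)
    have hU1 : Continuous (fun p : ℝ × ℝ => UU (D p.1 (max p.2 0)) ^ 2) :=
      ((Yp_cont.comp hm1).norm).pow 2
    have hW1 : Continuous (fun p : ℝ × ℝ => W2 (c (max p.2 0)) (D p.1 (max p.2 0))) := by
      have hW1' := W2_cont.comp (hc1.prodMk hm1)
      exact hW1'
    exact (hU1.sub continuous_const).max (hW1.sub (continuous_const.mul hU1))
  have hstep' : ∀ ψ, ∀ t, 0 ≤ t → (fun s => UU (D ψ s) ^ 2) t ≤ 4 * ρ ^ 2 →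
      (fun s => W2 (c s) (D ψ s)) t ≤ κ ^ 2 * (fun s => UU (D ψ s) ^ 2) t →
      ∃ a' b' : ℝ, HasDerivAt (fun s => UU (D ψ s) ^ 2) a' t ∧
        HasDerivAt (fun s => W2 (c s) (D ψ s)) b' t ∧ (fun s => UU (D ψ s) ^ 2) t ≤ a' ∧
        (0 < (fun s => UU (D ψ s) ^ 2) t → (fun s => W2 (c s) (D ψ s)) t =
          κ ^ 2 * (fun s => UU (D ψ s) ^ 2) t → b' < κ ^ 2 * a') := fun ψ t ht h1 h2 =>
    (hst ψ t ht h1 h2).2
  have hap : ∀ ψ, 0 < (fun s => UU (D ψ s) ^ 2) 0 := by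
    intro ψ
    simp only [ha0]
    positivity
  have hat : ∀ ψ t, 0 < t → H ψ t = 0 → (∀ s, 0 ≤ s → s < t → H ψ s < 0) →
      (∀ s, 0 ≤ s → s ≤ t → UU (D ψ s) ^ 2 ≤ 2 * ρ ^ 2 ∧
        W2 (c s) (D ψ s) ≤ κ ^ 2 * UU (D ψ s) ^ 2 ∧ UU (D ψ 0) ^ 2 ≤ UU (D ψ s) ^ 2) ∧
      UU (D ψ t) ^ 2 = 2 * ρ ^ 2 ∧ W2 (c t) (D ψ t) < κ ^ 2 * UU (D ψ t) ^ 2 := by
    intro ψ t ht h0 hneg
    rw [hHd] at h0 hneg
    exact exit_at (a := fun s => UU (D ψ s) ^ 2) (b := fun s => W2 (c s) (D ψ s))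
      (hstep' ψ) (hap ψ) ht h0 hneg
  obtain ⟨T, hTc, hT⟩ := hit (h := fun ψ t => H ψ (max t 0)) hHc
    (by
      intro ψ
      rw [hHd]
      simp only [max_self, ha0, hb0]
      refine max_lt ?_ ?_
      · nlinarith
      · have : 0 < κ ^ 2 * r₀ ^ 2 := by positivity
        linarith)
    (by
      intro ψ
      obtain ⟨t, ht, h1⟩ := exit_exists (a := fun s => UU (D ψ s) ^ 2)
        (b := fun s => W2 (c s) (D ψ s)) (hstep' ψ) (hap ψ)
      refine ⟨t, ht, ?_⟩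
      rw [hHd]
      simp only [max_eq_left ht]
      exact h1)
    (by
      intro ψ t ht h0 hneg e he
      have hneg' : ∀ s, 0 ≤ s → s < t → H ψ s < 0 := by
        intro s hs hst'
        have := hneg s hs hst'
        simp only [max_eq_left hs] at this
        exact this
      simp only [max_eq_left ht.le] at h0
      obtain ⟨h1, h2, h3⟩ := hat ψ t ht h0 hneg'
      obtain ⟨-, a', b', h4, -, h5, -⟩ := hst ψ t ht.le (by nlinarith) h3.le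
      have ha' : 0 < a' := lt_of_lt_of_le (by rw [h2]; positivity) h5
      obtain ⟨s, hs1, hs2, hs3⟩ := pos_right h4 ha' he
      refine ⟨s, hs1, hs2, ?_⟩
      have hs0 : 0 ≤ s := ht.le.trans hs1.le
      simp only [max_eq_left hs0]
      rw [hHd]
      refine lt_max_of_lt_left ?_
      rw [h2] at hs3
      linarith)
  have hT1 : ∀ ψ, 0 < T ψ := fun ψ => (hT ψ).1
  have hT2 : ∀ ψ, H ψ (T ψ) = 0 := by
    intro ψ
    have := (hT ψ).2.1
    simp only [max_eq_left (hT1 ψ).le] at this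
    exact this
  have hT3 : ∀ ψ s, 0 ≤ s → s < T ψ → H ψ s < 0 := by
    intro ψ s hs hsT
    have := (hT ψ).2.2 s hs hsT
    simp only [max_eq_left hs] at this
    exact this
  have hHper : ∀ ψ, H (ψ + 2 * Real.pi) = H ψ := by
    intro ψ
    rw [hHd]
    funext t
    simp only [hDper]
  have hTper : ∀ ψ, T (ψ + 2 * Real.pi) = T ψ := by
    intro ψ
    refine first_unique (h := H ψ) (hT1 _) (hT1 _) ?_ (hT2 ψ) ?_ (hT3 ψ)
    · rw [← hHper]; exact hT2 _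
    · rw [← hHper]; exact hT3 _
  -- the phase
  obtain ⟨Z, hZd⟩ : ∃ Z : ℝ → ℝ → ℂ, Z = fun ψ t => (starRingEnd ℂ) (c t) * Yp (D ψ t) := ⟨_, rfl⟩
  obtain ⟨D', hD'd⟩ : ∃ D' : ℝ → ℝ → E × E, D' = fun ψ t =>
      fld (1 / 100) 32 (m 0) (m 1) (m 2) (Φ (φ 0 + D0 ψ) t) -
        fld (1 / 100) 32 (m 0) (m 1) (m 2) (φ t) := ⟨_, rfl⟩
  have hD'c : Continuous (fun p : ℝ × ℝ => D' p.1 p.2) := by
    rw [hD'd]
    have h0 : Continuous (fun p : ℝ × ℝ => φ p.2) := hφc.comp continuous_snd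
    have h1 := (fld_cont (m0 := m 0) (m1 := m 1) (m2 := m 2)).comp h0
    have h2 : Continuous (fun p : ℝ × ℝ => Φ (φ 0 + D0 p.1) p.2) :=
      hΦc.comp ((continuous_const.add (hD0c.comp continuous_fst)).prodMk continuous_snd)
    have h3 := (fld_cont (m0 := m 0) (m1 := m 1) (m2 := m 2)).comp h2
    exact h3.sub h1
  obtain ⟨Z', hZ'd⟩ : ∃ Z' : ℝ → ℝ → ℂ, Z' = fun ψ t =>
      (starRingEnd ℂ) (I * θ t * c t) * Yp (D ψ t) + (starRingEnd ℂ) (c t) * Yp (D' ψ t) := ⟨_, rfl⟩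
  have hsnd : ∀ f : ℝ → ℂ, ContinuousOn f (Set.Ici 0) →
      ContinuousOn (fun p : ℝ × ℝ => f p.2) (Set.univ ×ˢ Set.Ici 0) := by
    intro f hf
    exact hf.comp continuous_snd.continuousOn (fun p hp => hp.2)
  have hZn : ∀ ψ t, 0 ≤ t → ‖Z ψ t‖ = UU (D ψ t) := by
    intro ψ t ht
    rw [hZd]
    simp only
    rw [norm_mul, Complex.norm_conj, (hfr t ht).1, one_mul]
    rfl
  obtain ⟨ψ, hψ⟩ := lift (r₀ := r₀) hr₀ (Z := Z) (Z' := Z') (T := T)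
    (by
      rw [hZd]
      have hYc : ContinuousOn (fun p : ℝ × ℝ => Yp (D p.1 p.2)) (Set.univ ×ˢ Set.Ici 0) := by
        have h := Yp_cont.comp hDc
        exact h.continuousOn
      refine ContinuousOn.mul ?_ hYc
      have h := Complex.continuous_conj.comp_continuousOn (hsnd c hcc)
      exact h)
    (by
      rw [hZ'd]
      have hYc : ContinuousOn (fun p : ℝ × ℝ => Yp (D p.1 p.2)) (Set.univ ×ˢ Set.Ici 0) := by
        have h := Yp_cont.comp hDc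
        exact h.continuousOn
      have hY'c : ContinuousOn (fun p : ℝ × ℝ => Yp (D' p.1 p.2)) (Set.univ ×ˢ Set.Ici 0) := by
        have h := Yp_cont.comp hD'c
        exact h.continuousOn
      refine ContinuousOn.add (ContinuousOn.mul ?_ hYc) (ContinuousOn.mul ?_ hY'c)
      · have h0 : ContinuousOn (fun t => I * θ t * c t) (Set.Ici 0) :=
          (continuousOn_const.mul (Complex.continuous_ofReal.comp_continuousOn hθc)).mul hcc
        have h := Complex.continuous_conj.comp_continuousOn (hsnd (fun t => I * θ t * c t) h0)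
        exact h
      · have h := Complex.continuous_conj.comp_continuousOn (hsnd c hcc)
        exact h)
    (by
      intro ψ t ht
      rw [hZd, hZ'd]
      have h1 := conj_deriv (hfr t ht).2.2.2.2
      have h2 : HasDerivAt (D ψ) (D' ψ t) t := by
        rw [hDd, hD'd]
        exact (hΦs _ t).sub (hφ t)
      exact h1.mul (Yp_deriv h2))
    (by
      intro ψ
      rw [hZd]
      simp only
      rw [hDzero, hYD0, ← mul_assoc]
      have h1 : (starRingEnd ℂ) (c 0) * c 0 = 1 := by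
        rw [mul_comm, Complex.mul_conj, Complex.normSq_eq_norm_sq, (hfr 0 le_rfl).1]
        norm_num
      rw [h1, one_mul])
    (by
      intro ψ t _
      rw [hZd]
      simp only [hDper])
    (by
      intro ψ t _
      rw [hZ'd, hD'd]
      simp only [hDper, hD0per])
    hTc hTper (fun ψ => (hT1 ψ).le)
    (by
      intro ψ t ht
      rw [hZn ψ t ht.1]
      have h1 := ((hat ψ (T ψ) (hT1 ψ) (hT2 ψ) (hT3 ψ)).1 t ht.1 ht.2).2.2
      rw [ha0] at h1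
      exact le_of_sq_le_sq h1 (norm_nonneg _))
    (g / (ρ : ℂ))
    (by rw [norm_div, hg, Complex.norm_real, Real.norm_of_nonneg hρ.le, div_self hρ.ne'])
  obtain ⟨h1, h2, h3⟩ := hat ψ (T ψ) (hT1 ψ) (hT2 ψ) (hT3 ψ)
  refine ⟨φ 0 + D0 ψ, ?_, ?_⟩
  · rw [add_sub_cancel_left]
    exact hD0n ψ
  intro y hy hy0
  have hyΦ : ∀ t, y t = Φ (φ 0 + D0 ψ) t := by
    intro t
    rw [hΦu y hy t, hy0]
  refine ⟨T ψ, (hT1 ψ).le, ?_, c (T ψ), (hfr _ (hT1 ψ).le).1, ?_⟩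
  · intro t ht
    obtain ⟨g1, g2, -⟩ := h1 t ht.1 ht.2
    refine ⟨c t, (hfr t ht.1).1, ?_⟩
    rw [hyΦ]
    refine ((hst ψ t ht.1 (by nlinarith [sq_nonneg ρ]) g2).1).trans ?_
    linarith
  · have hTp := (hT1 ψ).le
    obtain ⟨f1, -, f3, -, -⟩ := hfr (T ψ) hTp
    have hUT : UU (D ψ (T ψ)) = Real.sqrt 2 * ρ := by
      have h4 : UU (D ψ (T ψ)) ^ 2 = (Real.sqrt 2 * ρ) ^ 2 := by
        rw [h2, mul_pow, Real.sq_sqrt (by norm_num)]
      exact (pow_left_inj₀ (norm_nonneg _) (by positivity) (by norm_num)).1 h4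
    have hYT : Yp (D ψ (T ψ)) = c (T ψ) * ((Real.sqrt 2 : ℝ) * g) := by
      rw [hZn ψ _ hTp, hUT, hZd] at hψ
      simp only at hψ
      have h5 : c (T ψ) * (starRingEnd ℂ) (c (T ψ)) = 1 := by
        rw [Complex.mul_conj, Complex.normSq_eq_norm_sq, f1]
        norm_num
      have h6 : ((Real.sqrt 2 * ρ : ℝ) : ℂ) * (g / (ρ : ℂ)) = (Real.sqrt 2 : ℝ) * g := by
        have : (ρ : ℂ) ≠ 0 := by exact_mod_cast hρ.ne'
        push_cast
        field_simp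
      rw [h6] at hψ
      calc Yp (D ψ (T ψ)) = (c (T ψ) * (starRingEnd ℂ) (c (T ψ))) * Yp (D ψ (T ψ)) := by
            rw [h5, one_mul]
        _ = c (T ψ) * ((starRingEnd ℂ) (c (T ψ)) * Yp (D ψ (T ψ))) := by ring
        _ = _ := by rw [hψ]
    have hV1 : ‖D ψ (T ψ) - rot (c (T ψ)) (LL g)‖ ≤ 4 * 10 ^ 10 * ρ ^ 2 := by
      refine (hE (c (T ψ)) f1 _).trans ?_
      have h7 : UU (D ψ (T ψ) - rot (c (T ψ)) (LL g)) = 0 := by
        unfold UU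
        rw [Yp_sub, Yp_L, hYT, sub_self, norm_zero]
      have h8 : Real.sqrt (W2 (c (T ψ)) (D ψ (T ψ) - rot (c (T ψ)) (LL g))) ≤ 2 * κ * ρ := by
        rw [W2_sub_L, Real.sqrt_le_left (by positivity)]
        refine h3.le.trans ?_
        rw [h2]
        have : κ ^ 2 * (2 * ρ ^ 2) ≤ κ ^ 2 * (4 * ρ ^ 2) := by gcongr; norm_num
        calc κ ^ 2 * (2 * ρ ^ 2) ≤ κ ^ 2 * (4 * ρ ^ 2) := this
          _ = (2 * κ * ρ) ^ 2 := by ring
      rw [h7, zero_add]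
      calc 20 * Real.sqrt (W2 (c (T ψ)) (D ψ (T ψ) - rot (c (T ψ)) (LL g))) ≤ 20 * (2 * κ * ρ) := by
            linarith
        _ = 4 * 10 ^ 10 * ρ ^ 2 := by
            rw [hκ]
            ring
    have hV2 : ‖rot (c (T ψ)) (start g - start 0 - LL g)‖ ≤ K * ρ ^ 2 := by
      rw [Sy.rot_norm f1, ← hg]
      exact hK g
    have e : y (T ψ) - rot (c (T ψ)) (start g) = (D ψ (T ψ) - rot (c (T ψ)) (LL g)) +
        (φ (T ψ) - rot (c (T ψ)) (start 0)) - rot (c (T ψ)) (start g - start 0 - LL g) := by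
      rw [Sy.rot_sub, Sy.rot_sub, hyΦ, hDd]
      simp only
      abel
    rw [e]
    refine (norm_sub_le _ _).trans ?_
    have h9 := norm_add_le (D ψ (T ψ) - rot (c (T ψ)) (LL g)) (φ (T ψ) - rot (c (T ψ)) (start 0))
    have h10 : 3 * ε ≤ ρ ^ 2 := by
      rw [hεd]
      nlinarith [sq_nonneg ρ]
    nlinarith [sq_nonneg ρ]

end Pool.Agent.H3.LP.Ex
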