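import Pool.Agent.H99.TB.Ker

/-! Elliptic solutions of the Kepler problem, by the eccentric anomaly. -/

set_option autoImplicit false

open Complex

namespace Pool.Agent.H3.LP.Kep

/-- the eccentric anomaly -/
theorem exists_anomaly {n e : ℝ} (hn : 0 < n) (he : 0 ≤ e) (he1 : e < 1) :
    ∃ E : ℝ → ℝ, E 0 = 0 ∧ ∀ t, HasDerivAt E (n / (1 - e * Real.cos (E t))) t := by
  have hpos : ∀ x : ℝ, 1 - e ≤ 1 - e * Real.cos x := by
    intro x; nlinarith [Real.cos_le_one x]
  have h1e : 0 < 1 - e := by linarith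
  set f : ℝ → ℝ := fun x => n / (1 - e * Real.cos x) with hf
  have hlip : LipschitzWith (⟨n / (1 - e) ^ 2, by positivity⟩ : NNReal) f := by
    refine LipschitzWith.of_dist_le_mul fun x y => ?_
    rw [Real.dist_eq, Real.dist_eq]
    change |n / (1 - e * Real.cos x) - n / (1 - e * Real.cos y)| ≤ n / (1 - e) ^ 2 * |x - y|
    have hx := hpos x
    have hy := hpos y
    have hx0 : 0 < 1 - e * Real.cos x := by linarith
    have hy0 : 0 < 1 - e * Real.cos y := by linarith
    have e1 : n / (1 - e * Real.cos x) - n / (1 - e * Real.cos y) =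
        n * e * (Real.cos x - Real.cos y) / ((1 - e * Real.cos x) * (1 - e * Real.cos y)) := by
      field_simp; ring
    rw [e1, abs_div, abs_of_pos (mul_pos hx0 hy0), abs_mul, abs_of_nonneg (by positivity : 0 ≤ n * e)]
    have hc : |Real.cos x - Real.cos y| ≤ |x - y| := by
      have := Real.abs_cos_sub_cos_le x y
      exact this
    have h3 : n * e * |Real.cos x - Real.cos y| ≤ n * |x - y| := by
      have : n * e * |Real.cos x - Real.cos y| ≤ n * 1 * |x - y| := by gcongr
      linarith
    calc n * e * |Real.cos x - Real.cos y| / ((1 - e * Real.cos x) * (1 - e * Real.cos y))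
        ≤ n * |x - y| / ((1 - e) * (1 - e)) := by gcongr
      _ = n / (1 - e) ^ 2 * |x - y| := by rw [sq]; ring
  have hbd : ∀ x, ‖f x‖ ≤ (⟨n / (1 - e), by positivity⟩ : NNReal) := by
    intro x
    change |n / (1 - e * Real.cos x)| ≤ n / (1 - e)
    have hx := hpos x
    rw [abs_of_pos (div_pos hn (by linarith))]
    gcongr
  exact Pool.Agent.H99.TB.exists_solution hlip hbd 0

theorem aux1 {a n e c s : ℝ} (hq : 1 - e * c ≠ 0) (h : s ^ 2 + c ^ 2 = 1) :
    -(a * (c * (n / (1 - e * c))) * (n / (1 - e * c)) + a * s * (-(e * s * (n / (1 - e * c)) ^ 2) / (1 - e * c))) =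
      -(n ^ 2 / (1 - e * c) ^ 3) * (a * (c - e)) := by
  obtain ⟨q, hqd⟩ : ∃ q, q = 1 - e * c := ⟨_, rfl⟩
  rw [← hqd] at hq ⊢
  have e1 : -(a * (c * (n / q)) * (n / q) + a * s * (-(e * s * (n / q) ^ 2) / q)) =
      -(n ^ 2 / q ^ 3) * (a * (c * q - e * s ^ 2)) := by
    field_simp
    ring
  rw [e1, hqd]
  have : c * (1 - e * c) - e * s ^ 2 = c - e := by linear_combination (-e) * h
  rw [this]

theorem aux2 {a n e c s r : ℝ} (hq : 1 - e * c ≠ 0) :
    a * r * -(s * (n / (1 - e * c))) * (n / (1 - e * c)) + a * r * c * (-(e * s * (n / (1 - e * c)) ^ 2) / (1 - e * c)) =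
      -(n ^ 2 / (1 - e * c) ^ 3) * (a * r * s) := by
  obtain ⟨q, hqd⟩ : ∃ q, q = 1 - e * c := ⟨_, rfl⟩
  rw [← hqd] at hq ⊢
  have e1 : a * r * -(s * (n / q)) * (n / q) + a * r * c * (-(e * s * (n / q) ^ 2) / q) =
      -(n ^ 2 / q ^ 3) * (a * r * s * (q + e * c)) := by
    field_simp
    ring
  rw [e1, hqd]
  ring

/-- Elliptic Kepler motion with semi-major axis `a` and eccentricity `e`. -/
theorem kepler {k a e : ℝ} (hk : 0 < k) (ha : 0 < a) (he : 0 ≤ e) (he1 : e < 1) :
    ∃ z z' : ℝ → ℂ, z 0 = (a * (1 - e) : ℝ) ∧ (∀ t, HasDerivAt z (z' t) t) ∧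
      (∀ t, HasDerivAt z' (-((k / ‖z t‖ ^ 3 : ℝ) : ℂ) * z t) t) ∧
      (∀ t, a * (1 - e) ≤ ‖z t‖ ∧ ‖z t‖ ≤ a * (1 + e)) ∧ (∃ T : ℝ, 0 < T ∧ ∀ t, z (t + T) = z t) ∧
      ∃ t, ‖z t‖ = a * (1 + e) := by
  set n : ℝ := Real.sqrt (k / a ^ 3) with hn
  have hn0 : 0 < n := Real.sqrt_pos.2 (by positivity)
  have hn2 : n ^ 2 * a ^ 3 = k := by
    rw [hn, Real.sq_sqrt (by positivity)]; field_simp
  obtain ⟨E, hE0, hE⟩ := exists_anomaly hn0 he he1
  set s : ℝ := Real.sqrt (1 - e ^ 2) with hs
  have hs2 : s ^ 2 = 1 - e ^ 2 := Real.sq_sqrt (by nlinarith)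
  have hpos : ∀ x : ℝ, 0 < 1 - e * Real.cos x := by
    intro x; nlinarith [Real.cos_le_one x]
  -- the position
  set z : ℝ → ℂ := fun t => ((a * (Real.cos (E t) - e) : ℝ) : ℂ) + ((a * s * Real.sin (E t) : ℝ) : ℂ) * I with hz
  set E' : ℝ → ℝ := fun t => n / (1 - e * Real.cos (E t)) with hE'
  set z' : ℝ → ℂ := fun t => ((-(a * Real.sin (E t) * E' t) : ℝ) : ℂ) + ((a * s * Real.cos (E t) * E' t : ℝ) : ℂ) * I
    with hz'
  have hnorm : ∀ t, ‖z t‖ = a * (1 - e * Real.cos (E t)) := by
    intro t
    have h1 : ‖z t‖ ^ 2 = (a * (1 - e * Real.cos (E t))) ^ 2 := by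
      rw [← Complex.normSq_eq_norm_sq, Complex.normSq_apply]
      simp only [hz, Complex.add_re, Complex.ofReal_re, Complex.mul_re, Complex.I_re, mul_zero, Complex.ofReal_im,
        Complex.I_im, mul_one, sub_self, add_zero, Complex.add_im, Complex.mul_im, zero_add]
      have h2 := Real.sin_sq_add_cos_sq (E t)
      linear_combination (a ^ 2 * Real.sin (E t) ^ 2) * hs2 + (a ^ 2 * (1 - e ^ 2)) * h2
    have h3 : 0 ≤ a * (1 - e * Real.cos (E t)) := by have := hpos (E t); positivity
    exact (sq_eq_sq₀ (norm_nonneg _) h3).1 h1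
  have hEs : ∀ t, HasDerivAt (fun t => Real.sin (E t)) (Real.cos (E t) * E' t) t := fun t => (hE t).sin
  have hEc : ∀ t, HasDerivAt (fun t => Real.cos (E t)) (-(Real.sin (E t) * E' t)) t := fun t => by
    have := (hE t).cos
    refine this.congr_deriv ?_
    ring
  have hE'd : ∀ t, HasDerivAt E' (-(e * Real.sin (E t) * E' t ^ 2) / (1 - e * Real.cos (E t))) t := by
    intro t
    have h1 : HasDerivAt (fun t => 1 - e * Real.cos (E t)) (-(e * -(Real.sin (E t) * E' t))) t := by
      have := ((hEc t).const_mul e).const_sub 1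
      exact this
    have h2 := (hasDerivAt_const t n).div h1 (hpos (E t)).ne'
    refine h2.congr_deriv ?_
    have h3 := (hpos (E t)).ne'
    simp only [hE']
    field_simp
    ring
  have hzd : ∀ t, HasDerivAt z (z' t) t := by
    intro t
    have h1 := ((hEc t).sub_const e).const_mul a
    have h2 := (hEs t).const_mul (a * s)
    have h3 := h1.ofReal_comp.add (h2.ofReal_comp.mul_const I)
    refine h3.congr_deriv ?_
    simp only [hz']
    push_cast
    ring
  refine ⟨z, z', ?_, hzd, ?_, ?_, ?_, ?_⟩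
  · simp only [hz, hE0, Real.cos_zero, Real.sin_zero, mul_zero, Complex.ofReal_zero, zero_mul, add_zero]
  · intro t
    have h1 := (((hEs t).const_mul a).mul (hE'd t)).neg
    have h2 := ((hEc t).const_mul (a * s)).mul (hE'd t)
    have h3 := h1.ofReal_comp.add (h2.ofReal_comp.mul_const I)
    refine h3.congr_deriv ?_
    have hp := hpos (E t)
    have hp' := hp.ne'
    have hcs := Real.sin_sq_add_cos_sq (E t)
    have hk3 : k / ‖z t‖ ^ 3 = n ^ 2 / (1 - e * Real.cos (E t)) ^ 3 := by
      rw [hnorm t, ← hn2]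
      field_simp
    rw [hk3]
    have hEt : E' t = n / (1 - e * Real.cos (E t)) := rfl
    have hzt : z t = ((a * (Real.cos (E t) - e) : ℝ) : ℂ) + ((a * s * Real.sin (E t) : ℝ) : ℂ) * I := rfl
    rw [hzt, hEt]
    have e1 : -(a * (Real.cos (E t) * (n / (1 - e * Real.cos (E t)))) * (n / (1 - e * Real.cos (E t))) +
        a * Real.sin (E t) * (-(e * Real.sin (E t) * (n / (1 - e * Real.cos (E t))) ^ 2) / (1 - e * Real.cos (E t)))) =
        -(n ^ 2 / (1 - e * Real.cos (E t)) ^ 3) * (a * (Real.cos (E t) - e)) :=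
      aux1 hp' hcs
    have e2 : a * s * -(Real.sin (E t) * (n / (1 - e * Real.cos (E t)))) * (n / (1 - e * Real.cos (E t))) +
        a * s * Real.cos (E t) * (-(e * Real.sin (E t) * (n / (1 - e * Real.cos (E t))) ^ 2) / (1 - e * Real.cos (E t))) =
        -(n ^ 2 / (1 - e * Real.cos (E t)) ^ 3) * (a * s * Real.sin (E t)) :=
      aux2 hp'
    rw [e1, e2]
    push_cast
    ring
  · intro t
    rw [hnorm]
    have h1 := Real.cos_le_one (E t)
    have h2 := Real.neg_one_le_cos (E t)
    constructor
    · have : 1 - e ≤ 1 - e * Real.cos (E t) := by nlinarith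
      gcongr
    · have : 1 - e * Real.cos (E t) ≤ 1 + e := by nlinarith
      gcongr
  · -- periodicity: E - e sin E = n t
    have hF : ∀ t, E t - e * Real.sin (E t) = n * t := by
      intro t
      have hd : ∀ t, HasDerivAt (fun t => E t - e * Real.sin (E t) - n * t) 0 t := by
        intro t
        have h1 := ((hE t).sub ((hEs t).const_mul e)).sub ((hasDerivAt_id t).const_mul n)
        refine h1.congr_deriv ?_
        have hp' := (hpos (E t)).ne'
        simp only [hE']
        field_simp
        ring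
      have h2 := is_const_of_deriv_eq_zero (f := fun t => E t - e * Real.sin (E t) - n * t)
        (fun t => (hd t).differentiableAt) (fun t => (hd t).deriv) t 0
      simp only [hE0, Real.sin_zero, mul_zero, sub_zero] at h2
      linarith
    have hinj : ∀ x y : ℝ, x - e * Real.sin x = y - e * Real.sin y → x = y := by
      intro x y h
      have h1 : |x - y| = e * |Real.sin x - Real.sin y| := by
        have : x - y = e * (Real.sin x - Real.sin y) := by linarith
        rw [this, abs_mul, abs_of_nonneg he]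
      have h2 : |Real.sin x - Real.sin y| ≤ |x - y| := Real.abs_sin_sub_sin_le x y
      have h3 : |x - y| ≤ e * |x - y| := by
        conv_lhs => rw [h1]
        gcongr
      have h4 : |x - y| = 0 := by
        by_contra hne
        have : 0 < |x - y| := lt_of_le_of_ne (abs_nonneg _) (Ne.symm hne)
        nlinarith
      exact sub_eq_zero.1 (abs_eq_zero.1 h4)
    refine ⟨2 * Real.pi / n, by positivity, fun t => ?_⟩
    have h5 : E (t + 2 * Real.pi / n) = E t + 2 * Real.pi := by
      apply hinj
      rw [hF, Real.sin_add_two_pi]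
      have := hF t
      have h6 : n * (t + 2 * Real.pi / n) = n * t + 2 * Real.pi := by field_simp
      rw [h6]
      linarith
    simp only [hz, h5, Real.sin_add_two_pi, Real.cos_add_two_pi]
  · -- apocentre
    have hF : ∀ t, E t - e * Real.sin (E t) = n * t := by
      intro t
      have hd : ∀ t, HasDerivAt (fun t => E t - e * Real.sin (E t) - n * t) 0 t := by
        intro t
        have h1 := ((hE t).sub ((hEs t).const_mul e)).sub ((hasDerivAt_id t).const_mul n)
        refine h1.congr_deriv ?_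
        have hp' := (hpos (E t)).ne'
        simp only [hE']
        field_simp
        ring
      have h2 := is_const_of_deriv_eq_zero (f := fun t => E t - e * Real.sin (E t) - n * t)
        (fun t => (hd t).differentiableAt) (fun t => (hd t).deriv) t 0
      simp only [hE0, Real.sin_zero, mul_zero, sub_zero] at h2
      linarith
    have hinj : ∀ x y : ℝ, x - e * Real.sin x = y - e * Real.sin y → x = y := by
      intro x y h
      have h1 : |x - y| = e * |Real.sin x - Real.sin y| := by
        have : x - y = e * (Real.sin x - Real.sin y) := by linarith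
        rw [this, abs_mul, abs_of_nonneg he]
      have h2 : |Real.sin x - Real.sin y| ≤ |x - y| := Real.abs_sin_sub_sin_le x y
      have h3 : |x - y| ≤ e * |x - y| := by
        conv_lhs => rw [h1]
        gcongr
      have h4 : |x - y| = 0 := by
        by_contra hne
        have : 0 < |x - y| := lt_of_le_of_ne (abs_nonneg _) (Ne.symm hne)
        nlinarith
      exact sub_eq_zero.1 (abs_eq_zero.1 h4)
    refine ⟨Real.pi / n, ?_⟩
    have h5 : E (Real.pi / n) = Real.pi := by
      apply hinj
      rw [hF, Real.sin_pi]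
      field_simp
      ring
    rw [hnorm, h5, Real.cos_pi]
    ring

end Pool.Agent.H3.LP.Kep
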