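import Pool.Agent.H3.LP.Defs
import Pool.Agent.H3.LG.Wrap

/-! Project 3LP, LP-WRAP (helper91): all solutions with nearly constant mutual distances, every body can escape.
`S_CLOSE` is the statement of LP-CLOSE and `S_BASE` that of `Base2`. -/

set_option autoImplicit false

open Complex Filter Topology Pool.Agent.H3.LG
open Pool.Agent.H99.TB hiding Ph acc phaseSpace IsSol
open Pool.Agent.H3.TB (Ph acc phaseSpace IsSol IsForwardSol IsRelPeriodic)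

namespace Pool.Agent.H3.LP.Wr

/-- the statement of LP-CLOSE -/
def S_CLOSE : Prop := ∀ ε' : ℝ, 0 < ε' → ∃ ε : ℝ, 0 < ε ∧ ∀ m : Fin 3 → ℝ, Near3 m ε → ∀ z : ℝ → E × E,
    (∀ t, 0 ≤ t → HasDerivAt z ((z t).2, rf kep (m 0) (m 1) (m 2) (z t).1) t) →
    (∀ t, 0 ≤ t → |‖(z t).1.1‖ - 1| ≤ ε ∧ |‖(z t).1.2‖ - 1| ≤ ε ∧ |‖(z t).1.1 + (z t).1.2‖ - 1| ≤ ε) →
    ∃ s : ℂ, (s = I ∨ s = -I) ∧ ∃ ζ : ℂ, (ζ = zeta ∨ ζ = (starRingEnd ℂ) zeta) ∧ ∀ t, 0 ≤ t →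
      ∃ c : ℂ, ‖c‖ = 1 ∧ ‖z t - ((c, c * ζ), (s * c, s * (c * ζ)))‖ ≤ ε'

/-- the conclusion of `Base2` for `m` -/
def BaseAt (ε : ℝ) (m : Fin 3 → ℝ) : Prop :=
  ∀ x : ℝ → Ph, (∀ t, 0 ≤ t → x t ∈ phaseSpace m ∧ HasDerivAt x ((x t).2, acc m (x t).1) t) →
    (∀ t, 0 ≤ t → ∃ c : ℂ, ‖c‖ = 1 ∧ ‖rel (x t) - rot c (start 0)‖ ≤ ε) →
    ∀ U ∈ 𝓝 (x 0), ∃ y : ℝ → Ph, y 0 ∈ U ∧ IsForwardSol m y ∧
      ∀ R : ℝ, ∃ t₀ : ℝ, ∀ t, t₀ ≤ t → R ≤ ‖(y t).1 2 - (y t).1 0‖ ∧ R ≤ ‖(y t).1 2 - (y t).1 1‖ ∧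
        ‖(y t).1 1 - (y t).1 0‖ ≤ 2

/-- the statement `Base2` -/
def S_BASE : Prop := ∃ ε : ℝ, 0 < ε ∧ ∀ m : Fin 3 → ℝ, Near3 m ε → (∀ a, 0 < m a) ∧
  ∀ x : ℝ → Ph, (∀ t, 0 ≤ t → x t ∈ phaseSpace m ∧ HasDerivAt x ((x t).2, acc m (x t).1) t) →
    (∀ t, 0 ≤ t → ∃ c : ℂ, ‖c‖ = 1 ∧ ‖rel (x t) - rot c (start 0)‖ ≤ ε) →
    ∀ U ∈ 𝓝 (x 0), ∃ y : ℝ → Ph, y 0 ∈ U ∧ IsForwardSol m y ∧
      ∀ R : ℝ, ∃ t₀ : ℝ, ∀ t, t₀ ≤ t → R ≤ ‖(y t).1 2 - (y t).1 0‖ ∧ R ≤ ‖(y t).1 2 - (y t).1 1‖ ∧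
        ‖(y t).1 1 - (y t).1 0‖ ≤ 2

/-! ### relative accelerations -/

theorem acc_kep (m : Fin 3 → ℝ) (q : Fin 3 → ℂ) (a : Fin 3) :
    acc m q a = ∑ b ∈ Finset.univ.erase a, (m b : ℂ) * kep (q b - q a) := by
  rw [acc]
  refine Finset.sum_congr rfl fun b _ => ?_
  rw [kep]
  push_cast
  ring

theorem acc0 (m : Fin 3 → ℝ) (q : Fin 3 → ℂ) :
    acc m q 0 = (m 1 : ℂ) * kep (q 1 - q 0) + (m 2 : ℂ) * kep (q 2 - q 0) := by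
  rw [acc_kep]
  have : Finset.univ.erase (0 : Fin 3) = {1, 2} := by decide
  rw [this, Finset.sum_pair (by decide)]

theorem acc1 (m : Fin 3 → ℝ) (q : Fin 3 → ℂ) :
    acc m q 1 = (m 0 : ℂ) * kep (q 0 - q 1) + (m 2 : ℂ) * kep (q 2 - q 1) := by
  rw [acc_kep]
  have : Finset.univ.erase (1 : Fin 3) = {0, 2} := by decide
  rw [this, Finset.sum_pair (by decide)]

theorem acc2 (m : Fin 3 → ℝ) (q : Fin 3 → ℂ) :
    acc m q 2 = (m 0 : ℂ) * kep (q 0 - q 2) + (m 1 : ℂ) * kep (q 1 - q 2) := by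
  rw [acc_kep]
  have : Finset.univ.erase (2 : Fin 3) = {0, 1} := by decide
  rw [this, Finset.sum_pair (by decide)]

theorem kneg (x y : ℂ) : kep (x - y) = -kep (y - x) := by
  rw [← neg_sub y x, kep, kep, norm_neg, mul_neg]

theorem rel_deriv {m : Fin 3 → ℝ} {x : ℝ → Ph} {t : ℝ} (h : HasDerivAt x ((x t).2, acc m (x t).1) t) :
    HasDerivAt (fun s => rel (x s)) ((rel (x t)).2, rf kep (m 0) (m 1) (m 2) (rel (x t)).1) t := by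
  have h1 : HasDerivAt (fun s : ℝ => (x s).1) (x t).2 t := by
    have := (ContinuousLinearMap.fst ℝ (Fin 3 → ℂ) (Fin 3 → ℂ)).hasFDerivAt.comp_hasDerivAt t h
    exact this
  have h2 : HasDerivAt (fun s : ℝ => (x s).2) (acc m (x t).1) t := by
    have := (ContinuousLinearMap.snd ℝ (Fin 3 → ℂ) (Fin 3 → ℂ)).hasFDerivAt.comp_hasDerivAt t h
    exact this
  rw [hasDerivAt_pi] at h1 h2
  have h3 := (((h1 1).sub (h1 0)).prodMk ((h1 2).sub (h1 1))).prodMk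
    (((h2 1).sub (h2 0)).prodMk ((h2 2).sub (h2 1)))
  refine h3.congr_deriv ?_
  refine Prod.ext rfl (Prod.ext ?_ ?_)
  · simp only [rel, rf]
    rw [acc0, acc1, kneg ((x t).1 0) ((x t).1 1),
      show (x t).1 1 - (x t).1 0 + ((x t).1 2 - (x t).1 1) = (x t).1 2 - (x t).1 0 by ring]
    push_cast
    ring
  · simp only [rel, rf]
    rw [acc2, acc1, kneg ((x t).1 0) ((x t).1 1), kneg ((x t).1 0) ((x t).1 2), kneg ((x t).1 1) ((x t).1 2),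
      show (x t).1 1 - (x t).1 0 + ((x t).1 2 - (x t).1 1) = (x t).1 2 - (x t).1 0 by ring]
    push_cast
    ring

/-! ### relabelling, scaling, reflection -/

/-- the relabelled and rescaled solution -/
noncomputable def Tf (τ : Equiv.Perm (Fin 3)) (L : ℂ →L[ℝ] ℂ) (κ : ℝ) (x : ℝ → Ph) (t : ℝ) : Ph :=
  (fun i => L ((x (κ * t)).1 (τ i)), fun i => κ • L ((x (κ * t)).2 (τ i)))

lemma tf_forward {m m' : Fin 3 → ℝ} {D κ : ℝ} (hD : 0 < D) (hκ : 0 < κ)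
    (hm : ∀ i, m i = D ^ 3 * κ ^ 2 * m' i) (τ : Equiv.Perm (Fin 3)) (L : ℂ →L[ℝ] ℂ) (hL : ∀ x, ‖L x‖ = D * ‖x‖)
    {y : ℝ → Ph} (hy : IsForwardSol m' y) : IsForwardSol (fun i => m (τ i)) (Tf τ L κ y) :=
  Wrap.forward_perm τ (Pool.Agent.H3.TB.Wrap.forward_scale hD hκ hm L hL hy)

lemma core2 {ε : ℝ} (hB : ∀ m : Fin 3 → ℝ, Near3 m ε → (∀ a, 0 < m a) ∧ BaseAt ε m)
    {m : Fin 3 → ℝ} (hM : 0 < m 0 + m 1 + m 2)
    (hm : ∀ i, |m i - (m 0 + m 1 + m 2) / 3| ≤ ε * (m 0 + m 1 + m 2))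
    {x : ℝ → Ph} (hx : IsForwardSol m x) {D κ : ℝ} (hD : 0 < D) (hκ : 0 < κ)
    (hDM : D ^ 3 * κ ^ 2 = m 0 + m 1 + m 2) (τ : Equiv.Perm (Fin 3)) (L Li : ℂ →L[ℝ] ℂ)
    (hL : ∀ x, ‖L x‖ = D * ‖x‖) (hLi : ∀ x, L (Li x) = x)
    (hc : ∀ t, 0 ≤ t → ∃ c : ℂ, ‖c‖ = 1 ∧ ‖rel (Tf τ Li κ⁻¹ x t) - rot c (start 0)‖ ≤ ε)
    {U : Set Ph} (hU : U ∈ 𝓝 (x 0)) : ∃ y : ℝ → Ph, y 0 ∈ U ∧ IsForwardSol m y ∧
      ∀ R : ℝ, ∃ t₀ : ℝ, ∀ t, t₀ ≤ t → R ≤ ‖(y t).1 (τ 2) - (y t).1 (τ 0)‖ ∧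
        R ≤ ‖(y t).1 (τ 2) - (y t).1 (τ 1)‖ ∧ ‖(y t).1 (τ 1) - (y t).1 (τ 0)‖ ≤ 2 * D := by
  set M : ℝ := m 0 + m 1 + m 2 with hMd
  have hsum : ∑ i, m i = M := by rw [Fin.sum_univ_three]
  set m' : Fin 3 → ℝ := fun i => m (τ i) / M with hm'
  have hN : Near3 m' ε := by
    refine ⟨?_, fun a => ?_⟩
    · have e1 : m' 0 + m' 1 + m' 2 = ∑ i, m' i := by rw [Fin.sum_univ_three]
      rw [e1, hm', ← Finset.sum_div, Equiv.sum_comp τ, hsum, div_self hM.ne']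
    · have e2 : m' a - 1 / 3 = (m (τ a) - M / 3) / M := by
        rw [hm']
        field_simp
      rw [e2, abs_div, abs_of_pos hM, div_le_iff₀ hM]
      exact hm (τ a)
  obtain ⟨-, hb⟩ := hB m' hN
  have hLin : ∀ x, ‖Li x‖ = D⁻¹ * ‖x‖ := by
    intro z
    have := hL (Li z)
    rw [hLi] at this
    rw [this]
    field_simp
  have hfw : IsForwardSol m' (Tf τ Li κ⁻¹ x) :=
    tf_forward (m := fun i => m i / M) (inv_pos.2 hD) (inv_pos.2 hκ) (fun i => by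
      rw [← hDM]
      field_simp) τ Li hLin hx
  set Φ : Ph → Ph := fun p => (fun i => L (p.1 (τ.symm i)), fun i => κ • L (p.2 (τ.symm i))) with hΦ
  have hΦc : Continuous Φ := by
    refine Continuous.prodMk ?_ ?_
    · exact continuous_pi fun i => L.continuous.comp ((continuous_apply (τ.symm i)).comp continuous_fst)
    · exact continuous_pi fun i => (L.continuous.comp
        ((continuous_apply (τ.symm i)).comp continuous_snd)).const_smul κ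
  have hΦ0 : Φ (Tf τ Li κ⁻¹ x 0) = x 0 := by
    refine Prod.ext ?_ ?_
    · funext i
      simp only [hΦ, Tf]
      rw [hLi, Equiv.apply_symm_apply, mul_zero]
    · funext i
      simp only [hΦ, Tf]
      rw [map_smul, hLi, Equiv.apply_symm_apply, mul_zero, smul_smul, mul_inv_cancel₀ hκ.ne', one_smul]
  rw [← hΦ0] at hU
  have hsol : ∀ t, 0 ≤ t → Tf τ Li κ⁻¹ x t ∈ phaseSpace m' ∧
      HasDerivAt (Tf τ Li κ⁻¹ x) ((Tf τ Li κ⁻¹ x t).2, acc m' (Tf τ Li κ⁻¹ x t).1) t := by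
    obtain ⟨δ, hδ, h⟩ := hfw
    exact fun t ht => h t (by linarith)
  obtain ⟨y, y0, ysol, yesc⟩ := hb _ hsol hc (Φ ⁻¹' U) (hΦc.continuousAt.preimage_mem_nhds hU)
  have hmass : ∀ i, (fun i => m (τ i)) i = D ^ 3 * κ ^ 2 * m' i := by
    intro i
    rw [hDM, hm']
    field_simp
  have hfp := tf_forward hD hκ hmass τ.symm L hL ysol
  simp only [Equiv.apply_symm_apply] at hfp
  refine ⟨_, ?_, hfp, ?_⟩
  · have : Φ (y 0) ∈ U := y0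
    simpa [hΦ, Tf] using this
  · intro R
    obtain ⟨t₀, ht₀⟩ := yesc (R / D)
    refine ⟨t₀ / κ, fun t ht => ?_⟩
    have ht' : t₀ ≤ κ * t := by
      rw [div_le_iff₀ hκ] at ht
      linarith
    obtain ⟨q1, q2, q3⟩ := ht₀ (κ * t) ht'
    rw [div_le_iff₀ hD] at q1 q2
    have e : ∀ i j, ‖L ((y (κ * t)).1 i) - L ((y (κ * t)).1 j)‖ =
        D * ‖(y (κ * t)).1 i - (y (κ * t)).1 j‖ := fun i j => by rw [← map_sub, hL]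
    simp only [Tf, Equiv.symm_apply_apply, e]
    refine ⟨by linarith, by linarith, ?_⟩
    nlinarith

/-! ### exchange of two bodies and reflection of relative states -/

/-- exchange of the first two bodies -/
def sw (z : E × E) : E × E := ((-z.1.1, z.1.1 + z.1.2), (-z.2.1, z.2.1 + z.2.2))

/-- reflection -/
noncomputable def cj (z : E × E) : E × E :=
  (((starRingEnd ℂ) z.1.1, (starRingEnd ℂ) z.1.2), ((starRingEnd ℂ) z.2.1, (starRingEnd ℂ) z.2.2))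

lemma sw_sub (z w : E × E) : sw (z - w) = sw z - sw w := by
  refine Prod.ext (Prod.ext ?_ ?_) (Prod.ext ?_ ?_) <;> simp [sw] <;> ring

lemma cj_sub (z w : E × E) : cj (z - w) = cj z - cj w := by
  refine Prod.ext (Prod.ext ?_ ?_) (Prod.ext ?_ ?_) <;> simp [cj]

lemma sw_norm (z : E × E) : ‖sw z‖ ≤ 2 * ‖z‖ := by
  have h1 : ‖z.1‖ ≤ ‖z‖ := norm_fst_le z
  have h2 : ‖z.2‖ ≤ ‖z‖ := norm_snd_le z
  have h3 : ‖z.1.1‖ ≤ ‖z.1‖ := norm_fst_le z.1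
  have h4 : ‖z.1.2‖ ≤ ‖z.1‖ := norm_snd_le z.1
  have h5 : ‖z.2.1‖ ≤ ‖z.2‖ := norm_fst_le z.2
  have h6 : ‖z.2.2‖ ≤ ‖z.2‖ := norm_snd_le z.2
  have h0 := norm_nonneg z
  have e1 : ‖-z.1.1‖ ≤ 2 * ‖z‖ := by rw [norm_neg]; linarith
  have e2 : ‖z.1.1 + z.1.2‖ ≤ 2 * ‖z‖ := (norm_add_le _ _).trans (by linarith)
  have e3 : ‖-z.2.1‖ ≤ 2 * ‖z‖ := by rw [norm_neg]; linarith
  have e4 : ‖z.2.1 + z.2.2‖ ≤ 2 * ‖z‖ := (norm_add_le _ _).trans (by linarith)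
  exact norm_prod_le_iff.2 ⟨norm_prod_le_iff.2 ⟨e1, e2⟩, norm_prod_le_iff.2 ⟨e3, e4⟩⟩

lemma cj_norm (z : E × E) : ‖cj z‖ = ‖z‖ := by
  simp only [cj, Prod.norm_def, RCLike.norm_conj]

lemma start_zero' : start 0 = (((1 : ℂ), zeta), (I, zeta * I)) := by
  unfold start hh hd
  simp

lemma zeta_conj : (starRingEnd ℂ) zeta = -(1 + zeta) := Wrap.conj_zeta

lemma rel_swap {x : ℝ → Ph} {L : ℂ →L[ℝ] ℂ} {κ t : ℝ} {τ τ' : Equiv.Perm (Fin 3)} (h0 : τ' 0 = τ 1)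
    (h1 : τ' 1 = τ 0) (h2 : τ' 2 = τ 2) : rel (Tf τ' L κ x t) = sw (rel (Tf τ L κ x t)) := by
  refine Prod.ext (Prod.ext ?_ ?_) (Prod.ext ?_ ?_) <;> simp only [rel, sw, Tf, h0, h1, h2] <;> ring

lemma rel_conj {x : ℝ → Ph} {L : ℂ →L[ℝ] ℂ} {κ t : ℝ} {τ : Equiv.Perm (Fin 3)} :
    rel (Tf τ ((Complex.conjCLE : ℂ →L[ℝ] ℂ).comp L) κ x t) = cj (rel (Tf τ L κ x t)) := by
  have e : ∀ (k : ℝ) (a : ℂ), (starRingEnd ℂ) (k • a) = k • (starRingEnd ℂ) a := by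
    intro k a
    rw [Complex.real_smul, Complex.real_smul, map_mul, Complex.conj_ofReal]
  refine Prod.ext (Prod.ext ?_ ?_) (Prod.ext ?_ ?_) <;> simp [rel, cj, Tf]

lemma sw_state {z : E × E} {c s ζ : ℂ} {ε : ℝ} (hζ : (starRingEnd ℂ) ζ = -(1 + ζ))
    (h : ‖z - ((c, c * ζ), (s * c, s * (c * ζ)))‖ ≤ ε) :
    ‖sw z - ((-c, -c * (starRingEnd ℂ) ζ), (s * -c, s * (-c * (starRingEnd ℂ) ζ)))‖ ≤ 2 * ε := by
  have e : sw z - ((-c, -c * (starRingEnd ℂ) ζ), (s * -c, s * (-c * (starRingEnd ℂ) ζ))) =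
      sw (z - ((c, c * ζ), (s * c, s * (c * ζ)))) := by
    rw [sw_sub]
    congr 1
    rw [hζ]
    refine Prod.ext (Prod.ext ?_ ?_) (Prod.ext ?_ ?_) <;> simp only [sw] <;> ring
  rw [e]
  exact (sw_norm _).trans (by linarith)

lemma cj_state {z : E × E} {c s ζ : ℂ} {ε : ℝ} (h : ‖z - ((c, c * ζ), (s * c, s * (c * ζ)))‖ ≤ ε) :
    ‖cj z - (((starRingEnd ℂ) c, (starRingEnd ℂ) c * (starRingEnd ℂ) ζ), ((starRingEnd ℂ) s * (starRingEnd ℂ) c,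
      (starRingEnd ℂ) s * ((starRingEnd ℂ) c * (starRingEnd ℂ) ζ)))‖ ≤ ε := by
  have e : cj z - (((starRingEnd ℂ) c, (starRingEnd ℂ) c * (starRingEnd ℂ) ζ),
      ((starRingEnd ℂ) s * (starRingEnd ℂ) c, (starRingEnd ℂ) s * ((starRingEnd ℂ) c * (starRingEnd ℂ) ζ))) =
      cj (z - ((c, c * ζ), (s * c, s * (c * ζ)))) := by
    rw [cj_sub]
    congr 1
    simp only [cj, map_mul]
  rw [e, cj_norm]
  exact h

lemma rot_start (c : ℂ) : rot c (start 0) = ((c, c * zeta), (I * c, I * (c * zeta))) := by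
  rw [start_zero', rot]
  refine Prod.ext (Prod.ext ?_ ?_) (Prod.ext ?_ ?_) <;> simp only <;> ring

theorem wrap2_of (hcl : S_CLOSE) (hB : S_BASE) : ∃ η : ℝ, 0 < η ∧ ∀ m : Fin 3 → ℝ, (∀ i, 0 < m i) →
    (∀ i, |m i - (m 0 + m 1 + m 2) / 3| < η * (m 0 + m 1 + m 2)) →
    ∀ (x : ℝ → Ph) (ρ : ℝ), 0 < ρ → IsForwardSol m x →
      (∀ t, 0 ≤ t → ∀ a b : Fin 3, a ≠ b → |‖(x t).1 b - (x t).1 a‖ - ρ| ≤ η * ρ) →
      ∀ a b c : Fin 3, a ≠ b → b ≠ c → a ≠ c → ∀ U ∈ 𝓝 (x 0), ∃ y : ℝ → Ph, y 0 ∈ U ∧ IsForwardSol m y ∧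
        ∀ R : ℝ, ∃ t₀ : ℝ, ∀ t, t₀ ≤ t → R ≤ ‖(y t).1 c - (y t).1 a‖ ∧ R ≤ ‖(y t).1 c - (y t).1 b‖ ∧
          ‖(y t).1 b - (y t).1 a‖ ≤ 2 * ρ := by
  obtain ⟨ε, hε, hB⟩ := hB
  obtain ⟨ε1, hε1, hcl⟩ := hcl (ε / 2) (by linarith)
  refine ⟨min ε ε1, lt_min hε hε1, fun m hm hmη x ρ hρ hsol hdist a b c hab hbc hac U hU => ?_⟩
  have hM : 0 < m 0 + m 1 + m 2 := by linarith [hm 0, hm 1, hm 2]
  set M : ℝ := m 0 + m 1 + m 2 with hMd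
  have hsum : ∑ i, m i = M := by rw [Fin.sum_univ_three]
  have hmε : ∀ i, |m i - M / 3| ≤ ε * M := fun i =>
    (hmη i).le.trans (mul_le_mul_of_nonneg_right (min_le_left _ _) hM.le)
  have hmε1 : ∀ i, |m i - M / 3| ≤ ε1 * M := fun i =>
    (hmη i).le.trans (mul_le_mul_of_nonneg_right (min_le_right _ _) hM.le)
  have hfw : IsForwardSol m x := hsol
  set κ : ℝ := Real.sqrt (M / ρ ^ 3) with hκd
  have hκ : 0 < κ := Real.sqrt_pos.2 (by positivity)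
  have hDM : ρ ^ 3 * κ ^ 2 = M := by
    rw [hκd, Real.sq_sqrt (by positivity)]
    field_simp
  obtain ⟨τ, t0, t1, t2⟩ := exists_perm hab hbc hac
  obtain ⟨τ', t0', t1', t2'⟩ := exists_perm hab.symm hac hbc
  -- scaling
  set L0 : ℂ →L[ℝ] ℂ := ρ⁻¹ • ContinuousLinearMap.id ℝ ℂ with hL0
  set K : ℂ →L[ℝ] ℂ := (Complex.conjCLE : ℂ →L[ℝ] ℂ) with hK
  have hL0n : ∀ v, ‖L0 v‖ = ρ⁻¹ * ‖v‖ := by
    intro v
    change ‖ρ⁻¹ • v‖ = _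
    rw [norm_smul, Real.norm_of_nonneg (by positivity)]
  set z : ℝ → E × E := fun t => rel (Tf τ L0 κ⁻¹ x t) with hz
  set m' : Fin 3 → ℝ := fun i => m (τ i) / M with hm'
  have hN : Near3 m' ε1 := by
    refine ⟨?_, fun i => ?_⟩
    · have e1 : m' 0 + m' 1 + m' 2 = ∑ i, m' i := by rw [Fin.sum_univ_three]
      rw [e1, hm', ← Finset.sum_div, Equiv.sum_comp τ, hsum, div_self hM.ne']
    · have e2 : m' i - 1 / 3 = (m (τ i) - M / 3) / M := by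
        rw [hm']
        field_simp
      rw [e2, abs_div, abs_of_pos hM, div_le_iff₀ hM]
      exact hmε1 (τ i)
  have hfz : IsForwardSol m' (Tf τ L0 κ⁻¹ x) :=
    tf_forward (m := fun i => m i / M) (inv_pos.2 hρ) (inv_pos.2 hκ) (fun i => by
      rw [← hDM]
      field_simp) τ L0 hL0n hfw
  have hzd : ∀ t, 0 ≤ t → HasDerivAt z ((z t).2, rf kep (m' 0) (m' 1) (m' 2) (z t).1) t := by
    obtain ⟨δ, hδ, h⟩ := hfz
    exact fun t ht => rel_deriv (h t (by linarith)).2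
  have hd1 : ∀ t, 0 ≤ t → ∀ i j : Fin 3, i ≠ j →
      |‖L0 ((x t).1 j) - L0 ((x t).1 i)‖ - 1| ≤ ε1 := by
    intro t ht i j hij
    have h1 := (hdist t ht i j hij).trans (mul_le_mul_of_nonneg_right (min_le_right ε ε1) hρ.le)
    rw [← map_sub, hL0n]
    have e : ρ⁻¹ * ‖(x t).1 j - (x t).1 i‖ - 1 = (‖(x t).1 j - (x t).1 i‖ - ρ) / ρ := by
      field_simp
    rw [e, abs_div, abs_of_pos hρ, div_le_iff₀ hρ]
    exact h1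
  have hτ01 : τ 0 ≠ τ 1 := by rw [t0, t1]; exact hab
  have hτ12 : τ 1 ≠ τ 2 := by rw [t1, t2]; exact hbc
  have hτ02 : τ 0 ≠ τ 2 := by rw [t0, t2]; exact hac
  obtain ⟨s, hs, ζ, hζ, hclo⟩ := hcl m' hN z hzd (by
    intro t ht
    have hk : 0 ≤ κ⁻¹ * t := mul_nonneg (inv_pos.2 hκ).le ht
    refine ⟨hd1 _ hk _ _ hτ01, hd1 _ hk _ _ hτ12, ?_⟩
    have e : (z t).1.1 + (z t).1.2 = L0 ((x (κ⁻¹ * t)).1 (τ 2)) - L0 ((x (κ⁻¹ * t)).1 (τ 0)) := by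
      simp only [hz, rel, Tf]
      ring
    rw [e]
    exact hd1 _ hk _ _ hτ02)
  -- the inverse maps
  set L1 : ℂ →L[ℝ] ℂ := ρ • ContinuousLinearMap.id ℝ ℂ with hL1
  have hL1n : ∀ v, ‖L1 v‖ = ρ * ‖v‖ := by
    intro v
    change ‖ρ • v‖ = _
    rw [norm_smul, Real.norm_of_nonneg hρ.le]
  have hL10 : ∀ v, L1 (L0 v) = v := by
    intro v
    change ρ • (ρ⁻¹ • v) = v
    rw [smul_smul, mul_inv_cancel₀ hρ.ne', one_smul]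
  have hKK : ∀ v, K (K v) = v := fun v => Complex.conj_conj v
  have hKn : ∀ v, ‖(L1.comp K) v‖ = ρ * ‖v‖ := by
    intro v
    rw [ContinuousLinearMap.comp_apply, hL1n]
    congr 1
    exact RCLike.norm_conj v
  have hKi : ∀ v, (L1.comp K) ((K.comp L0) v) = v := by
    intro v
    rw [ContinuousLinearMap.comp_apply, ContinuousLinearMap.comp_apply, hKK, hL10]
  have hζ1 : (starRingEnd ℂ) ζ = -(1 + ζ) := by
    rcases hζ with rfl | rfl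
    · exact zeta_conj
    · rw [Complex.conj_conj, zeta_conj]; ring
  -- exchange of the two bodies which stay
  have fin : (∃ y : ℝ → Ph, y 0 ∈ U ∧ IsForwardSol m y ∧
        ∀ R : ℝ, ∃ t₀ : ℝ, ∀ t, t₀ ≤ t → R ≤ ‖(y t).1 c - (y t).1 b‖ ∧ R ≤ ‖(y t).1 c - (y t).1 a‖ ∧
          ‖(y t).1 a - (y t).1 b‖ ≤ 2 * ρ) →
      ∃ y : ℝ → Ph, y 0 ∈ U ∧ IsForwardSol m y ∧
        ∀ R : ℝ, ∃ t₀ : ℝ, ∀ t, t₀ ≤ t → R ≤ ‖(y t).1 c - (y t).1 a‖ ∧ R ≤ ‖(y t).1 c - (y t).1 b‖ ∧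
          ‖(y t).1 b - (y t).1 a‖ ≤ 2 * ρ := by
    rintro ⟨y, h1, h2, h3⟩
    refine ⟨y, h1, h2, fun R => ?_⟩
    obtain ⟨t₀, h4⟩ := h3 R
    refine ⟨t₀, fun t ht => ?_⟩
    obtain ⟨h5, h6, h7⟩ := h4 t ht
    rw [norm_sub_rev ((y t).1 b)]
    exact ⟨h6, h5, h7⟩
  have g1 : ∀ (L Li : ℂ →L[ℝ] ℂ), (∀ v, ‖L v‖ = ρ * ‖v‖) → (∀ v, L (Li v) = v) →
      (∀ t, 0 ≤ t → ∃ c : ℂ, ‖c‖ = 1 ∧ ‖rel (Tf τ Li κ⁻¹ x t) - rot c (start 0)‖ ≤ ε) →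
      ∃ y : ℝ → Ph, y 0 ∈ U ∧ IsForwardSol m y ∧
        ∀ R : ℝ, ∃ t₀ : ℝ, ∀ t, t₀ ≤ t → R ≤ ‖(y t).1 c - (y t).1 a‖ ∧ R ≤ ‖(y t).1 c - (y t).1 b‖ ∧
          ‖(y t).1 b - (y t).1 a‖ ≤ 2 * ρ := by
    intro L Li a1 a2 a3
    have := core2 hB hM hmε hfw hρ hκ hDM τ L Li a1 a2 a3 hU
    rw [t0, t1, t2] at this
    exact this
  have g2 : ∀ (L Li : ℂ →L[ℝ] ℂ), (∀ v, ‖L v‖ = ρ * ‖v‖) → (∀ v, L (Li v) = v) →
      (∀ t, 0 ≤ t → ∃ c : ℂ, ‖c‖ = 1 ∧ ‖rel (Tf τ' Li κ⁻¹ x t) - rot c (start 0)‖ ≤ ε) →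
      ∃ y : ℝ → Ph, y 0 ∈ U ∧ IsForwardSol m y ∧
        ∀ R : ℝ, ∃ t₀ : ℝ, ∀ t, t₀ ≤ t → R ≤ ‖(y t).1 c - (y t).1 a‖ ∧ R ≤ ‖(y t).1 c - (y t).1 b‖ ∧
          ‖(y t).1 b - (y t).1 a‖ ≤ 2 * ρ := by
    intro L Li a1 a2 a3
    have := core2 hB hM hmε hfw hρ hκ hDM τ' L Li a1 a2 a3 hU
    rw [t0', t1', t2'] at this
    exact fin this
  have r01 : τ' 0 = τ 1 := by rw [t0', t1]
  have r10 : τ' 1 = τ 0 := by rw [t1', t0]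
  have r22 : τ' 2 = τ 2 := by rw [t2', t2]
  have hcn : ∀ c : ℂ, ‖c‖ = 1 → ‖(starRingEnd ℂ) c‖ = 1 := fun c h => by rw [RCLike.norm_conj]; exact h
  rcases hs with rfl | rfl
  · rcases hζ with rfl | rfl
    · refine g1 L1 L0 hL1n hL10 fun t ht => ?_
      obtain ⟨c', hc1, hc2⟩ := hclo t ht
      refine ⟨c', hc1, ?_⟩
      rw [rot_start]
      exact hc2.trans (by linarith)
    · refine g2 L1 L0 hL1n hL10 fun t ht => ?_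
      obtain ⟨c', hc1, hc2⟩ := hclo t ht
      refine ⟨-c', by rw [norm_neg]; exact hc1, ?_⟩
      have h3 := sw_state hζ1 hc2
      rw [Complex.conj_conj] at h3
      rw [rot_start, rel_swap r01 r10 r22]
      exact h3.trans (by linarith)
  · rcases hζ with rfl | rfl
    · refine g2 (L1.comp K) (K.comp L0) hKn hKi fun t ht => ?_
      obtain ⟨c', hc1, hc2⟩ := hclo t ht
      refine ⟨(starRingEnd ℂ) (-c'), hcn _ (by rw [norm_neg]; exact hc1), ?_⟩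
      have h3 := cj_state (sw_state hζ1 hc2)
      rw [Complex.conj_conj, show (starRingEnd ℂ) (-I) = I by rw [map_neg, Complex.conj_I, neg_neg]] at h3
      rw [rot_start, rel_conj, rel_swap r01 r10 r22]
      exact h3.trans (by linarith)
    · refine g1 (L1.comp K) (K.comp L0) hKn hKi fun t ht => ?_
      obtain ⟨c', hc1, hc2⟩ := hclo t ht
      refine ⟨(starRingEnd ℂ) c', hcn _ hc1, ?_⟩
      have h3 := cj_state hc2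
      rw [Complex.conj_conj, show (starRingEnd ℂ) (-I) = I by rw [map_neg, Complex.conj_I, neg_neg]] at h3
      rw [rot_start, rel_conj]
      exact h3.trans (by linarith)

end Pool.Agent.H3.LP.Wr
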