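import Pool.Agent.H3.LP.Base
import Pool.Agent.H3.LP.Close
import Pool.Agent.H3.LP.Wrap
import Pool.Agent.H3.LP.Asm
import Pool.Agent.H3.LP.Kep

/-! Final assembly of project 3LP. -/

set_option autoImplicit false

open Complex Filter Topology Pool.Agent.H3.LG
open Pool.Agent.H99.TB hiding Ph acc phaseSpace IsSol
open Pool.Agent.H3.TB (Ph acc phaseSpace IsSol IsForwardSol IsRelPeriodic)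

namespace Pool.Agent.H3.LP

/-- the statement of LP-EXIT -/
def S_EXIT : Prop := ∃ C ρ₀ : ℝ, 0 < C ∧ 0 < ρ₀ ∧ ∀ ρ : ℝ, 0 < ρ → ρ ≤ ρ₀ → ∃ ε : ℝ, 0 < ε ∧ ∀ m : Fin 3 → ℝ, Near3 m ε →
    ∀ φ : ℝ → E × E, Sol m φ → (∀ t, 0 ≤ t → ∃ c : ℂ, ‖c‖ = 1 ∧ ‖φ t - rot c (start 0)‖ ≤ ε) →
    ∀ g : ℂ, ‖g‖ = ρ → ∀ δ : ℝ, 0 < δ → ∃ y₀ : E × E, ‖y₀ - φ 0‖ ≤ δ ∧ ∀ y : ℝ → E × E, Sol m y → y 0 = y₀ →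
      ∃ T : ℝ, 0 ≤ T ∧ (∀ t ∈ Set.Icc 0 T, ∃ c : ℂ, ‖c‖ = 1 ∧ ‖y t - rot c (start 0)‖ ≤ 1 / 100) ∧
        ∃ c : ℂ, ‖c‖ = 1 ∧ ‖y T - rot c (start g)‖ ≤ C * ρ ^ 2

/-- the statement of LP-GROW -/
def S_GROW' : Prop := ∀ (g : ℂ) (C : ℝ), g ≠ 0 → ‖g‖ ≤ 1 / 10 ^ 20 → 0 < C → ∃ ρ₁ : ℝ, 0 < ρ₁ ∧ ∀ ρ : ℝ, 0 < ρ → ρ ≤ ρ₁ →
    ∃ η : ℝ, 0 < η ∧ ∃ g₁ : ℂ, ‖g₁‖ = ρ ∧ ∀ m : Fin 3 → ℝ, Near3 m η → ∀ y : ℝ → E × E, Sol m y →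
      ‖y 0 - start g₁‖ ≤ C * ρ ^ 2 → ∃ T : ℝ, 0 ≤ T ∧
        (∀ t ∈ Set.Icc 0 T, ∃ c : ℂ, ‖c‖ = 1 ∧ ‖y t - rot c (start 0)‖ ≤ 1 / 100) ∧
        ∃ c : ℂ, ‖c‖ = 1 ∧ nn ((y T).1 - (rot c (start g)).1) ≤ 10 ^ 5 * ‖g‖ ^ 3 ∧
          nn ((y T).2 - (rot c (start g)).2) ≤ 10 ^ 5 * ‖g‖ ^ 3

/-- the statement of LP-HOM -/
def S_HOM : Prop := ∀ (m : Fin 3 → ℝ), (∀ a, 0 < m a) → ∀ (r : Fin 3 → ℂ), Equilateral r →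
    ∑ a, (m a : ℂ) * r a = 0 → ∀ (z z' : ℝ → ℂ), (∀ t, z t ≠ 0) → (∀ t, HasDerivAt z (z' t) t) →
    (∀ t, HasDerivAt z' (-(((m 0 + m 1 + m 2) / ‖r 1 - r 0‖ ^ 3 / ‖z t‖ ^ 3 : ℝ) : ℂ) * z t) t) →
    IsSol m (fun t => (fun a => z t * r a, fun a => z' t * r a))

theorem fin1 (hE : S_EXIT) (hG : S_GROW') (hW : S_WU') (hT : S_TR) : ∃ η : ℝ, 0 < η ∧
    ∀ m : Fin 3 → ℝ, (∀ i, 0 < m i) →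
    (∀ i, |m i - (m 0 + m 1 + m 2) / 3| < η * (m 0 + m 1 + m 2)) →
    ∀ (x : ℝ → Ph) (ρ : ℝ), 0 < ρ → IsForwardSol m x →
      (∀ t, 0 ≤ t → ∀ a b : Fin 3, a ≠ b → |‖(x t).1 b - (x t).1 a‖ - ρ| ≤ η * ρ) →
      ∀ a b c : Fin 3, a ≠ b → b ≠ c → a ≠ c → ∀ U ∈ 𝓝 (x 0), ∃ y : ℝ → Ph, y 0 ∈ U ∧ IsForwardSol m y ∧
        ∀ R : ℝ, ∃ t₀ : ℝ, ∀ t, t₀ ≤ t → R ≤ ‖(y t).1 c - (y t).1 a‖ ∧ R ≤ ‖(y t).1 c - (y t).1 b‖ ∧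
          ‖(y t).1 b - (y t).1 a‖ ≤ 2 * ρ := by
  obtain ⟨g, g0, g1, hg⟩ := goesW hW hT
  exact Wr.wrap2_of close (base2_of hE hG g0 g1 hg)

/-- elliptic Lagrange motions -/
theorem fin2 (hH : S_HOM) {m : Fin 3 → ℝ} (hm : ∀ a, 0 < m a) {r : Fin 3 → ℂ} (hr : Equilateral r)
    (hc : ∑ a, (m a : ℂ) * r a = 0) {e : ℝ} (h0 : 0 ≤ e) (h1 : e < 1) : ∃ z z' : ℝ → ℂ,
    IsSol m (fun t => (fun a => z t * r a, fun a => z' t * r a)) ∧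
    (∃ T : ℝ, 0 < T ∧ ∀ t, z (t + T) = z t) ∧ (∀ t, 1 - e ≤ ‖z t‖ ∧ ‖z t‖ ≤ 1 + e) ∧
    (∃ t, ‖z t‖ = 1 - e) ∧ ∃ t, ‖z t‖ = 1 + e := by
  have hρ : 0 < ‖r 1 - r 0‖ := norm_pos_iff.2 (sub_ne_zero.2 hr.1)
  have hM : 0 < m 0 + m 1 + m 2 := by linarith [hm 0, hm 1, hm 2]
  obtain ⟨z, z', z0, d1, d2, b, T, t⟩ := Kep.kepler (k := (m 0 + m 1 + m 2) / ‖r 1 - r 0‖ ^ 3) (a := 1) (e := e)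
    (by positivity) one_pos h0 h1
  have hz : ∀ t, z t ≠ 0 := fun t h => by
    have := (b t).1
    rw [h, norm_zero] at this
    linarith
  refine ⟨z, z', hH m hm r hr hc z z' hz d1 d2, T, fun t => ?_, ⟨0, ?_⟩, ?_⟩
  · have := b t
    rwa [one_mul, one_mul] at this
  · rw [z0, one_mul, Complex.norm_real, Real.norm_of_nonneg (by linarith)]
  · obtain ⟨t, ht⟩ := t
    exact ⟨t, by rw [ht, one_mul]⟩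

end Pool.Agent.H3.LP
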