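import Pool.Agent.H3.LP.Defs
import Pool.Agent.H3.LG.Near
import Pool.Agent.H3.LG.Tay

/-! LP-GROW (helper39), part A: the second order unstable manifold at equal masses. -/

set_option autoImplicit false

open Complex Set Pool.Agent.H3.LG
open Pool.Agent.H99.TB hiding Ph acc phaseSpace IsSol

namespace Pool.Agent.H3.LP

namespace GrowL

open NearL

/-- second derivative of `h_j` along `g' = l0 g` -/
noncomputable def hdd (g : ℂ) (j : ℕ) : ℂ :=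
  zeta ^ j * (l0 * (l0 * g)) +
    bb * ((l0 + (starRingEnd ℂ) l0) * ((l0 + (starRingEnd ℂ) l0) * (g * (starRingEnd ℂ) g))) +
    cc * zeta ^ j * (2 * (starRingEnd ℂ) l0 * (2 * (starRingEnd ℂ) l0 * (starRingEnd ℂ) g ^ 2))

/-- the acceleration of the approximate solution -/
noncomputable def aa (e G : ℂ) : E :=
  (e * (-(1 + hh G 0) + 2 * I * hd G 0 + hdd G 0),
    e * (zeta * (-(1 + hh G 1) + 2 * I * hd G 1 + hdd G 1)))

lemma s2 : ((Real.sqrt 2 : ℝ) : ℂ) * ((Real.sqrt 2 : ℝ) : ℂ) = 2 := by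
  rw [← Complex.ofReal_mul, Real.mul_self_sqrt (by norm_num)]
  norm_num

lemma l0_re_eq : l0.re = Real.sqrt 2 / 2 := by
  have h2 : Real.sqrt 2 * Real.sqrt 2 = 2 := Real.mul_self_sqrt (by norm_num)
  have h4 : 0 < Real.sqrt 2 := Real.sqrt_pos.2 (by norm_num)
  simp only [l0]
  rw [div_eq_div_iff h4.ne' (by norm_num)]
  linarith

lemma l0_eq : l0 = ((Real.sqrt 2 : ℝ) : ℂ) / 2 - I := by
  have h := l0_re_eq
  apply Complex.ext
  · rw [h]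
    have : ((Real.sqrt 2 : ℝ) : ℂ) / 2 = ((Real.sqrt 2 / 2 : ℝ) : ℂ) := by push_cast; rfl
    rw [this]
    simp
  · have : ((Real.sqrt 2 : ℝ) : ℂ) / 2 = ((Real.sqrt 2 / 2 : ℝ) : ℂ) := by push_cast; rfl
    rw [this]
    simp [l0]

lemma l0_conj : (starRingEnd ℂ) l0 = ((Real.sqrt 2 : ℝ) : ℂ) / 2 + I := by
  rw [l0_eq]
  simp only [map_sub, map_div₀, Complex.conj_ofReal, Complex.conj_I, map_ofNat]
  ring

lemma bb_eq : bb = -(1 / 4) + ((Real.sqrt 2 : ℝ) : ℂ) / 4 * I := by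
  have : ((Real.sqrt 2 : ℝ) : ℂ) / 4 = ((Real.sqrt 2 / 4 : ℝ) : ℂ) := by push_cast; rfl
  rw [this]
  apply Complex.ext
  · simp [bb]
  · simp [bb]

lemma bb_conj : (starRingEnd ℂ) bb = -(1 / 4) - ((Real.sqrt 2 : ℝ) : ℂ) / 4 * I := by
  rw [bb_eq]
  simp only [map_add, map_neg, map_mul, map_div₀, map_one, Complex.conj_ofReal, Complex.conj_I,
    map_ofNat]
  ring

lemma cc_eq : cc * (15 / 2 - 6 * ((Real.sqrt 2 : ℝ) : ℂ) * I) = 15 / 8 := by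
  have h2 : Real.sqrt 2 * Real.sqrt 2 = 2 := Real.mul_self_sqrt (by norm_num)
  have e : (⟨15 / 2, -(6 * Real.sqrt 2)⟩ : ℂ) = 15 / 2 - 6 * ((Real.sqrt 2 : ℝ) : ℂ) * I := by
    apply Complex.ext
    · simp
    · simp
  have hne : (⟨15 / 2, -(6 * Real.sqrt 2)⟩ : ℂ) ≠ 0 := by
    intro h
    have := congrArg Complex.re h
    norm_num at this
  rw [← e]
  unfold cc
  exact div_mul_cancel₀ _ hne

lemma ch1 : l0 * l0 + 2 * I * l0 - 3 / 2 = 0 := by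
  rw [l0_eq]
  linear_combination (1 / 4 : ℂ) * s2 - I_mul_I

lemma ch4 : (4 * ((starRingEnd ℂ) l0 * (starRingEnd ℂ) l0) + 4 * I * (starRingEnd ℂ) l0 - 3 / 2) * cc =
    -(15 / 8) := by
  rw [l0_conj]
  linear_combination cc * s2 + 8 * cc * I_mul_I - cc_eq

lemma ch5 : ((l0 + (starRingEnd ℂ) l0) * (l0 + (starRingEnd ℂ) l0) + 2 * I * (l0 + (starRingEnd ℂ) l0) -
    3 / 2) * bb = 3 / 2 * (starRingEnd ℂ) bb - 3 / 4 := by
  rw [l0_conj, bb_conj, l0_eq, bb_eq]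
  have h1 := s2
  have h2 := I_mul_I
  generalize ((Real.sqrt 2 : ℝ) : ℂ) = s at *
  linear_combination (-(1 / 4) + s / 4 * I + 1 / 2 * I * I) * h1 + h2

lemma zeta2_conj : (starRingEnd ℂ) (zeta ^ 2) = zeta := by
  rw [map_pow, conj_zeta]
  linear_combination zeta * zeta_cube

lemma hh_sum (G : ℂ) : hh G 0 + zeta * hh G 1 + zeta ^ 2 * hh G 2 = 0 := by
  unfold hh
  have h1 := zeta_sum
  have h3 := zeta_cube
  linear_combination (G + bb * (G * (starRingEnd ℂ) G) + cc * (starRingEnd ℂ) G ^ 2) * h1 +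
    (zeta * G + cc * zeta * (starRingEnd ℂ) G ^ 2) * h3

/-- `Q_j` -/
noncomputable def qq (G : ℂ) (j : ℕ) : ℂ :=
  3 / 8 * (zeta ^ j * G) ^ 2 + 3 / 4 * (zeta ^ j * G * (starRingEnd ℂ) (zeta ^ j * G)) +
    15 / 8 * (starRingEnd ℂ) (zeta ^ j * G) ^ 2

lemma sum_conj (G : ℂ) : (starRingEnd ℂ) (hh G 0) + zeta * (starRingEnd ℂ) (hh G 1) +
    zeta ^ 2 * (starRingEnd ℂ) (hh G 2) =
    3 * (starRingEnd ℂ) G + 3 * ((starRingEnd ℂ) cc * G ^ 2) := by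
  unfold hh
  simp only [map_add, map_mul, map_pow, Complex.conj_conj, conj_zeta, pow_zero, pow_one, map_one]
  have h1 := zeta_sum
  have h3 := zeta_cube
  linear_combination (starRingEnd ℂ) bb * (G * (starRingEnd ℂ) G) * h1 +
    ((starRingEnd ℂ) G + (starRingEnd ℂ) cc * G ^ 2) * (2 + zeta ^ 3) * h3

lemma sum_qq (G : ℂ) : qq G 0 + zeta * qq G 1 + zeta ^ 2 * qq G 2 = 9 / 8 * G ^ 2 := by
  unfold qq
  simp only [map_mul, map_pow, conj_zeta, pow_zero, pow_one, one_mul]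
  have h1 := zeta_sum
  have h3 := zeta_cube
  linear_combination (3 / 4 * (G * (starRingEnd ℂ) G) + 15 / 8 * (starRingEnd ℂ) G ^ 2) * h1 +
    (3 / 8 * G ^ 2 * (2 + zeta ^ 3) +
      3 / 4 * (G * (starRingEnd ℂ) G) * (zeta + zeta ^ 2 * (zeta ^ 3 + 1)) +
      15 / 8 * (starRingEnd ℂ) G ^ 2 * (zeta ^ 2 + zeta * (zeta ^ 6 + zeta ^ 3 + 1))) * h3

lemma cz0 (G : ℂ) : hdd G 0 + 2 * I * hd G 0 - 3 / 2 * hh G 0 -
    3 / 2 * ((starRingEnd ℂ) (hh G 0) - ((1 / 3 : ℝ) : ℂ) * ((starRingEnd ℂ) (hh G 0) +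
      zeta * (starRingEnd ℂ) (hh G 1) + zeta ^ 2 * (starRingEnd ℂ) (hh G 2))) +
    (qq G 0 - ((1 / 3 : ℝ) : ℂ) * (qq G 0 + zeta * qq G 1 + zeta ^ 2 * qq G 2)) = 0 := by
  rw [sum_conj, sum_qq]
  unfold hdd hd hh qq
  simp only [map_add, map_mul, map_pow, Complex.conj_conj, pow_zero, map_one, one_mul, mul_one]
  push_cast
  linear_combination G * ch1 + (starRingEnd ℂ) G ^ 2 * ch4 + G * (starRingEnd ℂ) G * ch5

lemma cz1 (G : ℂ) : hdd G 1 + 2 * I * hd G 1 - 3 / 2 * hh G 1 -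
    3 / 2 * ((starRingEnd ℂ) (hh G 1) - ((1 / 3 : ℝ) : ℂ) * zeta ^ 2 * ((starRingEnd ℂ) (hh G 0) +
      zeta * (starRingEnd ℂ) (hh G 1) + zeta ^ 2 * (starRingEnd ℂ) (hh G 2))) +
    (qq G 1 - ((1 / 3 : ℝ) : ℂ) * zeta ^ 2 * (qq G 0 + zeta * qq G 1 + zeta ^ 2 * qq G 2)) = 0 := by
  rw [sum_conj, sum_qq]
  unfold hdd hd hh qq
  simp only [map_add, map_mul, map_pow, Complex.conj_conj, pow_one, conj_zeta]
  push_cast
  linear_combination zeta * G * ch1 + zeta * (starRingEnd ℂ) G ^ 2 * ch4 +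
    G * (starRingEnd ℂ) G * ch5 + (3 / 4 * (G * (starRingEnd ℂ) G) +
      15 / 8 * (starRingEnd ℂ) G ^ 2 * zeta) * zeta_cube

lemma hh_P (G : ℂ) (j : ℕ) : hh G j = P G ((starRingEnd ℂ) G) (zeta ^ j) 0 0 bb (cc * zeta ^ j) := by
  unfold hh P; ring

lemma hd_P (G : ℂ) (j : ℕ) : hd G j = P G ((starRingEnd ℂ) G) (l0 * zeta ^ j) ((starRingEnd ℂ) l0 * 0)
    (2 * l0 * 0) ((l0 + (starRingEnd ℂ) l0) * bb) (2 * (starRingEnd ℂ) l0 * (cc * zeta ^ j)) := by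
  unfold hd P; ring

lemma hdd_P (G : ℂ) (j : ℕ) : hdd G j = P G ((starRingEnd ℂ) G) (l0 * (l0 * zeta ^ j))
    ((starRingEnd ℂ) l0 * ((starRingEnd ℂ) l0 * 0))
    (2 * l0 * (2 * l0 * 0)) ((l0 + (starRingEnd ℂ) l0) * ((l0 + (starRingEnd ℂ) l0) * bb))
    (2 * (starRingEnd ℂ) l0 * (2 * (starRingEnd ℂ) l0 * (cc * zeta ^ j))) := by
  unfold hdd P; ring

lemma hh_norm {G : ℂ} {r : ℝ} (hG : ‖G‖ = r) (hr : r ≤ 1 / 10 ^ 6) (j : ℕ) :
    ‖hh G j‖ ≤ 10001 / 10000 * r := by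
  have r0 : 0 ≤ r := hG ▸ norm_nonneg _
  rw [hh_P]
  have h2 := P_norm (G := G) (H := (starRingEnd ℂ) G) (a := zeta ^ j) (b := 0) (c := 0) (d := bb)
    (f := cc * zeta ^ j) (r := r) (α := 1) (β := 6 / 10) hG ((Complex.norm_conj G).trans hG)
    (by rw [norm_zeta_pow, norm_zero, add_zero])
    (by rw [norm_zero, norm_mul, norm_zeta_pow, mul_one]; linarith [norm_bb, norm_cc])
  have h3 : r ^ 2 ≤ 1 / 10 ^ 6 * r := by nlinarith
  refine h2.trans ?_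
  linarith

lemma hd_norm {G : ℂ} {r : ℝ} (hG : ‖G‖ = r) (hr : r ≤ 1 / 10 ^ 6) (j : ℕ) :
    ‖hd G j‖ ≤ 13 / 10 * r := by
  have r0 : 0 ≤ r := hG ▸ norm_nonneg _
  have k0 : ‖(starRingEnd ℂ) l0‖ ≤ 12248 / 10000 := by rw [Complex.norm_conj]; exact norm_l0
  have n2 : ‖(2 : ℂ)‖ = 2 := by norm_num
  rw [hd_P]
  have h2 := P_norm (G := G) (H := (starRingEnd ℂ) G) (a := l0 * zeta ^ j)
    (b := (starRingEnd ℂ) l0 * 0) (c := 2 * l0 * 0) (d := (l0 + (starRingEnd ℂ) l0) * bb)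
    (f := 2 * (starRingEnd ℂ) l0 * (cc * zeta ^ j)) (r := r) (α := 12248 / 10000) (β := 2) hG
    ((Complex.norm_conj G).trans hG)
    (by rw [mul_zero, norm_zero, add_zero, norm_mul, norm_zeta_pow, mul_one]; exact norm_l0)
    (by
      rw [mul_zero, norm_zero, norm_mul, norm_mul (2 * (starRingEnd ℂ) l0), norm_mul (2 : ℂ), n2,
        norm_mul cc, norm_zeta_pow, mul_one]
      have a1 : ‖l0 + (starRingEnd ℂ) l0‖ * ‖bb‖ ≤ (2 * (12248 / 10000)) * (4331 / 10000) :=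
        mul_le_mul ((norm_add_le _ _).trans (by linarith [norm_l0])) norm_bb (norm_nonneg _) (by norm_num)
      have a2 : 2 * ‖(starRingEnd ℂ) l0‖ * ‖cc‖ ≤ (2 * (12248 / 10000)) * (1657 / 10000) :=
        mul_le_mul (by linarith) norm_cc (norm_nonneg _) (by norm_num)
      linarith)
  have h3 : r ^ 2 ≤ 1 / 10 ^ 6 * r := by nlinarith
  refine h2.trans ?_
  linarith

lemma start_near {G : ℂ} {r : ℝ} (hG : ‖G‖ = r) (hr : r ≤ 1 / 10 ^ 6) : ‖start G - start 0‖ ≤ 3 * r := by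
  have r0 : 0 ≤ r := hG ▸ norm_nonneg _
  have e : start G - start 0 = ((hh G 0, zeta * hh G 1),
      (I * hh G 0 + hd G 0, zeta * (I * hh G 1 + hd G 1))) := by
    unfold start
    have z0 : ∀ j, hh 0 j = 0 := by intro j; unfold hh; simp
    have z1 : ∀ j, hd 0 j = 0 := by intro j; unfold hd; simp
    rw [z0, z0, z1, z1]
    refine Prod.ext (Prod.ext ?_ ?_) (Prod.ext ?_ ?_)
    · change 1 + hh G 0 - (1 + 0) = hh G 0; ring
    · change zeta * (1 + hh G 1) - zeta * (1 + 0) = zeta * hh G 1; ring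
    · change (I * (1 + hh G 0) + hd G 0) - (I * (1 + 0) + 0) = I * hh G 0 + hd G 0; ring
    · change zeta * (I * (1 + hh G 1) + hd G 1) - zeta * (I * (1 + 0) + 0) = zeta * (I * hh G 1 + hd G 1)
      ring
  rw [e]
  have a := fun j => hh_norm hG hr j
  have b := fun j => hd_norm hG hr j
  have c : ∀ j, ‖I * hh G j + hd G j‖ ≤ 3 * r := by
    intro j
    refine (norm_add_le _ _).trans ?_
    rw [norm_mul, norm_I, one_mul]
    linarith [a j, b j]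
  rw [Prod.norm_def, Prod.norm_def, Prod.norm_def]
  simp only [norm_mul, norm_zeta, one_mul]
  exact max_le (max_le ((a 0).trans (by linarith)) ((a 1).trans (by linarith))) (max_le (c 0) (c 1))

/-- the residual at equal masses -/
lemma resid {e G : ℂ} {r : ℝ} (he : ‖e‖ = 1) (hG : ‖G‖ = r) (hr : r ≤ 1 / 10 ^ 6) :
    nn (aa e G - rf kep (1 / 3) (1 / 3) (1 / 3) (rot e (start G)).1) ≤ 80 * r ^ 3 := by
  have r0 : 0 ≤ r := hG ▸ norm_nonneg _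
  obtain ⟨X, hX⟩ : ∃ X : ℕ → ℂ, X = fun j => kep (1 + hh G j) - (1 - hh G j / 2 -
    3 / 2 * (starRingEnd ℂ) (hh G j) + qq G j) := ⟨_, rfl⟩
  have hXn : ∀ j, ‖X j‖ ≤ 44 * r ^ 3 := by
    intro j
    have q1 := hh_norm hG hr j
    have q2 : ‖hh G j - zeta ^ j * G‖ ≤ 6 / 10 * r ^ 2 := by
      have e : hh G j - zeta ^ j * G = P G ((starRingEnd ℂ) G) 0 0 0 bb (cc * zeta ^ j) := by
        unfold P hh; ring
      rw [e]
      have h2 := P_norm (G := G) (H := (starRingEnd ℂ) G) (a := 0) (b := 0) (c := 0) (d := bb)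
        (f := cc * zeta ^ j) (r := r) (α := 0) (β := 6 / 10) hG ((Complex.norm_conj G).trans hG) (by simp)
        (by rw [norm_zero, norm_mul, norm_zeta_pow, mul_one]; linarith [norm_bb, norm_cc])
      linarith
    have q3 : ‖zeta ^ j * G‖ ≤ 10001 / 10000 * r := by
      rw [norm_mul, norm_zeta_pow, one_mul, hG]; linarith
    have a1 := Pool.Agent.H3.LG.tay (h := hh G j) (by linarith)
    have a2 := quad_diff (h := hh G j) (k := (starRingEnd ℂ) (hh G j)) (h' := zeta ^ j * G)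
      (k' := (starRingEnd ℂ) (zeta ^ j * G)) (Complex.norm_conj _) (Complex.norm_conj _) q1 q3 q2
      (by rw [← map_sub, Complex.norm_conj]; exact q2)
    have e : X j = (kep (1 + hh G j) - (1 - hh G j / 2 - 3 / 2 * (starRingEnd ℂ) (hh G j) +
        (3 / 8 * hh G j ^ 2 + 3 / 4 * (hh G j * (starRingEnd ℂ) (hh G j)) +
        15 / 8 * (starRingEnd ℂ) (hh G j) ^ 2))) +
        ((3 / 8 * hh G j ^ 2 + 3 / 4 * (hh G j * (starRingEnd ℂ) (hh G j)) +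
        15 / 8 * (starRingEnd ℂ) (hh G j) ^ 2) - (3 / 8 * (zeta ^ j * G) ^ 2 +
        3 / 4 * (zeta ^ j * G * (starRingEnd ℂ) (zeta ^ j * G)) +
        15 / 8 * (starRingEnd ℂ) (zeta ^ j * G) ^ 2)) := by
      rw [hX]; unfold qq; ring
    rw [e]
    refine (norm_add_le _ _).trans ((add_le_add a1 a2).trans ?_)
    have a3 : ‖hh G j‖ ^ 3 ≤ (10001 / 10000 * r) ^ 3 := by gcongr
    have r3 : 0 ≤ r ^ 3 := by positivity
    calc 40 * ‖hh G j‖ ^ 3 + 6 * (10001 / 10000 * r) * (6 / 10 * r ^ 2)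
        ≤ 40 * (10001 / 10000 * r) ^ 3 + 6 * (10001 / 10000 * r) * (6 / 10 * r ^ 2) := by gcongr
      _ = (40 * (10001 / 10000) ^ 3 + 6 * (10001 / 10000) * (6 / 10)) * r ^ 3 := by ring
      _ ≤ 44 * r ^ 3 := by
        apply mul_le_mul_of_nonneg_right _ r3
        norm_num
  have psum : e * (1 + hh G 0) + e * (zeta * (1 + hh G 1)) = -(zeta ^ 2 * (e * (1 + hh G 2))) := by
    linear_combination e * zeta_sum + e * hh_sum G
  have k0 : kep (e * (1 + hh G 0)) = e * kep (1 + hh G 0) := kep_rot he _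
  have k1 : kep (e * (zeta * (1 + hh G 1))) = zeta * (e * kep (1 + hh G 1)) := by
    rw [kep_rot he, kep_rot norm_zeta]; ring
  have k2 : kep (e * (1 + hh G 0) + e * (zeta * (1 + hh G 1))) = -(zeta ^ 2 * (e * kep (1 + hh G 2))) := by
    rw [psum, kep_neg, kep_rot (norm_zeta_pow 2), kep_rot he]
  have kk : ∀ j, kep (1 + hh G j) = X j + (1 - hh G j / 2 - 3 / 2 * (starRingEnd ℂ) (hh G j) + qq G j) := by
    intro j; rw [hX]; ring
  have mm : ((1 / 3 : ℝ) : ℂ) + ((1 / 3 : ℝ) : ℂ) + ((1 / 3 : ℝ) : ℂ) = 1 := by push_cast; norm_num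
  have r0' := alg0 (e := e) (m0 := ((1 / 3 : ℝ) : ℂ)) (m1 := ((1 / 3 : ℝ) : ℂ)) (m2 := ((1 / 3 : ℝ) : ℂ))
    mm zeta_sum (hh_sum G) (kk 0) (kk 1) (kk 2) (cz0 G)
  have r1' := alg1 (e := e) (m0 := ((1 / 3 : ℝ) : ℂ)) (m1 := ((1 / 3 : ℝ) : ℂ)) (m2 := ((1 / 3 : ℝ) : ℂ))
    mm zeta_sum zeta_cube (hh_sum G) (kk 0) (kk 1) (kk 2) (cz1 G)
  have e1 : aa e G - rf kep (1 / 3) (1 / 3) (1 / 3) (rot e (start G)).1 =
      ((e * (X 0 - ((1 / 3 : ℝ) : ℂ) * (X 0 + zeta * X 1 + zeta ^ 2 * X 2)),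
        e * (zeta * X 1 - ((1 / 3 : ℝ) : ℂ) * (X 0 + zeta * X 1 + zeta ^ 2 * X 2))) : E) := by
    rw [← r0', ← r1', rf]
    simp only [rot, start]
    rw [k0, k1, k2]
    unfold aa
    refine Prod.ext ?_ ?_
    · simp only [Prod.fst_sub]
      push_cast
      ring
    · simp only [Prod.snd_sub]
      push_cast
      ring
  rw [e1]
  have hx0 : ‖X 0‖ ≤ 44 * r ^ 3 := hXn 0
  have hx1 : ‖zeta * X 1‖ ≤ 44 * r ^ 3 := by rw [norm_mul, norm_zeta, one_mul]; exact hXn 1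
  have hx2 : ‖zeta ^ 2 * X 2‖ ≤ 44 * r ^ 3 := by rw [norm_mul, norm_zeta_pow, one_mul]; exact hXn 2
  have := nn_proj (e := e) (a := 1 / 3) (b := 1 / 3) (η := 0) he hx0 hx1 hx2 (by simp) (by simp)
    (by norm_num)
  have r3 : 0 ≤ r ^ 3 := by positivity
  linarith

lemma kep_norm {z : ℂ} (h : 99 / 100 ≤ ‖z‖) : ‖kep z‖ ≤ 11 / 10 := by
  have h0 : 0 < ‖z‖ := by linarith
  rw [kep, norm_mul, Complex.norm_real, Real.norm_of_nonneg (by positivity)]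
  have e : 1 / ‖z‖ ^ 3 * ‖z‖ = 1 / ‖z‖ ^ 2 := by field_simp
  rw [e, div_le_iff₀ (by positivity)]
  nlinarith

/-- change of the masses -/
lemma mass {m : Fin 3 → ℝ} {η : ℝ} (hm : Near3 m η) {x : E} (h0 : 99 / 100 ≤ ‖x.1‖)
    (h1 : 99 / 100 ≤ ‖x.2‖) (h2 : 99 / 100 ≤ ‖x.1 + x.2‖) :
    ‖rf kep (1 / 3) (1 / 3) (1 / 3) x - rf kep (m 0) (m 1) (m 2) x‖ ≤ 10 * η := by
  have a0 := kep_norm h0
  have a1 := kep_norm h1
  have a2 := kep_norm h2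
  have hη : 0 ≤ η := (abs_nonneg _).trans (hm.2 0)
  have key : ∀ (a b c : Fin 3) (p q s : ℂ), ‖p‖ ≤ 11 / 10 → ‖q‖ ≤ 11 / 10 → ‖s‖ ≤ 11 / 10 →
      ‖(-((1 / 3 + 1 / 3 : ℝ) : ℂ) * p + ((1 / 3 : ℝ) : ℂ) * (q - s)) -
        (-((m a + m b : ℝ) : ℂ) * p + (m c : ℂ) * (q - s))‖ ≤ 10 * η := by
    intro a b c p q s hp hq hs
    have e : (-((1 / 3 + 1 / 3 : ℝ) : ℂ) * p + ((1 / 3 : ℝ) : ℂ) * (q - s)) -
        (-((m a + m b : ℝ) : ℂ) * p + (m c : ℂ) * (q - s)) =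
        (((m a - 1 / 3) + (m b - 1 / 3) : ℝ) : ℂ) * p - ((m c - 1 / 3 : ℝ) : ℂ) * (q - s) := by
      push_cast; ring
    rw [e]
    refine (norm_sub_le _ _).trans ?_
    rw [norm_mul, norm_mul, Complex.norm_real, Complex.norm_real, Real.norm_eq_abs, Real.norm_eq_abs]
    have t1 : |(m a - 1 / 3) + (m b - 1 / 3)| ≤ 2 * η :=
      (abs_add_le _ _).trans (by linarith [hm.2 a, hm.2 b])
    have t2 := hm.2 c
    have t3 : ‖q - s‖ ≤ 22 / 10 := (norm_sub_le _ _).trans (by linarith)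
    have t4 := mul_le_mul t1 hp (norm_nonneg _) (by linarith)
    have t5 := mul_le_mul t2 t3 (norm_nonneg _) hη
    linarith
  rw [Prod.norm_def]
  refine max_le ?_ ?_
  · exact key 0 1 2 _ _ _ a0 a1 a2
  · exact key 1 2 0 _ _ _ a1 a0 a2

end GrowL

end Pool.Agent.H3.LP
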