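import Pool.Agent.H3.LP.GrowA

/-! LP-GROW (helper39), part B: from `|g| = ρ` to the given `g` in the adapted norm. -/

set_option autoImplicit false

open Complex Set Pool.Agent.H3.LG
open Pool.Agent.H99.TB hiding Ph acc phaseSpace IsSol

namespace Pool.Agent.H3.LP

/-- statement of LP-INEQ -/
def S_INEQ : Prop := ∀ (m : Fin 3 → ℝ) (η ε δ : ℝ), Near3 m η → 0 ≤ η → η ≤ 1 / 100 → 0 ≤ ε → ε ≤ 1 / 100 →
    0 ≤ δ → ∀ (y φ : ℝ → E × E) (c : ℝ → ℂ) (t θ : ℝ) (a : E), ‖c t‖ = 1 → HasDerivAt c (I * θ * c t) t →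
      |θ - 1| ≤ ε → HasDerivAt y ((y t).2, rf kep (m 0) (m 1) (m 2) (y t).1) t → HasDerivAt φ ((φ t).2, a) t →
      ‖a - rf kep (m 0) (m 1) (m 2) (φ t).1‖ ≤ δ → ‖y t - rot (c t) (start 0)‖ ≤ ε →
      ‖φ t - rot (c t) (start 0)‖ ≤ ε →
      (∃ u' : ℝ, HasDerivAt (fun s => UU (y s - φ s) ^ 2) u' t ∧
        Real.sqrt 2 * UU (y t - φ t) ^ 2 - (10 ^ 6 * (ε + η) * (UU (y t - φ t) + Real.sqrt (W2 (c t) (y t - φ t))) +
          10 * δ) * UU (y t - φ t) ≤ u' ∧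
        u' ≤ Real.sqrt 2 * UU (y t - φ t) ^ 2 + (10 ^ 6 * (ε + η) * (UU (y t - φ t) +
          Real.sqrt (W2 (c t) (y t - φ t))) + 10 * δ) * UU (y t - φ t)) ∧
      ∃ w' : ℝ, HasDerivAt (fun s => W2 (c s) (y s - φ s)) w' t ∧
        w' ≤ 2 / 5 * W2 (c t) (y t - φ t) + (10 ^ 6 * (ε + η) * (UU (y t - φ t) +
          Real.sqrt (W2 (c t) (y t - φ t))) + 10 * δ) * Real.sqrt (W2 (c t) (y t - φ t))

/-- statements of LP-EQV -/
def S_LEUW : Prop := ∀ {c : ℂ} (_ : ‖c‖ = 1) (z : E × E), ‖z‖ ≤ 20 * (UU z + Real.sqrt (W2 c z))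
def S_UULE : Prop := ∀ (z : E × E), UU z ≤ 3 * ‖z‖
def S_WLE : Prop := ∀ {c : ℂ} (_ : ‖c‖ = 1) (z : E × E), Real.sqrt (W2 c z) ≤ 20 * ‖z‖

/-- statement of LP-GROW -/
def S_GROW : Prop := ∀ (g : ℂ) (C : ℝ), g ≠ 0 → ‖g‖ ≤ 1 / 10 ^ 20 → 0 < C → ∃ ρ₁ : ℝ, 0 < ρ₁ ∧ ∀ ρ : ℝ, 0 < ρ → ρ ≤ ρ₁ →
    ∃ η : ℝ, 0 < η ∧ ∃ g₁ : ℂ, ‖g₁‖ = ρ ∧ ∀ m : Fin 3 → ℝ, Near3 m η → ∀ y : ℝ → E × E, Sol m y →
      ‖y 0 - start g₁‖ ≤ C * ρ ^ 2 → ∃ T : ℝ, 0 ≤ T ∧
        (∀ t ∈ Set.Icc 0 T, ∃ c : ℂ, ‖c‖ = 1 ∧ ‖y t - rot c (start 0)‖ ≤ 1 / 100) ∧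
        ∃ c : ℂ, ‖c‖ = 1 ∧ nn ((y T).1 - (rot c (start g)).1) ≤ 10 ^ 5 * ‖g‖ ^ 3 ∧
          nn ((y T).2 - (rot c (start g)).2) ≤ 10 ^ 5 * ‖g‖ ^ 3

namespace GrowL

open NearL

lemma W2_nonneg (c : ℂ) (z : E × E) : 0 ≤ W2 c z := by
  unfold W2
  positivity

lemma diff_re {F : ℝ → ℂ} {t : ℝ} (h : DifferentiableAt ℝ F t) :
    DifferentiableAt ℝ (fun s => (F s).re) t :=
  (Complex.reCLM.differentiableAt (x := F t)).comp t h

lemma diff_im {F : ℝ → ℂ} {t : ℝ} (h : DifferentiableAt ℝ F t) :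
    DifferentiableAt ℝ (fun s => (F s).im) t :=
  (Complex.imCLM.differentiableAt (x := F t)).comp t h

lemma diff_conj {F : ℝ → ℂ} {t : ℝ} (h : DifferentiableAt ℝ F t) :
    DifferentiableAt ℝ (fun s => (starRingEnd ℂ) (F s)) t :=
  (Complex.conjCLE.differentiableAt (x := F t)).comp t h

lemma diff_f {c : ℝ → ℂ} {z : ℝ → E × E} {t : ℝ} (hc : DifferentiableAt ℝ c t)
    (hz : DifferentiableAt ℝ z t) :
    DifferentiableAt ℝ (fun s => UU (z s) ^ 2 + W2 (c s) (z s)) t := by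
  have a11 : DifferentiableAt ℝ (fun s => (z s).1.1) t := hz.fst.fst
  have a12 : DifferentiableAt ℝ (fun s => (z s).1.2) t := hz.fst.snd
  have a21 : DifferentiableAt ℝ (fun s => (z s).2.1) t := hz.snd.fst
  have a22 : DifferentiableAt ℝ (fun s => (z s).2.2) t := hz.snd.snd
  have dY : ∀ {u w : ℝ → ℂ}, DifferentiableAt ℝ u t → DifferentiableAt ℝ w t →
      DifferentiableAt ℝ (fun s => fY (u s, w s)) t := by
    intro u w hu hw
    unfold fY
    exact ((hu.add (hw.const_mul _)).sub ((hu.add hw).const_mul _)).div_const 3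
  have dX : ∀ {u w : ℝ → ℂ}, DifferentiableAt ℝ u t → DifferentiableAt ℝ w t →
      DifferentiableAt ℝ (fun s => fX (u s, w s)) t := by
    intro u w hu hw
    unfold fX
    exact ((hu.add (hw.const_mul _)).sub ((hu.add hw).const_mul _)).div_const 3
  have y1 : DifferentiableAt ℝ (fun s => fY (z s).1) t := dY a11 a12
  have y2 : DifferentiableAt ℝ (fun s => fY (z s).2) t := dY a21 a22
  have x1 : DifferentiableAt ℝ (fun s => fX (z s).1) t := dX a11 a12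
  have x2 : DifferentiableAt ℝ (fun s => fX (z s).2) t := dX a21 a22
  have cj := diff_conj hc
  have dYp : DifferentiableAt ℝ (fun s => Yp (z s)) t := by
    unfold Yp
    exact y2.add (y1.div_const _)
  have dYm : DifferentiableAt ℝ (fun s => Ym (z s)) t := by
    unfold Ym
    exact y2.sub (y1.div_const _)
  have dxx : DifferentiableAt ℝ (fun s => xx (c s) (z s)) t := by
    unfold xx
    exact cj.mul x1
  have dxi : DifferentiableAt ℝ (fun s => xi (c s) (z s)) t := by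
    unfold xi
    exact (cj.mul x2).sub ((cj.mul x1).const_mul I)
  have dc1 : DifferentiableAt ℝ (fun s => c1 (c s) (z s)) t := by
    unfold c1
    exact (diff_im dxi).add ((diff_re dxx).const_mul 2)
  have dU : DifferentiableAt ℝ (fun s => UU (z s) ^ 2) t := by
    unfold UU
    exact dYp.norm_sq ℝ
  have dW : DifferentiableAt ℝ (fun s => W2 (c s) (z s)) t := by
    unfold W2
    exact ((((dYm.norm_sq ℝ).add (((diff_re dxx).sub (dc1.const_mul 2)).pow 2)).add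
      ((diff_re dxi).pow 2)).add ((dc1.pow 2).const_mul 4)).add (((diff_im dxx).pow 2).div_const 100)
  exact dU.add dW

/-- the approximate solution -/
lemma app_deriv {G : ℝ → ℂ} {t : ℝ} (hG : HasDerivAt G (l0 * G t) t) :
    HasDerivAt (fun s : ℝ => rot (cexp (I * s)) (start (G s)))
      ((rot (cexp (I * t)) (start (G t))).2, aa (cexp (I * t)) (G t)) t := by
  have hH : HasDerivAt (fun s => (starRingEnd ℂ) (G s)) ((starRingEnd ℂ) l0 * (starRingEnd ℂ) (G t)) t := by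
    have h := Complex.conjCLE.hasFDerivAt.comp_hasDerivAt t hG
    have e : (starRingEnd ℂ) l0 * (starRingEnd ℂ) (G t) = (starRingEnd ℂ) (l0 * G t) := by
      rw [map_mul]
    rw [e]
    exact h
  have dn : ∀ j, HasDerivAt (fun s => hh (G s) j) (hd (G t) j) t := by
    intro j
    have h := P_deriv hG hH (zeta ^ j) 0 0 bb (cc * zeta ^ j)
    rw [← hd_P] at h
    have e : (fun s => hh (G s) j) = fun s => P (G s) ((starRingEnd ℂ) (G s)) (zeta ^ j) 0 0 bb (cc * zeta ^ j) := by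
      funext s; exact hh_P _ _
    rw [e]
    exact h
  have dn1 : ∀ j, HasDerivAt (fun s => hd (G s) j) (hdd (G t) j) t := by
    intro j
    have h := P_deriv hG hH (l0 * zeta ^ j) ((starRingEnd ℂ) l0 * 0)
      (2 * l0 * 0) ((l0 + (starRingEnd ℂ) l0) * bb) (2 * (starRingEnd ℂ) l0 * (cc * zeta ^ j))
    rw [← hdd_P] at h
    have e : (fun s => hd (G s) j) = fun s => P (G s) ((starRingEnd ℂ) (G s)) (l0 * zeta ^ j) ((starRingEnd ℂ) l0 * 0)
        (2 * l0 * 0) ((l0 + (starRingEnd ℂ) l0) * bb) (2 * (starRingEnd ℂ) l0 * (cc * zeta ^ j)) := by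
      funext s; exact hd_P _ _
    rw [e]
    exact h
  have w1 : ∀ j, HasDerivAt (fun s => 1 + hh (G s) j) (hd (G t) j) t := fun j => (dn j).const_add 1
  have w2 : ∀ j, HasDerivAt (fun s => I * (1 + hh (G s) j) + hd (G s) j) (I * hd (G t) j + hdd (G t) j) t :=
    fun j => ((w1 j).const_mul I).add (dn1 j)
  have c1 : HasDerivAt (fun s : ℝ => cexp (I * s) * (1 + hh (G s) 0))
      (cexp (I * t) * (I * (1 + hh (G t) 0) + hd (G t) 0)) t :=
    ((deriv_eit t).mul (w1 0)).congr_deriv (by ring)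
  have c2 : HasDerivAt (fun s : ℝ => cexp (I * s) * (zeta * (1 + hh (G s) 1)))
      (cexp (I * t) * (zeta * (I * (1 + hh (G t) 1) + hd (G t) 1))) t :=
    ((deriv_eit t).mul ((w1 1).const_mul zeta)).congr_deriv (by ring)
  have c3 : HasDerivAt (fun s : ℝ => cexp (I * s) * (I * (1 + hh (G s) 0) + hd (G s) 0))
      (cexp (I * t) * (-(1 + hh (G t) 0) + 2 * I * hd (G t) 0 + hdd (G t) 0)) t :=
    ((deriv_eit t).mul (w2 0)).congr_deriv
      (by linear_combination (cexp (I * t) * (1 + hh (G t) 0)) * I_mul_I)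
  have c4 : HasDerivAt (fun s : ℝ => cexp (I * s) * (zeta * (I * (1 + hh (G s) 1) + hd (G s) 1)))
      (cexp (I * t) * (zeta * (-(1 + hh (G t) 1) + 2 * I * hd (G t) 1 + hdd (G t) 1))) t :=
    ((deriv_eit t).mul ((w2 1).const_mul zeta)).congr_deriv
      (by linear_combination (cexp (I * t) * zeta * (1 + hh (G t) 1)) * I_mul_I)
  exact (c1.prodMk c2).prodMk (c3.prodMk c4)

/-- near the triangle the cut off does nothing -/
lemma uncut {m : Fin 3 → ℝ} {y : ℝ → E × E} (hy : Sol m y) {t ε : ℝ} {c : ℂ} (hc : ‖c‖ = 1)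
    (hε : ε ≤ 1 / 10) (h : ‖y t - rot c (start 0)‖ ≤ ε) :
    HasDerivAt y ((y t).2, rf kep (m 0) (m 1) (m 2) (y t).1) t := by
  have hst : rot c (start 0) = ((c, c * zeta), (c * I, c * (zeta * I))) := by
    unfold start hh hd rot
    simp
  rw [hst] at h
  have h1 : ‖(y t).1.1 - c‖ ≤ ε := ((norm_fst_le (y t - _).1).trans (norm_fst_le _)).trans h
  have h2 : ‖(y t).1.2 - c * zeta‖ ≤ ε := ((norm_snd_le (y t - _).1).trans (norm_fst_le _)).trans h
  have h3 : ‖(y t).2.1 - c * I‖ ≤ ε := ((norm_fst_le (y t - _).2).trans (norm_snd_le _)).trans h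
  have h4 : ‖(y t).2.2 - c * (zeta * I)‖ ≤ ε := ((norm_snd_le (y t - _).2).trans (norm_snd_le _)).trans h
  have lo : ∀ {x y : ℂ} {s : ℝ}, ‖y‖ = 1 → ‖x - y‖ ≤ s → s ≤ 1 / 2 → 1 / 100 ≤ ‖x‖ := by
    intro x y s h2 h3 h4
    have := norm_sub_norm_le y x
    rw [norm_sub_rev] at this
    linarith
  have hi : ∀ {x y : ℂ} {s : ℝ}, ‖y‖ = 1 → ‖x - y‖ ≤ s → s ≤ 1 / 2 → ‖x‖ ≤ 32 := by
    intro x y s h2 h3 h4
    have := norm_sub_norm_le x y
    linarith
  have g1 : 1 / 100 ≤ ‖(y t).1.1‖ := lo hc h1 (by linarith)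
  have g2 : 1 / 100 ≤ ‖(y t).1.2‖ := lo (by rw [norm_mul, hc, norm_zeta, one_mul]) h2 (by linarith)
  have g3 : 1 / 100 ≤ ‖(y t).1.1 + (y t).1.2‖ := by
    have e : (y t).1.1 + (y t).1.2 - -(c * zeta ^ 2) = ((y t).1.1 - c) + ((y t).1.2 - c * zeta) := by
      linear_combination c * zeta_sum
    refine lo (y := -(c * zeta ^ 2)) (s := 2 * ε) ?_ ?_ (by linarith)
    · rw [norm_neg, norm_mul, hc, norm_zeta_pow, one_mul]
    · rw [e]
      exact (norm_add_le _ _).trans (by linarith)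
  have v1 : ‖(y t).2.1‖ ≤ 32 := hi (by rw [norm_mul, hc, norm_I, one_mul]) h3 (by linarith)
  have v2 : ‖(y t).2.2‖ ≤ 32 := hi (by rw [norm_mul, norm_mul, hc, norm_I, norm_zeta]; norm_num) h4 (by linarith)
  have h5 := hy t
  have e : fld (1 / 100) 32 (m 0) (m 1) (m 2) (y t) = ((y t).2, rf kep (m 0) (m 1) (m 2) (y t).1) := by
    refine Prod.ext ?_ ?_
    · show (cut 32 (y t).2.1, cut 32 (y t).2.2) = (y t).2
      rw [cut_eq (by norm_num) v1, cut_eq (by norm_num) v2]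
    · show rf (ker (1 / 100)) (m 0) (m 1) (m 2) (y t).1 = _
      rw [rf, rf, ker_eq g1, ker_eq g2, ker_eq g3]
  rw [e] at h5
  exact h5

/-- the inequality at a crossing of the barrier -/
lemma barrier {U W w B X r M δ q u' w' : ℝ} (hw : W ^ 2 = w)
    (hB : B = 600 * r ^ 3 + 40 * X) (hS : U ^ 2 + w = B ^ 2) (hr : 0 < r) (hX : 0 ≤ X) (hM0 : 0 ≤ M)
    (hM : M ≤ 1 / 10 ^ 6) (hδ0 : 0 ≤ δ) (hδ : δ ≤ 81 * r ^ 3) (hq : 7071 / 10000 ≤ q)
    (hu : u' ≤ Real.sqrt 2 * U ^ 2 + (M * (U + W) + 10 * δ) * U)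
    (hw' : w' ≤ 2 / 5 * w + (M * (U + W) + 10 * δ) * W) :
    u' + w' < 2 * B * (1800 * q * r ^ 3 + 30 * X) := by
  have h2 : Real.sqrt 2 ≤ 14143 / 10000 := by
    rw [show (14143 / 10000 : ℝ) = Real.sqrt ((14143 / 10000) ^ 2) by
      rw [Real.sqrt_sq (by norm_num)]]
    exact Real.sqrt_le_sqrt (by norm_num)
  have r3 : 0 < r ^ 3 := by positivity
  have hB0 : 0 < B := by rw [hB]; positivity
  have hw0 : 0 ≤ w := by rw [← hw]; positivity
  have s1 : (U + W) ^ 2 ≤ 2 * B ^ 2 := by nlinarith [sq_nonneg (U - W)]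
  have s2 : U + W ≤ 14143 / 10000 * B := by
    refine abs_le_of_sq_le_sq' ?_ (by positivity) |>.2
    nlinarith [sq_nonneg B]
  have s3 : u' + w' ≤ 14143 / 10000 * B ^ 2 + M * (2 * B ^ 2) + 10 * δ * (14143 / 10000 * B) := by
    have t1 : Real.sqrt 2 * U ^ 2 ≤ 14143 / 10000 * U ^ 2 := mul_le_mul_of_nonneg_right h2 (sq_nonneg _)
    have t2 : M * (U + W) ^ 2 ≤ M * (2 * B ^ 2) := mul_le_mul_of_nonneg_left s1 hM0
    have t3 : 10 * δ * (U + W) ≤ 10 * δ * (14143 / 10000 * B) :=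
      mul_le_mul_of_nonneg_left s2 (by positivity)
    have t4 : 2 / 5 * w ≤ 14143 / 10000 * w := by linarith
    have t5 : 14143 / 10000 * U ^ 2 + 14143 / 10000 * w = 14143 / 10000 * B ^ 2 := by
      rw [← mul_add, hS]
    have t6 : (M * (U + W) + 10 * δ) * U + (M * (U + W) + 10 * δ) * W =
      M * (U + W) ^ 2 + 10 * δ * (U + W) := by ring
    linarith
  have s4 : 14143 / 10000 * B ^ 2 + M * (2 * B ^ 2) + 10 * δ * (14143 / 10000 * B) =
      B * ((14143 / 10000 + 2 * M) * B + 14143 / 1000 * δ) := by ring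
  have s5 : (14143 / 10000 + 2 * M) * B + 14143 / 1000 * δ < 2 * (1800 * q * r ^ 3 + 30 * X) := by
    have t1 : (14143 / 10000 + 2 * M) * B ≤ (14144 / 10000) * B :=
      mul_le_mul_of_nonneg_right (by linarith) hB0.le
    have t2 : 1800 * (7071 / 10000) * r ^ 3 ≤ 1800 * q * r ^ 3 :=
      mul_le_mul_of_nonneg_right (by linarith) r3.le
    rw [hB] at t1 ⊢
    linarith
  calc u' + w' ≤ B * ((14143 / 10000 + 2 * M) * B + 14143 / 1000 * δ) := by rw [← s4]; exact s3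
    _ < B * (2 * (1800 * q * r ^ 3 + 30 * X)) := mul_lt_mul_of_pos_left s5 hB0
    _ = _ := by ring

end GrowL

open GrowL NearL in
theorem grow_of (hI : S_INEQ) (hLE : S_LEUW) (hUU : S_UULE) (hWW : S_WLE) : S_GROW := by
  intro g C hg0 hg1 hC
  have hgp : 0 < ‖g‖ := norm_pos_iff.2 hg0
  obtain ⟨ρ₁, hρ₁⟩ : ∃ ρ₁ : ℝ, ρ₁ = min ‖g‖ (‖g‖ ^ 3 / (40 * C) ^ 2) := ⟨_, rfl⟩
  refine ⟨ρ₁, by rw [hρ₁]; exact lt_min hgp (by positivity), ?_⟩
  intro ρ hρ0 hρ
  have hρg : ρ ≤ ‖g‖ := hρ.trans (by rw [hρ₁]; exact min_le_left _ _)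
  have hρC : ρ ≤ ‖g‖ ^ 3 / (40 * C) ^ 2 := hρ.trans (by rw [hρ₁]; exact min_le_right _ _)
  rw [le_div_iff₀ (by positivity)] at hρC
  obtain ⟨L, hL⟩ : ∃ L : ℝ, L = Real.log (‖g‖ / ρ) := ⟨_, rfl⟩
  have hL0 : 0 ≤ L := by
    rw [hL]
    exact Real.log_nonneg (by rw [le_div_iff₀ hρ0]; linarith)
  have hexpL : Real.exp L = ‖g‖ / ρ := by rw [hL, Real.exp_log (by positivity)]
  have hs2 : Real.sqrt 2 * Real.sqrt 2 = 2 := Real.mul_self_sqrt (by norm_num)
  have hs0 : 0 < Real.sqrt 2 := Real.sqrt_pos.2 (by norm_num)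
  have hs1 : Real.sqrt 2 ≤ 2 := by nlinarith
  obtain ⟨T, hT⟩ : ∃ T : ℝ, T = Real.sqrt 2 * L := ⟨_, rfl⟩
  have hT0 : 0 ≤ T := by rw [hT]; positivity
  obtain ⟨q, hq⟩ : ∃ q : ℝ, q = l0.re := ⟨_, rfl⟩
  have hq1 : 7071 / 10000 ≤ q := by rw [hq]; exact l0_re
  have hqT : q * T = L := by
    rw [hq, hT, l0_re_eq]
    linear_combination (L / 2) * hs2
  obtain ⟨G, hG⟩ : ∃ G : ℝ → ℂ, G = fun t : ℝ => g * cexp (l0 * ((t : ℂ) - (T : ℂ))) := ⟨_, rfl⟩
  obtain ⟨r, hr⟩ : ∃ r : ℝ → ℝ, r = fun t => ‖g‖ * Real.exp (q * (t - T)) := ⟨_, rfl⟩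
  have hGn : ∀ t, ‖G t‖ = r t := by
    intro t
    rw [hG, hr]
    simp only [norm_mul, Complex.norm_exp]
    congr 2
    have : l0 * ((t : ℂ) - (T : ℂ)) = ((t - T : ℝ) : ℂ) * l0 := by push_cast; ring
    rw [this, Complex.re_ofReal_mul, hq]; ring
  have hr0 : ∀ t, 0 < r t := by intro t; rw [hr]; positivity
  have hr1 : ∀ t, t ≤ T → r t ≤ ‖g‖ := by
    intro t ht
    rw [hr]
    have : Real.exp (q * (t - T)) ≤ 1 :=
      Real.exp_le_one_iff.2 (mul_nonpos_of_nonneg_of_nonpos (by linarith) (by linarith))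
    exact mul_le_of_le_one_right hgp.le this
  have hg6 : ‖g‖ ≤ 1 / 10 ^ 6 := hg1.trans (by norm_num)
  have hr00 : r 0 = ρ := by
    rw [hr]
    simp only
    have e : q * (0 - T) = -L := by rw [← hqT]; ring
    rw [e, Real.exp_neg, hexpL]
    field_simp
  have hrρ : ∀ t, 0 ≤ t → ρ ≤ r t := by
    intro t ht
    rw [← hr00, hr]
    simp only
    have : Real.exp (q * (0 - T)) ≤ Real.exp (q * (t - T)) := by
      apply Real.exp_le_exp.2
      nlinarith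
    gcongr
  have hGT : G T = g := by rw [hG]; simp
  have hGd : ∀ t, HasDerivAt G (l0 * G t) t := by
    intro t
    rw [hG]
    have h2 : HasDerivAt (fun s : ℝ => l0 * ((s : ℂ) - (T : ℂ))) (l0 * 1) t :=
      ((Complex.ofRealCLM.hasDerivAt (x := t)).sub_const (T : ℂ)).const_mul l0
    exact ((h2.cexp).const_mul g).congr_deriv (by ring)
  have dr : ∀ t, HasDerivAt r (q * r t) t := by
    intro t
    rw [hr]
    have h2 : HasDerivAt (fun s : ℝ => q * (s - T)) (q * 1) t := ((hasDerivAt_id t).sub_const T).const_mul _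
    exact ((h2.exp).const_mul ‖g‖).congr_deriv (by ring)
  -- the barrier
  obtain ⟨X, hX⟩ : ∃ X : ℝ → ℝ, X = fun t => C * ρ ^ 2 * Real.exp (3 / 4 * t) := ⟨_, rfl⟩
  have hX0 : ∀ t, 0 ≤ X t := by intro t; rw [hX]; positivity
  have hXm : ∀ t, t ≤ T → X t ≤ X T := by
    intro t ht
    rw [hX]
    simp only
    gcongr
  have dX : ∀ t, HasDerivAt X (3 / 4 * X t) t := by
    intro t
    rw [hX]
    have h2 : HasDerivAt (fun s : ℝ => 3 / 4 * s) (3 / 4 * 1) t := (hasDerivAt_id t).const_mul _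
    exact ((h2.exp).const_mul (C * ρ ^ 2)).congr_deriv (by ring)
  have hXT : 40 * X T ≤ ‖g‖ ^ 3 := by
    obtain ⟨s, hs⟩ : ∃ s : ℝ, s = Real.exp (L / 2) := ⟨_, rfl⟩
    have hs0' : 0 < s := by rw [hs]; exact Real.exp_pos _
    have e1 : ρ * s ^ 2 = ‖g‖ := by
      rw [hs, ← Real.exp_nat_mul]
      have : ((2 : ℕ) : ℝ) * (L / 2) = L := by push_cast; ring
      rw [this, hexpL]
      field_simp
    have e2 : Real.exp (3 / 4 * T) ≤ s ^ 3 := by
      rw [hs, ← Real.exp_nat_mul]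
      apply Real.exp_le_exp.2
      rw [hT]
      push_cast
      nlinarith
    have e3 : 40 * C ≤ ‖g‖ * s := by
      refine abs_le_of_sq_le_sq' ?_ (by positivity) |>.2
      have : ‖g‖ ^ 2 * s ^ 2 * ρ = ‖g‖ ^ 3 := by
        calc ‖g‖ ^ 2 * s ^ 2 * ρ = ‖g‖ ^ 2 * (ρ * s ^ 2) := by ring
          _ = _ := by rw [e1]; ring
      have h5 : ρ * (40 * C) ^ 2 ≤ ρ * (‖g‖ * s) ^ 2 := by
        calc ρ * (40 * C) ^ 2 ≤ ‖g‖ ^ 3 := hρC
          _ = ρ * (‖g‖ * s) ^ 2 := by rw [← this]; ring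
      exact le_of_mul_le_mul_left h5 hρ0
    rw [hX]
    simp only
    calc 40 * (C * ρ ^ 2 * Real.exp (3 / 4 * T)) ≤ 40 * (C * ρ ^ 2 * s ^ 3) := by gcongr
      _ = (40 * C) * (ρ * s) * (ρ * s ^ 2) := by ring
      _ ≤ (‖g‖ * s) * (ρ * s) * (ρ * s ^ 2) := by gcongr
      _ = ‖g‖ * (ρ * s ^ 2) * (ρ * s ^ 2) := by ring
      _ = ‖g‖ ^ 3 := by rw [e1]; ring
  obtain ⟨B, hB⟩ : ∃ B : ℝ → ℝ, B = fun t => 600 * r t ^ 3 + 40 * X t := ⟨_, rfl⟩
  have hB0 : ∀ t, 0 < B t := by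
    intro t
    rw [hB]
    have := hr0 t
    have := hX0 t
    positivity
  have hBT : ∀ t, t ≤ T → B t ≤ 601 * ‖g‖ ^ 3 := by
    intro t ht
    rw [hB]
    simp only
    have h1 := hXm t ht
    have h2 : r t ^ 3 ≤ ‖g‖ ^ 3 := by
      have := (hr0 t).le
      gcongr
      exact hr1 t ht
    linarith
  have dB : ∀ t, HasDerivAt B (1800 * q * r t ^ 3 + 30 * X t) t := by
    intro t
    rw [hB]
    refine ((((dr t).pow 3).const_mul 600).add ((dX t).const_mul 40)).congr_deriv ?_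
    simp only [Nat.cast_ofNat, Nat.add_one_sub_one]
    ring
  have g3 : ‖g‖ ^ 3 ≤ 1 / 10 ^ 40 * ‖g‖ := by
    calc ‖g‖ ^ 3 = ‖g‖ ^ 2 * ‖g‖ := by ring
      _ ≤ (1 / 10 ^ 20) ^ 2 * ‖g‖ := by gcongr
      _ = _ := by norm_num
  -- the masses
  obtain ⟨η, hη⟩ : ∃ η : ℝ, η = min (1 / 10 ^ 20) (ρ ^ 3 / 10) := ⟨_, rfl⟩
  have hη0 : 0 < η := by rw [hη]; exact lt_min (by norm_num) (by positivity)
  have hη1 : η ≤ 1 / 10 ^ 20 := by rw [hη]; exact min_le_left _ _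
  have hη2 : 10 * η ≤ ρ ^ 3 := by
    have : η ≤ ρ ^ 3 / 10 := by rw [hη]; exact min_le_right _ _
    linarith
  refine ⟨η, hη0, G 0, by rw [hGn, hr00], ?_⟩
  intro m hm y hy hy0
  obtain ⟨p, hp⟩ : ∃ p : ℝ → E × E, p = fun s : ℝ => rot (cexp (I * s)) (start (G s)) := ⟨_, rfl⟩
  have dp : ∀ t, HasDerivAt p ((p t).2, aa (cexp (I * t)) (G t)) t := by
    intro t
    rw [hp]
    exact app_deriv (hGd t)
  have np : ∀ t, t ≤ T → ‖p t - rot (cexp (I * t)) (start 0)‖ ≤ 3 * r t := by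
    intro t ht
    rw [hp]
    simp only
    rw [← Sy.rot_sub, Sy.rot_norm (norm_eit t)]
    exact start_near (hGn t) ((hr1 t ht).trans hg6)
  have res : ∀ t, 0 ≤ t → t ≤ T →
      ‖aa (cexp (I * t)) (G t) - rf kep (m 0) (m 1) (m 2) (p t).1‖ ≤ 81 * r t ^ 3 := by
    intro t ht0 ht
    have h1 := resid (norm_eit t) (hGn t) ((hr1 t ht).trans hg6)
    have h2 := (Sy.norm_le_nn _).trans h1
    have h3 := np t ht
    have h4 : 3 * r t ≤ 1 / 1000 := by
      have := hr1 t ht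
      linarith
    have hst : rot (cexp (I * t)) (start 0) = ((cexp (I * t), cexp (I * t) * zeta),
        (cexp (I * t) * I, cexp (I * t) * (zeta * I))) := by
      unfold start hh hd rot
      simp
    rw [hst] at h3
    have h5 : ‖(p t).1.1 - cexp (I * t)‖ ≤ 1 / 1000 :=
      (((norm_fst_le (p t - _).1).trans (norm_fst_le _)).trans h3).trans h4
    have h6 : ‖(p t).1.2 - cexp (I * t) * zeta‖ ≤ 1 / 1000 :=
      (((norm_snd_le (p t - _).1).trans (norm_fst_le _)).trans h3).trans h4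
    have lo : ∀ {x y : ℂ} {s : ℝ}, ‖y‖ = 1 → ‖x - y‖ ≤ s → s ≤ 1 / 100 → 99 / 100 ≤ ‖x‖ := by
      intro x y s h2 h3 h4
      have := norm_sub_norm_le y x
      rw [norm_sub_rev] at this
      linarith
    have g1 : 99 / 100 ≤ ‖(p t).1.1‖ := lo (norm_eit t) h5 (by norm_num)
    have g2 : 99 / 100 ≤ ‖(p t).1.2‖ :=
      lo (by rw [norm_mul, norm_eit, norm_zeta, one_mul]) h6 (by norm_num)
    have g3 : 99 / 100 ≤ ‖(p t).1.1 + (p t).1.2‖ := by
      have e : (p t).1.1 + (p t).1.2 - -(cexp (I * t) * zeta ^ 2) =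
          ((p t).1.1 - cexp (I * t)) + ((p t).1.2 - cexp (I * t) * zeta) := by
        linear_combination cexp (I * t) * zeta_sum
      refine lo (y := -(cexp (I * t) * zeta ^ 2)) (s := 2 / 1000) ?_ ?_ (by norm_num)
      · rw [norm_neg, norm_mul, norm_eit, norm_zeta_pow, one_mul]
      · rw [e]
        exact (norm_add_le _ _).trans (by linarith)
    have h7 := mass hm g1 g2 g3
    have h8 : (p t).1 = (rot (cexp (I * t)) (start (G t))).1 := by rw [hp]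
    have h9 : ρ ^ 3 ≤ r t ^ 3 := by
      have := hrρ t ht0
      gcongr
    have e : aa (cexp (I * t)) (G t) - rf kep (m 0) (m 1) (m 2) (p t).1 =
        (aa (cexp (I * t)) (G t) - rf kep (1 / 3) (1 / 3) (1 / 3) (p t).1) +
        (rf kep (1 / 3) (1 / 3) (1 / 3) (p t).1 - rf kep (m 0) (m 1) (m 2) (p t).1) := by abel
    rw [← h8] at h2
    rw [e]
    refine (norm_add_le _ _).trans ?_
    linarith
  -- the comparison
  obtain ⟨f, hf⟩ : ∃ f : ℝ → ℝ, f = fun s : ℝ => UU (y s - p s) ^ 2 + W2 (cexp (I * s)) (y s - p s) :=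
    ⟨_, rfl⟩
  have df : ∀ t, DifferentiableAt ℝ f t := by
    intro t
    rw [hf]
    exact diff_f (deriv_eit t).differentiableAt ((hy t).differentiableAt.sub (dp t).differentiableAt)
  have hsmall : ∀ t, 0 ≤ t → t ≤ T → f t ≤ B t ^ 2 →
      UU (y t - p t) ≤ B t ∧ Real.sqrt (W2 (cexp (I * t)) (y t - p t)) ≤ B t ∧
      ‖y t - p t‖ ≤ 24040 * ‖g‖ ^ 3 ∧ ‖y t - rot (cexp (I * t)) (start 0)‖ ≤ 4 * ‖g‖ := by
    intro t ht0 ht hle
    have hb := hB0 t
    have w0 := W2_nonneg (cexp (I * t)) (y t - p t)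
    have u0 : 0 ≤ UU (y t - p t) := norm_nonneg _
    rw [hf] at hle
    simp only at hle
    have h1 : UU (y t - p t) ≤ B t := by
      refine abs_le_of_sq_le_sq' ?_ hb.le |>.2
      linarith
    have h2 : Real.sqrt (W2 (cexp (I * t)) (y t - p t)) ≤ B t := by
      refine Real.sqrt_le_iff.2 ⟨hb.le, ?_⟩
      have := sq_nonneg (UU (y t - p t))
      linarith
    have h3 := hLE (norm_eit t) (y t - p t)
    have h4 := hBT t ht
    have h5 : ‖y t - p t‖ ≤ 24040 * ‖g‖ ^ 3 := by linarith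
    refine ⟨h1, h2, h5, ?_⟩
    have e : y t - rot (cexp (I * t)) (start 0) = (y t - p t) + (p t - rot (cexp (I * t)) (start 0)) := by
      abel
    rw [e]
    refine (norm_add_le _ _).trans ?_
    have h6 := np t ht
    have h7 := hr1 t ht
    linarith
  have key : ∀ t ∈ Icc 0 T, f t ≤ B t ^ 2 := by
    have dB2 : ∀ t, HasDerivAt (fun s => B s ^ 2) (2 * B t * (1800 * q * r t ^ 3 + 30 * X t)) t := by
      intro t
      refine ((dB t).pow 2).congr_deriv ?_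
      simp only [Nat.cast_ofNat, Nat.add_one_sub_one, pow_one]
    have := image_le_of_deriv_right_lt_deriv_boundary' (f := f) (f' := deriv f) (a := 0) (b := T)
      (B := fun s => B s ^ 2) (B' := fun t => 2 * B t * (1800 * q * r t ^ 3 + 30 * X t))
      (fun t _ => (df t).continuousAt.continuousWithinAt)
      (fun t _ => (df t).hasDerivAt.hasDerivWithinAt) ?_
      (fun t _ => (dB2 t).continuousAt.continuousWithinAt)
      (fun t _ => (dB2 t).hasDerivWithinAt) ?_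
    · exact fun t ht => this ht
    · -- initial value
      have e0 : p 0 = start (G 0) := by
        rw [hp]
        simp only [Complex.ofReal_zero, mul_zero, Complex.exp_zero]
        exact Sy.rot_one _
      have h1 := hUU (y 0 - p 0)
      have h2 := hWW (norm_eit 0) (y 0 - p 0)
      have w0 := W2_nonneg (cexp (I * (0 : ℝ))) (y 0 - p 0)
      have u0 : 0 ≤ UU (y 0 - p 0) := norm_nonneg _
      have h3 : ‖y 0 - p 0‖ ≤ C * ρ ^ 2 := by rw [e0]; exact hy0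
      have hX00 : X 0 = C * ρ ^ 2 := by rw [hX]; simp
      have h4 : 40 * (C * ρ ^ 2) ≤ B 0 := by
        rw [hB]
        simp only
        rw [hX00]
        have := hr0 0
        have : 0 ≤ 600 * r 0 ^ 3 := by positivity
        linarith
      have h5 : 0 ≤ C * ρ ^ 2 := by positivity
      have h6 : UU (y 0 - p 0) ≤ 3 * (C * ρ ^ 2) := h1.trans (by linarith)
      have h7 : Real.sqrt (W2 (cexp (I * (0 : ℝ))) (y 0 - p 0)) ≤ 20 * (C * ρ ^ 2) := h2.trans (by linarith)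
      have h8 : W2 (cexp (I * (0 : ℝ))) (y 0 - p 0) ≤ (20 * (C * ρ ^ 2)) ^ 2 := (Real.sqrt_le_iff.1 h7).2
      have h9 : UU (y 0 - p 0) ^ 2 ≤ (3 * (C * ρ ^ 2)) ^ 2 := by gcongr
      have h10 : (40 * (C * ρ ^ 2)) ^ 2 ≤ B 0 ^ 2 := by gcongr
      rw [hf]
      simp only
      have h11 := sq_nonneg (C * ρ ^ 2)
      nlinarith
    · -- the crossing
      intro t ht heq
      have ht0 : 0 ≤ t := ht.1
      have htT : t ≤ T := ht.2.le
      obtain ⟨h1, h2, h3, h4⟩ := hsmall t ht0 htT heq.le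
      have hε : 4 * ‖g‖ ≤ 1 / 100 := by linarith
      have hdy := uncut hy (norm_eit t) (ε := 4 * ‖g‖) (by linarith) h4
      have hpn : ‖p t - rot (cexp (I * t)) (start 0)‖ ≤ 4 * ‖g‖ := by
        have := np t htT
        have := hr1 t htT
        linarith
      obtain ⟨⟨u', hu', -, hu2⟩, w', hw', hw2⟩ := hI m η (4 * ‖g‖) (81 * r t ^ 3) hm hη0.le
        (hη1.trans (by norm_num)) (by positivity) hε (by have := hr0 t; positivity) y p
        (fun s => cexp (I * s)) t 1 (aa (cexp (I * t)) (G t)) (norm_eit t)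
        (by simpa using deriv_eit t) (by simp) hdy (dp t)
        (res t ht0 htT) h4 hpn
      have hdf : deriv f t = u' + w' := by
        rw [hf]
        exact (hu'.add hw').deriv
      rw [hdf]
      have hS : UU (y t - p t) ^ 2 + W2 (cexp (I * t)) (y t - p t) = B t ^ 2 := by
        rw [← heq, hf]
      refine barrier (Real.sq_sqrt (W2_nonneg _ _)) (by rw [hB]) hS
        (hr0 t) (hX0 t) (M := 10 ^ 6 * (4 * ‖g‖ + η)) (by positivity) ?_ (by have := hr0 t; positivity)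
        le_rfl hq1 hu2 hw2
      have : 4 * ‖g‖ + η ≤ 5 / 10 ^ 20 := by linarith
      calc (10 : ℝ) ^ 6 * (4 * ‖g‖ + η) ≤ 10 ^ 6 * (5 / 10 ^ 20) := by gcongr
        _ ≤ _ := by norm_num
  refine ⟨T, hT0, ?_, cexp (I * T), norm_eit T, ?_⟩
  · intro t ht
    refine ⟨cexp (I * t), norm_eit t, ?_⟩
    have := (hsmall t ht.1 ht.2 (key t ht)).2.2.2
    linarith
  · have h := (hsmall T hT0 le_rfl (key T ⟨hT0, le_rfl⟩)).2.2.1
    have e : p T = rot (cexp (I * T)) (start g) := by rw [hp]; simp only [hGT]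
    rw [e] at h
    have g30 : 0 < ‖g‖ ^ 3 := by positivity
    constructor
    · refine (Sy.nn_le_norm _).trans ?_
      have h1 : ‖(y T).1 - (rot (cexp (I * T)) (start g)).1‖ ≤ 24040 * ‖g‖ ^ 3 :=
        (norm_fst_le (y T - rot (cexp (I * T)) (start g))).trans h
      linarith
    · refine (Sy.nn_le_norm _).trans ?_
      have h1 : ‖(y T).2 - (rot (cexp (I * T)) (start g)).2‖ ≤ 24040 * ‖g‖ ^ 3 :=
        (norm_snd_le (y T - rot (cexp (I * T)) (start g))).trans h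
      linarith

end Pool.Agent.H3.LP
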