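import Pool.Agent.H3.LP.Defs

/-! Stubs for project 3LP (MP_6e7c44_mp). NOT a hand-in; each stub is proved in its own file
`Pool/Agent/H3/LP/<Name>.lean`. Proof text: team-store get 3lp_proof.md -/

set_option autoImplicit false

open Complex Filter Topology Pool.Agent.H3.LG
open Pool.Agent.H99.TB hiding Ph acc phaseSpace IsSol
open Pool.Agent.H3.TB (Ph acc phaseSpace IsSol IsForwardSol IsRelPeriodic)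

namespace Pool.Agent.H3.LP

/-! ### LP-ACC : difference of the accelerations of two states near the rotating triangle -/

theorem accdiff {m : Fin 3 → ℝ} {η ε : ℝ} (hm : Near3 m η) (hη : η ≤ 1 / 100) (hε : ε ≤ 1 / 100) {c : ℂ}
    (hc : ‖c‖ = 1) {x y : E} (hx : ‖x - (c, c * zeta)‖ ≤ ε) (hy : ‖y - (c, c * zeta)‖ ≤ ε) :
    ‖fY (rf kep (m 0) (m 1) (m 2) x - rf kep (m 0) (m 1) (m 2) y) - fY (x - y) / 2‖ ≤ 200 * (ε + η) * ‖x - y‖ ∧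
    ‖fX (rf kep (m 0) (m 1) (m 2) x - rf kep (m 0) (m 1) (m 2) y) -
      (fX (x - y) / 2 + 3 / 2 * c ^ 2 * (starRingEnd ℂ) (fX (x - y)))‖ ≤ 200 * (ε + η) * ‖x - y‖ := sorry

/-! ### LP-EQV : equivalence of norms -/

theorem le_UW {c : ℂ} (hc : ‖c‖ = 1) (z : E × E) : ‖z‖ ≤ 20 * (UU z + Real.sqrt (W2 c z)) := sorry

theorem UU_le (z : E × E) : UU z ≤ 3 * ‖z‖ := sorry

theorem W_le {c : ℂ} (hc : ‖c‖ = 1) (z : E × E) : Real.sqrt (W2 c z) ≤ 20 * ‖z‖ := sorry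

/-! ### LP-INEQ : differential inequalities for the difference `z` of a solution and an approximate solution -/

theorem ineq : ∀ (m : Fin 3 → ℝ) (η ε δ : ℝ), Near3 m η → 0 ≤ η → η ≤ 1 / 100 → 0 ≤ ε → ε ≤ 1 / 100 →
    0 ≤ δ → ∀ (y φ : ℝ → E × E) (c : ℝ → ℂ) (t θ : ℝ) (a : E), ‖c t‖ = 1 → HasDerivAt c (I * θ * c t) t →
      |θ - 1| ≤ ε → HasDerivAt y ((y t).2, rf kep (m 0) (m 1) (m 2) (y t).1) t → HasDerivAt φ ((φ t).2, a) t →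
      ‖a - rf kep (m 0) (m 1) (m 2) (φ t).1‖ ≤ δ → ‖y t - rot (c t) (start 0)‖ ≤ ε →
      ‖φ t - rot (c t) (start 0)‖ ≤ ε →
      (∃ u' : ℝ, HasDerivAt (fun s => UU (y s - φ s) ^ 2) u' t ∧
        Real.sqrt 2 * UU (y t - φ t) ^ 2 - (10 ^ 6 * (ε + η) * (UU (y t - φ t) + Real.sqrt (W2 (c t) (y t - φ t))) +
          10 * δ) * UU (y t - φ t) ≤ u' ∧
        u' ≤ Real.sqrt 2 * UU (y t - φ t) ^ 2 + (10 ^ 6 * (ε + η) * (UU (y t - φ t) +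
          Real.sqrt (W2 (c t) (y t - φ t))) + 10 * δ) * UU (y t - φ t)) ∧
      ∃ w' : ℝ, HasDerivAt (fun s => W2 (c s) (y s - φ s)) w' t ∧
        w' ≤ 2 / 5 * W2 (c t) (y t - φ t) + (10 ^ 6 * (ε + η) * (UU (y t - φ t) +
          Real.sqrt (W2 (c t) (y t - φ t))) + 10 * δ) * Real.sqrt (W2 (c t) (y t - φ t)) := sorry

/-! ### LP-FLOW : the flow of the cut off problem -/

theorem flow {m : Fin 3 → ℝ} (hm : ∀ a, 0 ≤ m a) : ∃ Φ : (E × E) → ℝ → (E × E),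
    (∀ z, Φ z 0 = z) ∧ (∀ z, Sol m (Φ z)) ∧ Continuous (fun p : (E × E) × ℝ => Φ p.1 p.2) ∧
    ∀ (γ : ℝ → E × E), Sol m γ → ∀ t, γ t = Φ (γ 0) t := sorry

/-! ### LP-LIFT : every exit phase occurs (intermediate value theorem for the lifted phase) -/

theorem lift {r₀ : ℝ} (hr : 0 < r₀) {Z Z' : ℝ → ℝ → ℂ} {T : ℝ → ℝ}
    (hZ : ContinuousOn (fun p : ℝ × ℝ => Z p.1 p.2) (Set.univ ×ˢ Set.Ici 0))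
    (hZ' : ContinuousOn (fun p : ℝ × ℝ => Z' p.1 p.2) (Set.univ ×ˢ Set.Ici 0))
    (hd : ∀ ψ t, 0 ≤ t → HasDerivAt (Z ψ) (Z' ψ t) t)
    (h0 : ∀ ψ, Z ψ 0 = r₀ * cexp (I * ψ)) (hper : ∀ ψ t, 0 ≤ t → Z (ψ + 2 * Real.pi) t = Z ψ t)
    (hper' : ∀ ψ t, 0 ≤ t → Z' (ψ + 2 * Real.pi) t = Z' ψ t) (hT : Continuous T)
    (hTper : ∀ ψ, T (ψ + 2 * Real.pi) = T ψ) (hT0 : ∀ ψ, 0 ≤ T ψ)
    (hlow : ∀ ψ, ∀ t ∈ Set.Icc 0 (T ψ), r₀ ≤ ‖Z ψ t‖) (e : ℂ) (he : ‖e‖ = 1) :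
    ∃ ψ, Z ψ (T ψ) = (‖Z ψ (T ψ)‖ : ℂ) * e := sorry

/-! ### LP-EXIT : from any solution staying near the rotating triangle to the sphere `U = ρ`, with any exit phase -/

theorem exit : ∃ C ρ₀ : ℝ, 0 < C ∧ 0 < ρ₀ ∧ ∀ ρ : ℝ, 0 < ρ → ρ ≤ ρ₀ → ∃ ε : ℝ, 0 < ε ∧ ∀ m : Fin 3 → ℝ, Near3 m ε →
    ∀ φ : ℝ → E × E, Sol m φ → (∀ t, 0 ≤ t → ∃ c : ℂ, ‖c‖ = 1 ∧ ‖φ t - rot c (start 0)‖ ≤ ε) →
    ∀ g : ℂ, ‖g‖ = ρ → ∀ δ : ℝ, 0 < δ → ∃ y₀ : E × E, ‖y₀ - φ 0‖ ≤ δ ∧ ∀ y : ℝ → E × E, Sol m y → y 0 = y₀ →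
      ∃ T : ℝ, 0 ≤ T ∧ (∀ t ∈ Set.Icc 0 T, ∃ c : ℂ, ‖c‖ = 1 ∧ ‖y t - rot c (start 0)‖ ≤ 1 / 100) ∧
        ∃ c : ℂ, ‖c‖ = 1 ∧ ‖y T - rot c (start g)‖ ≤ C * ρ ^ 2 := sorry

/-! ### LP-GROW : from `|g| = ρ` to the given `g`, in the adapted norm -/

theorem grow : ∀ (g : ℂ) (C : ℝ), g ≠ 0 → ‖g‖ ≤ 1 / 10 ^ 20 → 0 < C → ∃ ρ₁ : ℝ, 0 < ρ₁ ∧ ∀ ρ : ℝ, 0 < ρ → ρ ≤ ρ₁ →
    ∃ η : ℝ, 0 < η ∧ ∃ g₁ : ℂ, ‖g₁‖ = ρ ∧ ∀ m : Fin 3 → ℝ, Near3 m η → ∀ y : ℝ → E × E, Sol m y →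
      ‖y 0 - start g₁‖ ≤ C * ρ ^ 2 → ∃ T : ℝ, 0 ≤ T ∧
        (∀ t ∈ Set.Icc 0 T, ∃ c : ℂ, ‖c‖ = 1 ∧ ‖y t - rot c (start 0)‖ ≤ 1 / 100) ∧
        ∃ c : ℂ, ‖c‖ = 1 ∧ nn ((y T).1 - (rot c (start g)).1) ≤ 10 ^ 5 * ‖g‖ ^ 3 ∧
          nn ((y T).2 - (rot c (start g)).2) ≤ 10 ^ 5 * ‖g‖ ^ 3 := sorry

/-! ### LP-BASE : normalized situation -/

def Base2 : Prop := ∃ ε : ℝ, 0 < ε ∧ ∀ m : Fin 3 → ℝ, Near3 m ε → (∀ a, 0 < m a) ∧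
  ∀ x : ℝ → Ph, (∀ t, 0 ≤ t → x t ∈ phaseSpace m ∧ HasDerivAt x ((x t).2, acc m (x t).1) t) →
    (∀ t, 0 ≤ t → ∃ c : ℂ, ‖c‖ = 1 ∧ ‖rel (x t) - rot c (start 0)‖ ≤ ε) →
    ∀ U ∈ 𝓝 (x 0), ∃ y : ℝ → Ph, y 0 ∈ U ∧ IsForwardSol m y ∧
      ∀ R : ℝ, ∃ t₀ : ℝ, ∀ t, t₀ ≤ t → R ≤ ‖(y t).1 2 - (y t).1 0‖ ∧ R ≤ ‖(y t).1 2 - (y t).1 1‖ ∧
        ‖(y t).1 1 - (y t).1 0‖ ≤ 2

theorem base2 {g : ℂ} (h0 : g ≠ 0) (h1 : ‖g‖ ≤ 1 / 10 ^ 20) (hg : GoesW g) : Base2 := sorry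

/-! ### LP-CLOSE : nearly constant distances force the state to be near a rotating equilateral triangle -/

theorem close (ε' : ℝ) (hε' : 0 < ε') : ∃ ε : ℝ, 0 < ε ∧ ∀ m : Fin 3 → ℝ, Near3 m ε → ∀ z : ℝ → E × E,
    (∀ t, 0 ≤ t → HasDerivAt z ((z t).2, rf kep (m 0) (m 1) (m 2) (z t).1) t) →
    (∀ t, 0 ≤ t → |‖(z t).1.1‖ - 1| ≤ ε ∧ |‖(z t).1.2‖ - 1| ≤ ε ∧ |‖(z t).1.1 + (z t).1.2‖ - 1| ≤ ε) →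
    ∃ s : ℂ, (s = I ∨ s = -I) ∧ ∃ ζ : ℂ, (ζ = zeta ∨ ζ = (starRingEnd ℂ) zeta) ∧ ∀ t, 0 ≤ t →
      ∃ c : ℂ, ‖c‖ = 1 ∧ ‖z t - ((c, c * ζ), (s * c, s * (c * ζ)))‖ ≤ ε' := sorry

/-! ### LP-HOM : homographic (elliptic) motions are solutions -/

theorem homographic {m : Fin 3 → ℝ} (hm : ∀ a, 0 < m a) {r : Fin 3 → ℂ} (hr : Equilateral r)
    (hc : ∑ a, (m a : ℂ) * r a = 0) {z z' : ℝ → ℂ} (h0 : ∀ t, z t ≠ 0) (h1 : ∀ t, HasDerivAt z (z' t) t)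
    (h2 : ∀ t, HasDerivAt z' (-(((m 0 + m 1 + m 2) / ‖r 1 - r 0‖ ^ 3 / ‖z t‖ ^ 3 : ℝ) : ℂ) * z t) t) :
    IsSol m (fun t => (fun a => z t * r a, fun a => z' t * r a)) := sorry

/-! ### LP-WRAP : all solutions with nearly constant mutual distances, every body can escape -/

theorem wrap2 (hB : Base2) : ∃ η : ℝ, 0 < η ∧ ∀ m : Fin 3 → ℝ, (∀ i, 0 < m i) →
    (∀ i, |m i - (m 0 + m 1 + m 2) / 3| < η * (m 0 + m 1 + m 2)) →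
    ∀ (x : ℝ → Ph) (ρ : ℝ), 0 < ρ → IsSol m x →
      (∀ t, 0 ≤ t → ∀ a b : Fin 3, a ≠ b → |‖(x t).1 b - (x t).1 a‖ - ρ| ≤ η * ρ) →
      ∀ a b c : Fin 3, a ≠ b → b ≠ c → a ≠ c → ∀ U ∈ 𝓝 (x 0), ∃ y : ℝ → Ph, y 0 ∈ U ∧ IsForwardSol m y ∧
        ∀ R : ℝ, ∃ t₀ : ℝ, ∀ t, t₀ ≤ t → R ≤ ‖(y t).1 c - (y t).1 a‖ ∧ R ≤ ‖(y t).1 c - (y t).1 b‖ ∧
          ‖(y t).1 b - (y t).1 a‖ ≤ 2 * ρ := sorry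

end Pool.Agent.H3.LP
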